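import Pool.Agent.Q38.AE.Many

/-! Objects which correspond, up to bounded errors of height and counting function and up to finite
fibres, to the points of the line over a number field. -/

set_option autoImplicit false
set_option linter.unusedSectionVars false

namespace Pool.Agent.Q38.AE.Model

open Filter Topology NumberField IsDedekindDomain
open Pool.Agent.Results.MP_4d5ce1_nt.ExceptionalSetExponents
open Pool.Agent.Q38.AE.Cov Pool.Agent.Q38.AE.Many

variable {K : Type} [Field K] [NumberField K] {q : ℕ} {Ω : Type*}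

/-- the data of a correspondence -/
structure Mdl (P : Ω → Prop) (h N : Ω → ℝ) (T : Set (HeightOneSpectrum (RingOfIntegers K)))
    (α : Fin q → K × K) (f : Ω → K) (r c : ℝ) (m : ℕ) : Prop where
  r_pos : 0 < r
  c_nonneg : 0 ≤ c
  fin : T.Finite
  ne : ∀ i, α i ≠ 0
  dist : ∀ i j, i ≠ j → (α i).1 * (α j).2 - (α i).2 * (α j).1 ≠ 0
  off : ∀ x, P x → Off K q α (f x)
  surj : ∀ z, Off K q α z → ∃ x, P x ∧ f x = z
  fib : ∀ (F : Finset Ω) (G : Finset K), (∀ x ∈ F, P x) → (∀ x ∈ F, f x ∈ G) →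
    F.card ≤ m * G.card
  h_low : ∀ x, P x → r * height (f x) ≤ h x
  h_up : ∀ x, P x → h x ≤ r * height (f x) + c
  N_low : ∀ x, P x → r * counting T α (f x) ≤ N x
  N_up : ∀ x, P x → N x ≤ r * counting T α (f x) + c

variable {P : Ω → Prop} {h N : Ω → ℝ} {T : Set (HeightOneSpectrum (RingOfIntegers K))}
    {α : Fin q → K × K} {f : Ω → K} {r c : ℝ} {m : ℕ}

theorem fin_of_bound (S : Set Ω) (n : ℕ) (hS : ∀ G : Finset Ω, (G : Set Ω) ⊆ S → G.card ≤ n) :
    S.Finite ∧ S.ncard ≤ n := by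
  have hfin : S.Finite := by
    by_contra hinf
    obtain ⟨G, hGV, hGc⟩ := Set.Infinite.exists_subset_card_eq hinf (n + 1)
    have h1 := hS G hGV
    omega
  refine ⟨hfin, ?_⟩
  rw [Set.ncard_eq_toFinset_card _ hfin]
  exact hS hfin.toFinset (by rw [Set.Finite.coe_toFinset])

theorem count_A (D : Mdl P h N T α f r c m) {s B : ℝ} (hs : 0 < s) (hB : 0 < B)
    (hf : (exceptional T α ((q : ℝ) - 1 / s) ((1 / s * c + 1) / r) (B ^ (1 / r))).Finite) :
    (A P h N s B).Finite ∧ ((A P h N s B).ncard : ℝ) ≤ m *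
      ((exceptional T α ((q : ℝ) - 1 / s) ((1 / s * c + 1) / r) (B ^ (1 / r))).ncard : ℝ) := by
  have hr := D.r_pos
  have key := fin_of_bound (A P h N s B) (m *
      (exceptional T α ((q : ℝ) - 1 / s) ((1 / s * c + 1) / r) (B ^ (1 / r))).ncard) (by
    intro F hF
    rw [Set.ncard_eq_toFinset_card _ hf]
    refine D.fib F _ (fun x hx => (hF hx).1) (fun x hx => ?_)
    rw [Set.Finite.mem_toFinset]
    obtain ⟨h1, h2, h3⟩ := hF hx
    refine ⟨D.off x h1, ?_, ?_⟩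
    · rw [← Real.le_log_iff_exp_le hB] at h2
      rw [← Real.le_log_iff_exp_le (by positivity), Real.log_rpow hB, div_mul_eq_mul_div, one_mul,
        le_div_iff₀ hr]
      have := D.h_low x h1
      linarith
    · have e : (q : ℝ) - ((q : ℝ) - 1 / s) = 1 / s := by ring
      rw [e]
      have k1 := D.N_low x h1
      have k2 := D.h_up x h1
      have k3 : 1 / s * h x ≤ 1 / s * (r * height (f x) + c) :=
        mul_le_mul_of_nonneg_left k2 (by positivity)
      have k4 : r * counting T α (f x) < r * (1 / s * height (f x) + (1 / s * c + 1) / r) := by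
        have e2 : r * (1 / s * height (f x) + (1 / s * c + 1) / r) =
            1 / s * (r * height (f x) + c) + 1 := by
          field_simp
          ring
        rw [e2]
        have k5 : N x < 1 / s * h x + 1 := h3
        linarith
      exact lt_of_mul_lt_mul_left k4 hr.le)
  exact ⟨key.1, by exact_mod_cast key.2⟩

theorem transfer (D : Mdl P h N T α f r c m) {s g : ℝ} (hs : 0 < s)
    (hE : ∀ δ : ℝ, 0 < δ → ∃ C : ℝ, ∀ B : ℝ, 1 ≤ B →
      (exceptional T α ((q : ℝ) - 1 / s) ((1 / s * c + 1) / r) B).Finite ∧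
      ((exceptional T α ((q : ℝ) - 1 / s) ((1 / s * c + 1) / r) B).ncard : ℝ) ≤
          C * B ^ ((Module.finrank ℚ K : ℝ) * g + δ)) (δ : ℝ) (hδ : 0 < δ) :
    ∃ C : ℝ, ∀ B : ℝ, 1 ≤ B → (A P h N s B).Finite ∧
      ((A P h N s B).ncard : ℝ) ≤ C * B ^ ((Module.finrank ℚ K : ℝ) / r * g + δ) := by
  have hr := D.r_pos
  obtain ⟨C, hC⟩ := hE (r * δ) (by positivity)
  refine ⟨m * C, fun B hB => ?_⟩
  have hB0 : 0 < B := by linarith
  obtain ⟨k1, k2⟩ := hC (B ^ (1 / r)) (Real.one_le_rpow hB (by positivity))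
  obtain ⟨m1, m2⟩ := count_A D hs hB0 k1
  refine ⟨m1, m2.trans ?_⟩
  rw [← Real.rpow_mul hB0.le] at k2
  have e : 1 / r * ((Module.finrank ℚ K : ℝ) * g + r * δ) = (Module.finrank ℚ K : ℝ) / r * g + δ := by
    field_simp
  rw [e] at k2
  rw [mul_assoc]
  exact mul_le_mul_of_nonneg_left k2 (Nat.cast_nonneg _)

/-- the exact range -/
theorem low_m (D : Mdl P h N T α f r c m) (hq : 3 ≤ q) {s : ℝ} (h0 : 1 / (q : ℝ) ≤ s)
    (hs : s ≤ 7 / (7 * (q : ℝ) - 6) ∨ (q = 3 ∧ s ≤ 1 / 2)) (δ : ℝ) (hδ : 0 < δ) :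
    ∃ C : ℝ, ∀ B : ℝ, 1 ≤ B → (A P h N s B).Finite ∧
      ((A P h N s B).ncard : ℝ) ≤
        C * B ^ ((Module.finrank ℚ K : ℝ) / r * (2 - ((q : ℝ) - 1 / s)) + δ) := by
  have hq' : (3 : ℝ) ≤ q := by exact_mod_cast hq
  have hq0 : (0 : ℝ) < q := by linarith
  have h76 : 0 < 7 * (q : ℝ) - 6 := by linarith
  have hs0 : 0 < s := lt_of_lt_of_le (by positivity) h0
  have hκ0 : 0 ≤ (q : ℝ) - 1 / s := by
    rw [sub_nonneg, div_le_iff₀ hs0]
    rw [div_le_iff₀ hq0] at h0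
    linarith
  have hκ1 : (q : ℝ) - 1 / s ≤ 6 / 7 ∨ (q = 3 ∧ (q : ℝ) - 1 / s ≤ 1) := by
    rcases hs with hs | ⟨hs1, hs2⟩
    · left
      have h1 : (q : ℝ) - 6 / 7 ≤ 1 / s := by
        rw [le_div_iff₀ hs0]
        rw [le_div_iff₀ h76] at hs
        linarith
      linarith
    · right
      refine ⟨hs1, ?_⟩
      have h1 : 2 ≤ 1 / s := by
        rw [le_div_iff₀ hs0]
        linarith
      rw [hs1]
      push_cast
      linarith
  have hκ2 : (q : ℝ) - 1 / s < 2 := by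
    rcases hκ1 with h | h <;> linarith
  obtain ⟨hfin, -, hex⟩ := (result K T D.fin q (by omega) α D.ne D.dist
    ((q : ℝ) - 1 / s) ((1 / s * c + 1) / r) hκ0).1 hκ2
  have hκ3 : (q : ℝ) - 1 / s ≤ 6 / 7 ∨ (q = 3 ∧ (q : ℝ) - 1 / s ≤ 1) ∨ q = 2 := by
    rcases hκ1 with h | h
    · exact Or.inl h
    · exact Or.inr (Or.inl h)
  obtain ⟨hC, -⟩ := hex hκ3
  refine transfer D hs0 (fun δ hδ => ?_) δ hδ
  obtain ⟨C, hC⟩ := hC δ hδ
  exact ⟨C, fun B hB => ⟨hfin B hB, hC B hB⟩⟩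

theorem high_m (D : Mdl P h N T α f r c m) (hq : 3 ≤ q) {s : ℝ} (h1 : 7 / (7 * (q : ℝ) - 6) ≤ s)
    (h2 : s ≤ 3 / q) (δ : ℝ) (hδ : 0 < δ) :
    ∃ C : ℝ, ∀ B : ℝ, 1 ≤ B → (A P h N s B).Finite ∧
      ((A P h N s B).ncard : ℝ) ≤
        C * B ^ ((Module.finrank ℚ K : ℝ) / r * expoThree (3 * ((q : ℝ) - 1 / s) / q) + δ) := by
  have hq' : (3 : ℝ) ≤ q := by exact_mod_cast hq
  have hq0 : (0 : ℝ) < q := by linarith
  have h76 : 0 < 7 * (q : ℝ) - 6 := by linarith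
  have hs0 : 0 < s := lt_of_lt_of_le (by positivity) h1
  obtain ⟨a1, b2, b3, -⟩ := slice_top hq h1 h2
  have a2 : (q : ℝ) - 1 / s ≤ q := by
    have : 0 < 1 / s := by positivity
    linarith
  refine transfer D hs0 (fun δ hδ => ?_) δ hδ
  exact (result K T D.fin q (by omega) α D.ne D.dist
    ((q : ℝ) - 1 / s) ((1 / s * c + 1) / r) a1).2 hq a2 δ hδ

/-- **The upper bound.** -/
theorem upper_m (D : Mdl P h N T α f r c m) (hq : 3 ≤ q) {M L ε : ℝ} (hM : 1 / (q : ℝ) < M)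
    (hML : M < L) (hL : L ≤ 7 / (7 * (q : ℝ) - 6) ∨ (q = 3 ∧ L ≤ 1 / 2) ∨
      (L ≤ 3 / q ∧ ((q : ℝ) - 2) * M ≤ 1 - top q)) (hε : 0 < ε) :
    ∃ C : ℝ, 0 < C ∧ ∀ X : ℝ, 1 ≤ X → (E P h N M L X).Finite ∧
      ((E P h N M L X).ncard : ℝ) ≤
        C * X ^ ((Module.finrank ℚ K : ℝ) / r * (1 - ((q : ℝ) - 2) * M) + ε) := by
  have hq' : (3 : ℝ) ≤ q := by exact_mod_cast hq
  have hq0 : (0 : ℝ) < q := by linarith
  have h76 : 0 < 7 * (q : ℝ) - 6 := by linarith
  have hM0 : 0 < M := lt_trans (by positivity) hM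
  have hr := D.r_pos
  obtain ⟨d, hd⟩ : ∃ d : ℝ, d = (Module.finrank ℚ K : ℝ) / r := ⟨_, rfl⟩
  have hd0 : 0 ≤ d := by rw [hd]; exact div_nonneg (Nat.cast_nonneg _) hr.le
  refine cover (G := 2 * d) hM0 hML.le (by positivity) (fun s h1 h2 => ?_) hε
  have hs0 : 0 < s := by linarith
  have hsq : 1 / (q : ℝ) ≤ s := by linarith
  have hκ0 : 0 ≤ (q : ℝ) - 1 / s := by
    rw [sub_nonneg, div_le_iff₀ hs0]
    rw [div_le_iff₀ hq0] at hsq
    linarith
  by_cases hcase : s ≤ 7 / (7 * (q : ℝ) - 6) ∨ (q = 3 ∧ s ≤ 1 / 2)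
  · refine ⟨d * (2 - ((q : ℝ) - 1 / s)), ?_, ?_, ?_, ?_⟩
    · refine mul_nonneg hd0 ?_
      rcases hcase with h | ⟨h, h'⟩
      · have : (q : ℝ) - 6 / 7 ≤ 1 / s := by
          rw [le_div_iff₀ hs0]
          rw [le_div_iff₀ h76] at h
          linarith
        linarith
      · have h3 : 2 ≤ 1 / s := by
          rw [le_div_iff₀ hs0]
          linarith
        rw [h]
        push_cast
        linarith
    · nlinarith
    · have e1 : s * (d * (2 - ((q : ℝ) - 1 / s))) = d * (1 - ((q : ℝ) - 2) * s) := by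
        field_simp
        ring
      rw [e1, ← hd]
      refine mul_le_mul_of_nonneg_left ?_ hd0
      have : ((q : ℝ) - 2) * M ≤ ((q : ℝ) - 2) * s := mul_le_mul_of_nonneg_left h1 (by linarith)
      linarith
    · rw [hd]
      exact low_m D hq hsq hcase
  · push Not at hcase
    obtain ⟨c1, c2⟩ := hcase
    have hL3 : L ≤ 3 / q ∧ ((q : ℝ) - 2) * M ≤ 1 - top q := by
      rcases hL with h | h | h
      · exfalso
        linarith
      · exfalso
        have := c2 h.1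
        linarith
      · exact h
    obtain ⟨b1, b2, b3, b4⟩ := slice_top hq c1.le (h2.trans hL3.1)
    refine ⟨d * expoThree (3 * ((q : ℝ) - 1 / s) / q), mul_nonneg hd0 (e_mid0 b2 b3), ?_, ?_, ?_⟩
    · have := e_le_two b2 b3
      nlinarith
    · calc s * (d * expoThree (3 * ((q : ℝ) - 1 / s) / q)) =
            d * (s * expoThree (3 * ((q : ℝ) - 1 / s) / q)) := by ring
        _ ≤ d * (1 - ((q : ℝ) - 2) * M) := mul_le_mul_of_nonneg_left (by linarith) hd0
        _ = _ := by rw [hd]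
    · rw [hd]
      exact high_m D hq c1.le (h2.trans hL3.1)

/-- **The lower bound.** -/
theorem lower_m (D : Mdl P h N T α f r c m) (hq : 3 ≤ q) {M L ε : ℝ} (hM : 1 / (q : ℝ) < M)
    (hML : M < L) (hL : L ≤ 7 / (7 * (q : ℝ) - 6) ∨ (q = 3 ∧ L ≤ 1 / 2) ∨
      (L ≤ 3 / q ∧ ((q : ℝ) - 2) * M ≤ 1 - top q)) (hε : 0 < ε) :
    ∃ X₀ : ℝ, ∀ X : ℝ, X₀ ≤ X →
      X ^ ((Module.finrank ℚ K : ℝ) / r * (1 - ((q : ℝ) - 2) * M) - ε) ≤
        ((F P h N M L X).ncard : ℝ) := by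
  have hq' : (3 : ℝ) ≤ q := by exact_mod_cast hq
  have hq0 : (0 : ℝ) < q := by linarith
  have h76 : 0 < 7 * (q : ℝ) - 6 := by linarith
  have hM0 : 0 < M := lt_trans (by positivity) hM
  have hr := D.r_pos
  have hdpos : 0 < (Module.finrank ℚ K : ℝ) := by exact_mod_cast Module.finrank_pos
  obtain ⟨L', hL1, hL2, hL3⟩ : ∃ L' : ℝ, M < L' ∧ L' ≤ L ∧
      (L' ≤ 7 / (7 * (q : ℝ) - 6) ∨ (q = 3 ∧ L' ≤ 1 / 2)) := by
    rcases hL with h | h | h
    · exact ⟨L, hML, le_rfl, Or.inl h⟩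
    · exact ⟨L, hML, le_rfl, Or.inr h⟩
    · exact ⟨min L (7 / (7 * (q : ℝ) - 6)), lt_min hML (M_lt hq h.2), min_le_left _ _,
        Or.inl (min_le_right _ _)⟩
  have hL'0 : 0 < L' := by linarith
  have hκ0 : 0 ≤ (q : ℝ) - 1 / M := by
    rw [sub_nonneg, div_le_iff₀ hM0]
    rw [div_lt_iff₀ hq0] at hM
    linarith
  have hinv : 1 / L' < 1 / M := one_div_lt_one_div_of_lt hM0 hL1
  have hκL : (q : ℝ) - 1 / L' < 2 := by
    rcases hL3 with h | ⟨h, h'⟩
    · have : (q : ℝ) - 6 / 7 ≤ 1 / L' := by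
        rw [le_div_iff₀ hL'0]
        rw [le_div_iff₀ h76] at h
        linarith
      linarith
    · have h3 : 2 ≤ 1 / L' := by
        rw [le_div_iff₀ hL'0]
        linarith
      rw [h]
      push_cast
      linarith
  have hκ2 : (q : ℝ) - 1 / M < 2 := by linarith
  obtain ⟨-, hlow, -⟩ := (result K T D.fin q (by omega) α D.ne D.dist
    ((q : ℝ) - 1 / M) (-(c / r)) hκ0).1 hκ2
  have hMslice : M ≤ 7 / (7 * (q : ℝ) - 6) ∨ (q = 3 ∧ M ≤ 1 / 2) := by
    rcases hL3 with h | ⟨h, h'⟩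
    · left; linarith
    · right; exact ⟨h, by linarith⟩
  obtain ⟨g, hg⟩ : ∃ g : ℝ, g = (Module.finrank ℚ K : ℝ) / r * (2 - ((q : ℝ) - 1 / M)) := ⟨_, rfl⟩
  have hZ : ∃ C : ℝ, 0 < C ∧ ∀ᶠ B : ℝ in atTop, C * B ^ g ≤
        (({x | P x ∧ Real.exp (h x) ≤ B ∧ N x < 1 / M * h x} : Set Ω).ncard : ℝ) := by
    obtain ⟨C, hC, h'⟩ := hlow
    refine ⟨C * (Real.exp (-c)) ^ g, by positivity, ?_⟩
    have t1 : Tendsto (fun B : ℝ => Real.exp (-c) * B) atTop atTop :=
      tendsto_id.const_mul_atTop (Real.exp_pos _)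
    have tB : Tendsto (fun B : ℝ => (Real.exp (-c) * B) ^ (1 / r)) atTop atTop :=
      (tendsto_rpow_atTop (by positivity)).comp t1
    filter_upwards [tB.eventually h', eventually_ge_atTop 1] with B hB hB1
    have hB0 : 0 < B := by linarith
    have hBc : 0 < Real.exp (-c) * B := by positivity
    rw [← Real.rpow_mul hBc.le] at hB
    have e : 1 / r * ((Module.finrank ℚ K : ℝ) * (2 - ((q : ℝ) - 1 / M))) = g := by
      rw [hg]
      field_simp
    rw [e, Real.mul_rpow (Real.exp_pos _).le hB0.le, ← mul_assoc] at hB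
    refine hB.trans ?_
    have hfin : ({x | P x ∧ Real.exp (h x) ≤ B ∧ N x < 1 / M * h x} : Set Ω).Finite := by
      obtain ⟨C', hC'⟩ := low_m D hq hM.le hMslice 1 one_pos
      refine (hC' B hB1).1.subset ?_
      rintro z ⟨k1, k2, k3⟩
      exact ⟨k1, k2, k3.trans (lt_add_one _)⟩
    have hsub : exceptional T α ((q : ℝ) - 1 / M) (-(c / r)) ((Real.exp (-c) * B) ^ (1 / r)) ⊆
        f '' {x | P x ∧ Real.exp (h x) ≤ B ∧ N x < 1 / M * h x} := by
      rintro z ⟨k1, k2, k3⟩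
      obtain ⟨x, hx, rfl⟩ := D.surj z k1
      refine ⟨x, ⟨hx, ?_, ?_⟩, rfl⟩
      · rw [← Real.le_log_iff_exp_le (by positivity), Real.log_rpow hBc, div_mul_eq_mul_div,
          one_mul, le_div_iff₀ hr, Real.log_mul (Real.exp_pos _).ne' hB0.ne', Real.log_exp] at k2
        rw [← Real.le_log_iff_exp_le hB0]
        have := D.h_up x hx
        linarith
      · have e1 : (q : ℝ) - ((q : ℝ) - 1 / M) = 1 / M := by ring
        rw [e1] at k3
        have k4 := D.N_up x hx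
        have k5 := D.h_low x hx
        have k6 : r * counting T α (f x) < r * (1 / M * height (f x) + -(c / r)) :=
          mul_lt_mul_of_pos_left k3 hr
        have e2 : r * (1 / M * height (f x) + -(c / r)) = 1 / M * (r * height (f x)) - c := by
          field_simp
          ring
        rw [e2] at k6
        have k7 : 1 / M * (r * height (f x)) ≤ 1 / M * h x :=
          mul_le_mul_of_nonneg_left k5 (by positivity)
        linarith
    have h8 := Set.ncard_le_ncard hsub (hfin.image f)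
    exact_mod_cast h8.trans (Set.ncard_image_le hfin)
  have h1 := lower (L := L) (g := g)
    (g' := (Module.finrank ℚ K : ℝ) / r * (2 - ((q : ℝ) - 1 / L'))) hM0 hL1 hL2
    (fun x hx => ?_) hZ ?_ (low_m D hq (by linarith) hL3) ?_ hε
  · obtain ⟨X₀, hX₀⟩ := h1
    refine ⟨X₀, fun X hX => ?_⟩
    have h2 := hX₀ X hX
    have e1 : M * g = (Module.finrank ℚ K : ℝ) / r * (1 - ((q : ℝ) - 2) * M) := by
      rw [hg]
      field_simp
      ring
    rw [e1] at h2
    exact h2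
  · exact (mul_nonneg hr.le (height_nonneg K (f x))).trans (D.h_low x hx)
  · obtain ⟨C, -, hC⟩ := upper_m D hq hM hML hL one_pos
    exact fun X hX => (hC X hX).1
  · rw [hg]
    exact mul_lt_mul_of_pos_left (by linarith) (by positivity)

/-- **The exact exponent.** -/
theorem exact_m (D : Mdl P h N T α f r c m) (hq : 3 ≤ q) {M L : ℝ} (hM : 1 / (q : ℝ) < M)
    (hML : M < L) (hL : L ≤ 7 / (7 * (q : ℝ) - 6) ∨ (q = 3 ∧ L ≤ 1 / 2) ∨
      (L ≤ 3 / q ∧ ((q : ℝ) - 2) * M ≤ 1 - top q)) :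
    (∀ X : ℝ, 1 ≤ X → (E P h N M L X).Finite ∧ F P h N M L X ⊆ E P h N M L X) ∧
    Tendsto (fun X : ℝ => Real.log ((E P h N M L X).ncard : ℝ) / Real.log X) atTop
      (𝓝 ((Module.finrank ℚ K : ℝ) / r * (1 - ((q : ℝ) - 2) * M))) ∧
    Tendsto (fun X : ℝ => Real.log ((F P h N M L X).ncard : ℝ) / Real.log X) atTop
      (𝓝 ((Module.finrank ℚ K : ℝ) / r * (1 - ((q : ℝ) - 2) * M))) := by
  have hM0 : 0 < M := lt_trans (by positivity) hM
  have hfin : ∀ X : ℝ, 1 ≤ X → (E P h N M L X).Finite ∧ F P h N M L X ⊆ E P h N M L X := by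
    intro X hX
    obtain ⟨C, -, hC⟩ := upper_m D hq hM hML hL one_pos
    exact ⟨(hC X hX).1, F_sub (by linarith) (by linarith)⟩
  have hle : ∀ X : ℝ, 1 ≤ X → ((F P h N M L X).ncard : ℝ) ≤ ((E P h N M L X).ncard : ℝ) := by
    intro X hX
    obtain ⟨h1, h2⟩ := hfin X hX
    exact_mod_cast Set.ncard_le_ncard h2 h1
  refine ⟨hfin, tendsto_exponent (fun ε hε => ?_) (fun ε hε => ?_),
    tendsto_exponent (fun ε hε => ?_) (fun ε hε => lower_m D hq hM hML hL hε)⟩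
  · obtain ⟨C, hC, h⟩ := upper_m D hq hM hML hL hε
    exact ⟨C, hC, fun X hX => (h X hX).2⟩
  · obtain ⟨X₀, h⟩ := lower_m D hq hM hML hL hε
    exact ⟨max X₀ 1, fun X hX => (h X ((le_max_left _ _).trans hX)).trans
      (hle X ((le_max_right _ _).trans hX))⟩
  · obtain ⟨C, hC, h⟩ := upper_m D hq hM hML hL hε
    exact ⟨C, hC, fun X hX => (hle X hX).trans (h X hX).2⟩

end Pool.Agent.Q38.AE.Model
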