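import Pool.Agent.Q38.AE.Num
import Pool.Agent.Q38.AE.Model
import Pool.Agent.TH402.AK.Quad

/-! Points `x ≠ 0, -1` of a number field with their radical and their height, in terms of the points
of the line. -/

set_option autoImplicit false
set_option linter.unusedSectionVars false

namespace Pool.Agent.Q38.AE.Ints

open Filter Topology NumberField IsDedekindDomain
open Pool.Agent.H691R3
open Pool.Agent.TH876.Loc
open Pool.Agent.Q38.AE.Num
open Pool.Agent.Results.MP_4d5ce1_nt.ExceptionalSetExponents (height counting exceptional)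

variable {K : Type} [Field K] [NumberField K]

theorem d_pos : 0 < (Module.finrank ℚ K : ℝ) := by
  have : 0 < Module.finrank ℚ K := Module.finrank_pos
  exact_mod_cast this

omit [NumberField K] in
theorem pt_neg {x : K} (h0 : x ≠ 0) (h1 : x ≠ 1) : Pt (-x) := by
  refine ⟨neg_ne_zero.2 h0, ?_⟩
  intro h
  apply h1
  linear_combination -h

omit [NumberField K] in
theorem neg_pt {x : K} (h : Pt x) : -x ≠ 0 ∧ -x ≠ 1 := by
  refine ⟨neg_ne_zero.2 h.1, ?_⟩
  intro h'
  apply h.2
  linear_combination -h'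

theorem mem_sp_neg {x : K} (h0 : x ≠ 0) (h1 : x ≠ 1) (v : Pr K) :
    v ∈ sp (-x) ↔ ¬ (fv v x = 1 ∧ fv v (x - 1) = 1) := by
  rw [mem_sp (pt_neg h0 h1), (fv v).map_neg]
  have : -x + 1 = -(x - 1) := by ring
  rw [this, (fv v).map_neg]

theorem cd_eq {x : K} {T : Finset (Pr K)} (hT : ∀ v, fv v x < 1 → v ∈ T) :
    cd x = ∑ v ∈ T, (if fv v x < 1 then Real.log (Nv v) else 0) := by
  unfold cd ind
  rw [finsum_eq_sum_of_support_subset (s := T)]
  · rfl
  · intro v hv
    rw [Function.mem_support] at hv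
    apply hT
    by_contra h
    exact hv (if_neg h)

/-- the conductors add up to the radical -/
theorem cd_sum {x : K} (h0 : x ≠ 0) (h1 : x ≠ 1) :
    cd x + cd x⁻¹ + cd (x - 1) = Real.log (nn (sp (-x))) := by
  have e0 : ∀ v : Pr K, fv v x < 1 → v ∈ sp (-x) := by
    intro v hv
    rw [mem_sp_neg h0 h1]
    rintro ⟨h, _⟩
    linarith
  have e1 : ∀ v : Pr K, fv v x⁻¹ < 1 → v ∈ sp (-x) := by
    intro v hv
    rw [mem_sp_neg h0 h1]
    rintro ⟨h, _⟩
    rw [map_inv₀, h] at hv
    norm_num at hv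
  have e2 : ∀ v : Pr K, fv v (x - 1) < 1 → v ∈ sp (-x) := by
    intro v hv
    rw [mem_sp_neg h0 h1]
    rintro ⟨_, h⟩
    linarith
  rw [cd_eq e0, cd_eq e1, cd_eq e2, Pool.Agent.TH876.KR.log_nn]
  have h2 : ∀ v ∈ sp (-x), Real.log (Nv v) = (if fv v x < 1 then Real.log (Nv v) else 0) +
      (if fv v x⁻¹ < 1 then Real.log (Nv v) else 0) +
      (if fv v (x - 1) < 1 then Real.log (Nv v) else 0) := by
    intro v hv
    rw [mem_sp_neg h0 h1] at hv
    have hx := (fv v).pos h0
    have hna : fv v (x - 1) ≤ max (fv v x) 1 := by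
      have := fv_na v x (-1)
      rw [(fv v).map_neg, map_one] at this
      rw [sub_eq_add_neg]
      exact this
    have hna2 : fv v x ≤ max (fv v (x - 1)) 1 := by
      have := fv_na v (x - 1) 1
      rw [map_one] at this
      simpa using this
    have hna3 : 1 ≤ max (fv v x) (fv v (x - 1)) := by
      have := fv_na v x (-(x - 1))
      rw [(fv v).map_neg] at this
      have e : x + -(x - 1) = 1 := by ring
      rw [e, map_one] at this
      exact this
    have hiv : fv v x⁻¹ < 1 ↔ 1 < fv v x := by rw [map_inv₀, inv_lt_one₀ hx]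
    rcases lt_trichotomy (fv v x) 1 with h | h | h
    · have h3 : ¬ fv v (x - 1) < 1 := by
        intro h4
        have := max_lt h h4
        linarith
      rw [if_pos h, if_neg (fun h5 => absurd (hiv.1 h5) (not_lt.2 h.le)), if_neg h3]
      ring
    · have h3 : fv v (x - 1) < 1 := by
        rw [h] at hna
        rw [max_self] at hna
        exact lt_of_le_of_ne hna fun h4 => hv ⟨h, h4⟩
      rw [if_neg (by rw [h]; exact lt_irrefl 1),
        if_neg (fun h5 => by have := hiv.1 h5; rw [h] at this; exact lt_irrefl 1 this), if_pos h3]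
      ring
    · have h3 : ¬ fv v (x - 1) < 1 := by
        intro h4
        have : fv v x ≤ 1 := hna2.trans (max_le h4.le le_rfl)
        linarith
      rw [if_neg (not_lt.2 h.le), if_pos (hiv.2 h), if_neg h3]
      ring
  rw [Finset.sum_congr rfl h2, Finset.sum_add_distrib, Finset.sum_add_distrib]

theorem counting_eq {x : K} (h : Pt x) :
    (Module.finrank ℚ K : ℝ) * counting ∅ (al3 K) (-x) = Real.log (nn (sp x)) := by
  obtain ⟨h0, h1⟩ := neg_pt h
  rw [counting_cd h0 h1, cd_sum h0 h1, neg_neg, mul_div_cancel₀ _ (d_pos (K := K)).ne']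

theorem hsum (x : K) : (Module.finrank ℚ K : ℝ) * height x =
      (∑ w : InfinitePlace K, (w.mult : ℝ) * Real.log (max 1 (w x))) +
      ∑ᶠ v : HeightOneSpectrum (𝓞 K), Real.log (max 1 (FinitePlace.mk v x)) := by
  unfold height
  rw [mul_div_cancel₀ _ (d_pos (K := K)).ne']
  congr 1
  · refine Finset.sum_congr rfl fun w _ => ?_
    rw [map_one, max_comm]
  · refine finsum_congr fun v => ?_
    rw [map_one, max_comm]

theorem hfin {x : K} (h0 : x ≠ 0) (h1 : x ≠ 1) :
    ∑ v ∈ sp (-x), mx (Sum.inr v : Pl K) (-x) =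
      ∑ᶠ v : HeightOneSpectrum (𝓞 K), Real.log (max 1 (FinitePlace.mk v x)) := by
  rw [finsum_eq_sum_of_support_subset (s := sp (-x))]
  · refine Finset.sum_congr rfl fun v _ => ?_
    unfold mx
    show 1 * Real.log (max (fv v (-x)) (max (fv v 1) (fv v (- -x - 1)))) =
      Real.log (max 1 (fv v x))
    rw [one_mul, (fv v).map_neg, map_one, neg_neg]
    congr 1
    have hna : fv v (x - 1) ≤ max (fv v x) 1 := by
      have := fv_na v x (-1)
      rw [(fv v).map_neg, map_one] at this
      rw [sub_eq_add_neg]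
      exact this
    rw [← max_assoc, max_eq_left hna, max_comm]
  · intro v hv
    rw [Function.mem_support] at hv
    rw [Finset.mem_coe, mem_sp_neg h0 h1]
    rintro ⟨h, _⟩
    apply hv
    show Real.log (max 1 (fv v x)) = 0
    rw [h, max_self, Real.log_one]

/-- the height of the point, from above -/
theorem hgt_le {x : K} (h0 : x ≠ 0) (h1 : x ≠ 1) :
    hgt (-x) ≤ (Module.finrank ℚ K : ℝ) * height x + (Module.finrank ℚ K : ℝ) * Real.log 2 := by
  unfold hgt
  rw [sum_Spl, hfin h0 h1, hsum]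
  have hinf : ∀ w : InfinitePlace K, mx (Sum.inl w : Pl K) (-x) ≤
      (w.mult : ℝ) * Real.log (max 1 (w x)) + (w.mult : ℝ) * Real.log 2 := by
    intro w
    unfold mx
    show (w.mult : ℝ) * Real.log (max (w (-x)) (max (w 1) (w (- -x - 1)))) ≤ _
    have e1 : w (-x) = w x := w.1.map_neg x
    have e2 : w (- -x - 1) ≤ w x + 1 := by
      have h3 : w (- -x - 1) ≤ w (- -x) + w 1 := by
        rw [sub_eq_add_neg]
        have h4 := w.1.add_le (- -x) (-1)
        have h5 : w.1 (-1) = w.1 1 := w.1.map_neg 1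
        rw [h5] at h4
        exact h4
      rw [neg_neg, map_one] at h3
      rw [neg_neg]
      exact h3
    rw [e1, map_one, ← mul_add, ← Real.log_mul (by positivity) (by norm_num)]
    refine mul_le_mul_of_nonneg_left ?_ (Nat.cast_nonneg _)
    have h6 : (1 : ℝ) ≤ max 1 (w x) := le_max_left _ _
    have h7 : w x ≤ max 1 (w x) := le_max_right _ _
    refine Real.log_le_log (lt_of_lt_of_le one_pos ((le_max_left _ _).trans (le_max_right _ _))) ?_
    refine max_le (by linarith) (max_le (by linarith) ?_)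
    linarith
  have hsum' : ∑ w : InfinitePlace K, (w.mult : ℝ) = (Module.finrank ℚ K : ℝ) := by
    rw [← Nat.cast_sum, InfinitePlace.sum_mult_eq]
  have h8 := Finset.sum_le_sum fun w (_ : w ∈ (Finset.univ : Finset (InfinitePlace K))) => hinf w
  rw [Finset.sum_add_distrib, ← Finset.sum_mul, hsum'] at h8
  linarith

/-- the height of the point, from below -/
theorem le_hgt {x : K} (h0 : x ≠ 0) (h1 : x ≠ 1) :
    (Module.finrank ℚ K : ℝ) * height x ≤ hgt (-x) := by
  unfold hgt
  rw [sum_Spl, hfin h0 h1, hsum]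
  have hinf : ∀ w : InfinitePlace K,
      (w.mult : ℝ) * Real.log (max 1 (w x)) ≤ mx (Sum.inl w : Pl K) (-x) := by
    intro w
    unfold mx
    show _ ≤ (w.mult : ℝ) * Real.log (max (w (-x)) (max (w 1) (w (- -x - 1))))
    have e1 : w (-x) = w x := w.1.map_neg x
    rw [e1, map_one]
    refine mul_le_mul_of_nonneg_left ?_ (Nat.cast_nonneg _)
    refine Real.log_le_log (lt_of_lt_of_le one_pos (le_max_left _ _)) ?_
    exact max_le ((le_max_left _ _).trans (le_max_right _ _)) (le_max_left _ _)
  have h8 := Finset.sum_le_sum fun w (_ : w ∈ (Finset.univ : Finset (InfinitePlace K))) => hinf w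
  linarith

theorem le_hgt' {x : K} (h : Pt x) : (Module.finrank ℚ K : ℝ) * height (-x) ≤ hgt x := by
  obtain ⟨h0, h1⟩ := neg_pt h
  have := le_hgt h0 h1
  rwa [neg_neg] at this

theorem hgt_le' {x : K} (h : Pt x) :
    hgt x ≤ (Module.finrank ℚ K : ℝ) * height (-x) + (Module.finrank ℚ K : ℝ) * Real.log 2 := by
  obtain ⟨h0, h1⟩ := neg_pt h
  have := hgt_le h0 h1
  rwa [neg_neg] at this

end Pool.Agent.Q38.AE.Ints
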