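import Pool.Agent.Q38.AE.Many
import Pool.Agent.TH876.KR.Fin

/-! The points of the projective line over a number field, ordered by the truncated counting function
of `q` rational points. -/

set_option autoImplicit false
set_option linter.unusedSectionVars false

namespace Pool.Agent.Q38.AE.Line

open Filter Topology NumberField IsDedekindDomain
open Pool.Agent.H691R3
open Pool.Agent.TH876.Loc
open Pool.Agent.TH876.KR (form localHeight counting m2 localHeight_eq localHeight_nonneg two_forms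
  m2_of_good good_finite Good log_Nv_pos' GoodPr localHeight_pos_iff)
open Pool.Agent.Q38.AE.Cov
open Pool.Agent.Results.MP_4d5ce1_nt.ExceptionalSetExponents (height exceptional)

variable {K : Type} [Field K] [NumberField K] {q : ℕ}

theorem m2_pos (v : Pr K) {b : Fin 2 → K} (hb : b ≠ 0) : 0 < m2 v b := by
  have h : b 0 ≠ 0 ∨ b 1 ≠ 0 := by
    by_contra hcon
    rw [not_or, not_not, not_not] at hcon
    apply hb
    funext i
    fin_cases i
    · exact hcon.1
    · exact hcon.2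
  rcases h with h | h
  · exact lt_of_lt_of_le ((fv v).pos h) (le_max_left _ _)
  · exact lt_of_lt_of_le ((fv v).pos h) (le_max_right _ _)

theorem iSup_two (f : Fin 2 → ℝ) : ⨆ i, f i = max (f 0) (f 1) := by
  refine le_antisymm (ciSup_le fun i => ?_) (max_le ?_ ?_)
  · fin_cases i
    · exact le_max_left _ _
    · exact le_max_right _ _
  · exact le_ciSup (f := f) (Set.finite_range _).bddAbove 0
  · exact le_ciSup (f := f) (Set.finite_range _).bddAbove 1

omit [NumberField K] in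
theorem pne {a : Fin 2 → K} (ha : a ≠ 0) : ((a 0, a 1) : K × K) ≠ 0 := by
  intro h
  apply ha
  funext i
  fin_cases i
  · exact (Prod.mk.inj h).1
  · exact (Prod.mk.inj h).2

theorem fin_part {a : Fin 2 → K} (hp : ((a 0, a 1) : K × K) ≠ 0) :
    ∏ᶠ v : FinitePlace K, ⨆ i : Fin 2, v (a i) =
      ∏ v ∈ (max_support_finite hp).toFinset, max (fv v (a 0)) (fv v (a 1)) := by
  have h2 : ∀ v : HeightOneSpectrum (𝓞 K), (⨆ i : Fin 2,
      ((FinitePlace.equivHeightOneSpectrum (K := K)).symm v) (a i)) =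
        max (fv v (a 0)) (fv v (a 1)) := by
    intro v
    rw [iSup_two]
    rfl
  rw [← finprod_comp_equiv (FinitePlace.equivHeightOneSpectrum (K := K)).symm]
  simp_rw [h2]
  refine finprod_eq_prod_of_mulSupport_subset _ ?_
  intro v hv
  rw [Set.Finite.coe_toFinset]
  exact hv

theorem fin_sum {a : Fin 2 → K} (hp : ((a 0, a 1) : K × K) ≠ 0) :
    ∑ᶠ v : HeightOneSpectrum (𝓞 K), Real.log (max (fv v (a 0)) (fv v (a 1))) =
      ∑ v ∈ (max_support_finite hp).toFinset, Real.log (max (fv v (a 0)) (fv v (a 1))) := by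
  refine finsum_eq_sum_of_support_subset _ ?_
  intro v hv
  rw [Set.Finite.coe_toFinset]
  simp only [Function.mem_support, Set.mem_ofPred_eq] at hv ⊢
  intro h
  rw [h, Real.log_one] at hv
  exact hv rfl

theorem hr_def (a : Fin 2 → K) : hr (a 0, a 1) =
    ∑ w : InfinitePlace K, (w.mult : ℝ) * Real.log (max (w (a 0)) (w (a 1))) +
    ∑ᶠ v : HeightOneSpectrum (𝓞 K), Real.log (max (fv v (a 0)) (fv v (a 1))) := rfl

/-- the relative logarithmic height is the height of Mathlib -/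
theorem hr_eq {a : Fin 2 → K} (ha : a ≠ 0) : hr (a 0, a 1) = Height.logHeight a := by
  have hp := pne ha
  have hpos : ∀ w : InfinitePlace K, 0 < max (w (a 0)) (w (a 1)) := fun w => max_pos w.1 hp
  have hpos2 : ∀ v : HeightOneSpectrum (𝓞 K), 0 < max (fv v (a 0)) (fv v (a 1)) :=
    fun v => m2_pos v ha
  have e1 : Height.logHeight a = Real.log ((∏ w : InfinitePlace K, max (w (a 0)) (w (a 1)) ^ w.mult) *
      ∏ v ∈ (max_support_finite hp).toFinset, max (fv v (a 0)) (fv v (a 1))) := by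
    rw [Height.logHeight_eq_log_mulHeight, NumberField.mulHeight_eq ha, fin_part hp]
    congr 2
    refine Finset.prod_congr rfl fun w _ => ?_
    rw [iSup_two]
  have e2 : Real.log (∏ w : InfinitePlace K, max (w (a 0)) (w (a 1)) ^ w.mult) =
      ∑ w : InfinitePlace K, (w.mult : ℝ) * Real.log (max (w (a 0)) (w (a 1))) := by
    rw [Real.log_prod]
    · refine Finset.sum_congr rfl fun w _ => ?_
      rw [Real.log_pow]
    · intro w _
      exact (pow_pos (hpos w) _).ne'
  have e3 : Real.log (∏ v ∈ (max_support_finite hp).toFinset, max (fv v (a 0)) (fv v (a 1))) =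
      ∑ v ∈ (max_support_finite hp).toFinset, Real.log (max (fv v (a 0)) (fv v (a 1))) := by
    rw [Real.log_prod]
    intro v _
    exact (hpos2 v).ne'
  have e4 : (∏ w : InfinitePlace K, max (w (a 0)) (w (a 1)) ^ w.mult) ≠ 0 :=
    (Finset.prod_pos fun w _ => pow_pos (hpos w) _).ne'
  have e5 : (∏ v ∈ (max_support_finite hp).toFinset, max (fv v (a 0)) (fv v (a 1))) ≠ 0 :=
    (Finset.prod_pos fun v _ => hpos2 v).ne'
  rw [e1, Real.log_mul e4 e5, e2, e3, hr_def, fin_sum hp]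

/-- the pair of coordinates -/
def pr (a : Fin 2 → K) : K × K := (a 0, a 1)

/-- the point of `z` -/
def vz (z : K) : Fin 2 → K := ![z, 1]

theorem vz_ne (z : K) : vz z ≠ 0 := by
  intro h
  have := congrFun h 1
  exact one_ne_zero this

theorem ne_of_form {a x : Fin 2 → K} (h : form a x ≠ 0) : a ≠ 0 ∧ x ≠ 0 := by
  constructor
  · rintro rfl
    apply h
    show (0 : K) * x 1 - 0 * x 0 = 0
    ring
  · rintro rfl
    apply h
    show a 0 * (0 : K) - a 1 * 0 = 0
    ring

theorem pr_ne {a : Fin 2 → K} (ha : a ≠ 0) : pr a ≠ 0 := pne ha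

theorem wedge_form (a x : Fin 2 → K) : (pr x).1 * (pr a).2 - (pr x).2 * (pr a).1 = -form a x := by
  show x 0 * a 1 - x 1 * a 0 = -(a 0 * x 1 - a 1 * x 0)
  ring

theorem lh_lam (v : Pr K) (a x : Fin 2 → K) : localHeight v a x = lamA (fv v) (pr x) (pr a) := by
  rw [localHeight_eq]
  unfold lamA
  rw [wedge_form, (fv v).map_neg, mul_comm (m2 v a)]
  rfl

theorem form_smul (a x : Fin 2 → K) (c : K) : form a (c • x) = c * form a x := by
  show a 0 * (c * x 1) - a 1 * (c * x 0) = c * (a 0 * x 1 - a 1 * x 0)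
  ring

theorem lh_smul (v : Pr K) {c : K} (hc : c ≠ 0) (a x : Fin 2 → K) (h : form a x ≠ 0) :
    localHeight v a (c • x) = localHeight v a x := by
  have e1 : m2 v (c • x) = fv v c * m2 v x := by
    unfold m2
    rw [Pi.smul_apply, Pi.smul_apply, smul_eq_mul, smul_eq_mul, map_mul, map_mul,
      mul_max_of_nonneg _ _ ((fv v).nonneg c)]
  rw [localHeight_eq, localHeight_eq, e1, form_smul, map_mul]
  congr 1
  have h1 := ((fv v).pos hc).ne'
  have h2 := ((fv v).pos h).ne'
  field_simp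

theorem counting_smul (S : Set (Pr K)) (a : Fin q → Fin 2 → K) {c : K} (hc : c ≠ 0)
    {x : Fin 2 → K} (hx : ∀ i, form (a i) x ≠ 0) :
    counting S a (c • x) = counting S a x := by
  have h : ∀ (v : Pr K) (i : Fin q), localHeight v (a i) (c • x) = localHeight v (a i) x :=
    fun v i => lh_smul v hc (a i) x (hx i)
  unfold counting
  simp only [h]

/-- the primes at which the local heights do not vanish -/
def U (a : Fin q → Fin 2 → K) (x : Fin 2 → K) : Set (Pr K) := {v | 0 < ∑ i, localHeight v (a i) x}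

theorem U_finite {a : Fin q → Fin 2 → K} {x : Fin 2 → K} (hx : ∀ i, form (a i) x ≠ 0) :
    (U a x).Finite := by
  have h1 : (⋃ i, {v : Pr K | lamA (fv v) (pr x) (pr (a i)) ≠ 0}).Finite := by
    refine Set.finite_iUnion fun i => ?_
    refine lamF_support_finite (pr_ne (ne_of_form (hx i)).2) (pr_ne (ne_of_form (hx i)).1) ?_
    rw [wedge_form]
    exact neg_ne_zero.2 (hx i)
  refine h1.subset ?_
  intro v hv
  by_contra hcon
  have h2 : ∀ i, localHeight v (a i) x = 0 := by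
    intro i
    rw [lh_lam]
    by_contra h3
    exact hcon (Set.mem_iUnion.2 ⟨i, h3⟩)
  have h3 : ∑ i, localHeight v (a i) x = 0 := Finset.sum_eq_zero fun i _ => h2 i
  exact absurd hv (not_lt.2 h3.le)

/-- the effect of enlarging the set of primes -/
theorem counting_bounds {S T : Set (Pr K)} (hST : S ⊆ T) (hT : T.Finite)
    {a : Fin q → Fin 2 → K} {x : Fin 2 → K} (hx : ∀ i, form (a i) x ≠ 0) :
    counting T a x ≤ counting S a x ∧
      counting S a x ≤ counting T a x + ∑ v ∈ hT.toFinset, Real.log (Nv v) := by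
  classical
  have hU := U_finite hx
  have e : ∀ R : Set (Pr K), {v : Pr K | v ∉ R ∧ 0 < ∑ i, localHeight v (a i) x} = U a x \ R := by
    intro R
    ext v
    rw [Set.mem_ofPred_eq, Set.mem_sdiff, and_comm]
    rfl
  have h1 : counting S a x = ∑ᶠ v ∈ (U a x \ S) ∩ T,
      Real.log (Ideal.absNorm v.asIdeal : ℝ) + counting T a x := by
    unfold counting
    rw [e S, e T]
    have h2 : (U a x \ S) \ T = U a x \ T := by
      ext v
      simp only [Set.mem_sdiff]
      constructor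
      · rintro ⟨⟨h1, -⟩, h3⟩
        exact ⟨h1, h3⟩
      · rintro ⟨h1, h3⟩
        exact ⟨⟨h1, fun h4 => h3 (hST h4)⟩, h3⟩
    rw [← h2]
    exact (finsum_mem_inter_add_sdiff T (hU.subset Set.sdiff_subset)).symm
  have h2 : 0 ≤ ∑ᶠ v ∈ (U a x \ S) ∩ T, Real.log (Ideal.absNorm v.asIdeal : ℝ) :=
    finsum_nonneg fun v => finsum_nonneg fun _ => (log_Nv_pos' v).le
  have h3 : ∑ᶠ v ∈ (U a x \ S) ∩ T, Real.log (Ideal.absNorm v.asIdeal : ℝ) ≤
      ∑ v ∈ hT.toFinset, Real.log (Nv v) := by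
    have hf : ((U a x \ S) ∩ T).Finite := hT.subset Set.inter_subset_right
    rw [finsum_mem_eq_finite_toFinset_sum _ hf]
    refine Finset.sum_le_sum_of_subset_of_nonneg ?_ fun v _ _ => (log_Nv_pos' v).le
    intro v hv
    rw [Set.Finite.mem_toFinset] at hv ⊢
    exact hv.2
  constructor <;> linarith

/-- the primes of bad reduction are finitely many -/
theorem bad_finite (a : Fin q → Fin 2 → K) (ha0 : ∀ i, a i ≠ 0)
    (ha : ∀ i j, i ≠ j → form (a i) (a j) ≠ 0) : {v : Pr K | ¬ GoodPr a v}.Finite := by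
  have h1 : (⋃ i, {v : Pr K | ¬ Good v (a i)}).Finite :=
    Set.finite_iUnion fun i => good_finite (a i)
  have h2 : (⋃ i, ⋃ j, ⋃ _ : i ≠ j, {v : Pr K | fv v (form (a i) (a j)) ≠ 1}).Finite :=
    Set.finite_iUnion fun i => Set.finite_iUnion fun j => Set.finite_iUnion fun hij =>
      fv_support_finite (ha i j hij)
  refine (h1.union h2).subset ?_
  intro v hv
  by_contra hcon
  rw [Set.mem_union, not_or] at hcon
  apply hv
  constructor
  · intro i
    refine m2_of_good (ha0 i) ?_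
    by_contra h3
    exact hcon.1 (Set.mem_iUnion.2 ⟨i, h3⟩)
  · intro i j hij
    by_contra h3
    exact hcon.2 (Set.mem_iUnion.2 ⟨i, Set.mem_iUnion.2 ⟨j, Set.mem_iUnion.2 ⟨hij, h3⟩⟩⟩)

/-- the sum of the truncated local heights at a good prime -/
theorem sum_min {a : Fin q → Fin 2 → K} {x : Fin 2 → K} (hx : ∀ i, form (a i) x ≠ 0) {v : Pr K}
    (hv : GoodPr a v) :
    ∑ l : Fin q, min (localHeight v (a l) x) (Real.log (Nv v)) =
      if 0 < ∑ i, localHeight v (a i) x then Real.log (Nv v) else 0 := by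
  classical
  have hN : 0 < Real.log (Nv v) := log_Nv_pos' v
  split_ifs with hpos
  · obtain ⟨i, hi⟩ : ∃ i, 0 < localHeight v (a i) x := by
      by_contra hcon
      push Not at hcon
      exact absurd hpos (not_lt.2 (Finset.sum_nonpos fun i _ => hcon i))
    rw [Finset.sum_eq_single i]
    · refine min_eq_right ?_
      have h1 : (pr x).1 * (pr (a i)).2 - (pr x).2 * (pr (a i)).1 ≠ 0 := by
        rw [wedge_form]
        exact neg_ne_zero.2 (hx i)
      obtain ⟨m, hm⟩ := lamF_discrete v (pr_ne (ne_of_form (hx i)).2)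
        (pr_ne (ne_of_form (hx i)).1) h1
      rw [← lh_lam] at hm
      rw [hm] at hi ⊢
      have h2 : (1 : ℝ) ≤ m := by
        rcases Nat.eq_zero_or_pos m with h3 | h3
        · rw [h3, Nat.cast_zero, zero_mul] at hi
          exact absurd hi (lt_irrefl _)
        · exact_mod_cast h3
      nlinarith
    · intro j _ hji
      have h1 : ¬ 0 < localHeight v (a j) x := by
        intro hj
        rw [localHeight_pos_iff v (hx i), hv.1 i, one_mul] at hi
        rw [localHeight_pos_iff v (hx j), hv.1 j, one_mul] at hj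
        exact two_forms v (hv.1 i) (hv.1 j) (hv.2 i j (Ne.symm hji)) hi hj
      have h2 : localHeight v (a j) x = 0 :=
        le_antisymm (not_lt.1 h1) (localHeight_nonneg v (hx j))
      rw [h2, min_eq_left hN.le]
    · intro h
      exact absurd (Finset.mem_univ i) h
  · have h1 : ∀ i ∈ Finset.univ, localHeight v (a i) x = 0 := by
      have h2 : ∑ i, localHeight v (a i) x = 0 :=
        le_antisymm (not_lt.1 hpos) (Finset.sum_nonneg fun i _ => localHeight_nonneg v (hx i))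
      exact (Finset.sum_eq_zero_iff_of_nonneg fun i _ => localHeight_nonneg v (hx i)).1 h2
    refine Finset.sum_eq_zero fun i hi => ?_
    rw [h1 i hi, min_eq_left hN.le]

/-- the two counting functions -/
theorem NTc_eq {T : Set (Pr K)} {a : Fin q → Fin 2 → K} {z : K}
    (hx : ∀ i, form (a i) (vz z) ≠ 0) (hT : ∀ v, v ∉ T → GoodPr a v) :
    NTc T (fun l => pr (a l)) z = counting T a (vz z) := by
  classical
  unfold NTc counting
  refine finsum_congr fun v => ?_
  rw [finsum_eq_if, finsum_eq_if]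
  by_cases hv : v ∈ T
  · rw [if_neg (not_not.2 hv), if_neg]
    rintro ⟨h1, -⟩
    exact h1 hv
  · rw [if_pos hv]
    have h1 : ∑ l : Fin q, min (lamA (fv v) (aff z) (pr (a l))) (Real.log (Nv v)) =
        ∑ l : Fin q, min (localHeight v (a l) (vz z)) (Real.log (Nv v)) := by
      refine Finset.sum_congr rfl fun l _ => ?_
      rw [lh_lam]
      rfl
    rw [h1, sum_min hx (hT v hv)]
    refine if_congr ?_ rfl rfl
    rw [Set.mem_ofPred_eq]
    exact ⟨fun h => ⟨hv, h⟩, fun h => h.2⟩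

/-! ### points -/

/-- the points of the line -/
abbrev PP (K : Type) [Field K] := Projectivization K (Fin 2 → K)

/-- the point of `z` -/
def pt (z : K) : PP K := Projectivization.mk K (vz z) (vz_ne z)

theorem pt_inj : Function.Injective (pt (K := K)) := by
  intro z z' h
  unfold pt at h
  rw [Projectivization.mk_eq_mk_iff'] at h
  obtain ⟨a, ha⟩ := h
  have h1 := congrFun ha 1
  have h0 := congrFun ha 0
  have e1 : a * 1 = 1 := h1
  have e0 : a * z' = z := h0
  rw [mul_one] at e1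
  rw [e1, one_mul] at e0
  exact e0.symm

/-- the point at infinity -/
def inf : PP K := Projectivization.mk K ![1, 0] (by
  intro h
  have := congrFun h 0
  exact one_ne_zero this)

theorem cases_pt (P : PP K) : P = inf ∨ ∃ z, P = pt z := by
  induction P using Projectivization.ind with
  | h x hx =>
    by_cases h : x 1 = 0
    · left
      unfold inf
      rw [Projectivization.mk_eq_mk_iff']
      refine ⟨x 0, ?_⟩
      funext i
      fin_cases i
      · show x 0 * 1 = x 0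
        rw [mul_one]
      · show x 0 * 0 = x 1
        rw [mul_zero, h]
    · right
      refine ⟨x 0 / x 1, ?_⟩
      unfold pt
      rw [Projectivization.mk_eq_mk_iff']
      refine ⟨x 1, ?_⟩
      funext i
      fin_cases i
      · show x 1 * (x 0 / x 1) = x 0
        field_simp
      · show x 1 * 1 = x 1
        rw [mul_one]

/-- the point is off the divisor -/
def Off (a : Fin q → Fin 2 → K) (P : PP K) : Prop := ∀ i, form (a i) P.rep ≠ 0

/-- the height of a point -/
noncomputable def Hp (P : PP K) : ℝ := Height.logHeight P.rep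

/-- the counting function of a point -/
noncomputable def Np (S : Set (Pr K)) (a : Fin q → Fin 2 → K) (P : PP K) : ℝ :=
  counting S a P.rep

theorem rep_mk (x : Fin 2 → K) (hx : x ≠ 0) : ∃ c : K, c ≠ 0 ∧
    (Projectivization.mk K x hx).rep = c • x := by
  obtain ⟨c, hc⟩ := Projectivization.exists_smul_eq_mk_rep K x hx
  exact ⟨c, c.ne_zero, hc.symm⟩

theorem off_mk {a : Fin q → Fin 2 → K} {x : Fin 2 → K} (hx : x ≠ 0) :
    Off a (Projectivization.mk K x hx) ↔ ∀ i, form (a i) x ≠ 0 := by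
  obtain ⟨c, hc, e⟩ := rep_mk x hx
  unfold Off
  rw [e]
  refine forall_congr' fun i => ?_
  rw [form_smul]
  exact ⟨fun h h' => h (by rw [h', mul_zero]), fun h => mul_ne_zero hc h⟩

theorem Hp_mk {x : Fin 2 → K} (hx : x ≠ 0) :
    Hp (Projectivization.mk K x hx) = Height.logHeight x := by
  obtain ⟨c, hc, e⟩ := rep_mk x hx
  unfold Hp
  rw [e, Height.logHeight_smul_eq_logHeight _ hc]

theorem Np_mk (S : Set (Pr K)) {a : Fin q → Fin 2 → K} {x : Fin 2 → K} (hx : x ≠ 0)
    (hf : ∀ i, form (a i) x ≠ 0) :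
    Np S a (Projectivization.mk K x hx) = counting S a x := by
  obtain ⟨c, hc, e⟩ := rep_mk x hx
  unfold Np
  rw [e, counting_smul S a hc hf]

/-- the points with a property of height and counting function -/
theorem set_eq (S : Set (Pr K)) (a : Fin q → Fin 2 → K) (Q : ℝ → ℝ → Prop) :
    {P : PP K | ∃ (x : Fin 2 → K) (hx : x ≠ 0), P = Projectivization.mk K x hx ∧
      (∀ i, form (a i) x ≠ 0) ∧ Q (Height.logHeight x) (counting S a x)} =
    {P : PP K | Off a P ∧ Q (Hp P) (Np S a P)} := by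
  ext P
  constructor
  · rintro ⟨x, hx, rfl, hf, hQ⟩
    refine ⟨(off_mk hx).2 hf, ?_⟩
    rw [Hp_mk, Np_mk S hx hf]
    exact hQ
  · rintro ⟨hf, hQ⟩
    exact ⟨P.rep, P.rep_nonzero, P.mk_rep.symm, hf, hQ⟩

/-! ### the relation to the points of the field -/

theorem d_pos : (0 : ℝ) < (Module.finrank ℚ K : ℝ) := by exact_mod_cast Module.finrank_pos

theorem height_eq (z : K) : height z = Height.logHeight (vz z) / (Module.finrank ℚ K : ℝ) := by
  have h := hr_eq (K := K) (vz_ne z)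
  rw [← h]
  rfl

theorem counting_eq (T : Set (Pr K)) (α : Fin q → K × K) (z : K) :
    Pool.Agent.Results.MP_4d5ce1_nt.ExceptionalSetExponents.counting T α z =
      NTc T α z / (Module.finrank ℚ K : ℝ) := by
  classical
  have hd := d_pos (K := K)
  rw [eq_div_iff hd.ne', mul_comm]
  unfold Pool.Agent.Results.MP_4d5ce1_nt.ExceptionalSetExponents.counting NTc
  rw [mul_finsum]
  refine finsum_congr fun v => ?_
  rw [finsum_eq_if, finsum_eq_if]
  split_ifs with hv
  · rw [mul_zero]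
  rw [Finset.mul_sum]
  refine Finset.sum_congr rfl fun l _ => ?_
  rw [mul_min_of_nonneg _ _ hd.le, mul_div_cancel₀ _ hd.ne', mul_div_cancel₀ _ hd.ne']
  rfl

/-- what is needed of the data -/
structure Data (S : Set (Pr K)) (a : Fin q → Fin 2 → K) (T : Set (Pr K)) (c₀ : ℝ) : Prop where
  fin : T.Finite
  ne : ∀ i, pr (a i) ≠ 0
  dist : ∀ i j, i ≠ j → (pr (a i)).1 * (pr (a j)).2 - (pr (a i)).2 * (pr (a j)).1 ≠ 0
  nonneg : 0 ≤ c₀
  off : ∀ z : K, (∀ l, z * (pr (a l)).2 - 1 * (pr (a l)).1 ≠ 0) ↔ Off a (pt z)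
  low : ∀ z : K, Off a (pt z) →
    NTc T (fun l => pr (a l)) z ≤ Np S a (pt z)
  up : ∀ z : K, Off a (pt z) →
    Np S a (pt z) ≤ NTc T (fun l => pr (a l)) z + c₀

theorem off_pt (a : Fin q → Fin 2 → K) (z : K) :
    (∀ l, z * (pr (a l)).2 - 1 * (pr (a l)).1 ≠ 0) ↔ Off a (pt z) := by
  unfold pt
  rw [off_mk]
  refine forall_congr' fun l => ?_
  have e : z * (pr (a l)).2 - 1 * (pr (a l)).1 = -form (a l) (vz z) := by
    show z * a l 1 - 1 * a l 0 = -(a l 0 * 1 - a l 1 * z)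
    ring
  rw [e, neg_ne_zero]

theorem exists_data {S : Set (Pr K)} (hS : S.Finite) (hq : 3 ≤ q) {a : Fin q → Fin 2 → K}
    (ha : ∀ i j, i ≠ j → form (a i) (a j) ≠ 0) : ∃ T c₀, Data S a T c₀ := by
  classical
  have ha0 : ∀ i, a i ≠ 0 := by
    intro i
    obtain ⟨j, hj⟩ : ∃ j : Fin q, i ≠ j := by
      by_cases h : i = ⟨0, by omega⟩
      · refine ⟨⟨1, by omega⟩, ?_⟩
        rw [h]
        intro h'
        have := congrArg Fin.val h'
        simp at this
      · exact ⟨_, h⟩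
    exact (ne_of_form (ha i j hj)).1
  have hB := bad_finite a ha0 ha
  have hT : (S ∪ {v : Pr K | ¬ GoodPr a v}).Finite := hS.union hB
  have hgood : ∀ v, v ∉ S ∪ {v : Pr K | ¬ GoodPr a v} → GoodPr a v := by
    intro v hv
    by_contra h
    exact hv (Or.inr h)
  have hf : ∀ z : K, Off a (pt z) → ∀ i, form (a i) (vz z) ≠ 0 := fun z hz => (off_mk _).1 hz
  refine ⟨_, ∑ v ∈ hT.toFinset, Real.log (Nv v), hT, fun i => pr_ne (ha0 i), fun i j hij => ?_,
    Finset.sum_nonneg fun v _ => (log_Nv_pos' v).le, off_pt a, fun z hz => ?_, fun z hz => ?_⟩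
  · rw [wedge_form]
    exact neg_ne_zero.2 (ha j i (Ne.symm hij))
  · rw [NTc_eq (hf z hz) hgood]
    unfold pt
    rw [Np_mk S _ (hf z hz)]
    exact (counting_bounds Set.subset_union_left hT (hf z hz)).1
  · rw [NTc_eq (hf z hz) hgood]
    unfold pt
    rw [Np_mk S _ (hf z hz)]
    exact (counting_bounds Set.subset_union_left hT (hf z hz)).2

section count

open Pool.Agent.Q38.AE.Many Pool.Agent.Results.MP_4d5ce1_nt.ExceptionalSetExponents

variable {S T : Set (Pr K)} {a : Fin q → Fin 2 → K} {c₀ : ℝ}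

/-- the points of small counting function are values of `pt` with one exception -/
theorem A_sub (D : Data S a T c₀) {s B : ℝ} (hB : 0 < B) :
    A (Off a) Hp (Np S a) s B ⊆ insert inf (pt '' exceptional T (fun l => pr (a l))
      ((q : ℝ) - 1 / s) (1 / (Module.finrank ℚ K : ℝ))
      (B ^ (1 / (Module.finrank ℚ K : ℝ)))) := by
  have hd := d_pos (K := K)
  rintro P ⟨h1, h2, h3⟩
  rcases cases_pt P with rfl | ⟨z, rfl⟩
  · exact Or.inl rfl
  refine Or.inr ⟨z, ⟨(D.off z).2 h1, ?_, ?_⟩, rfl⟩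
  · rw [height_eq]
    have e : Hp (pt z) = Height.logHeight (vz z) := Hp_mk _
    rw [e, ← Real.le_log_iff_exp_le hB] at h2
    rw [← Real.le_log_iff_exp_le (by positivity), Real.log_rpow hB, div_mul_eq_mul_div, one_mul]
    exact div_le_div_of_nonneg_right h2 hd.le
  · have e : (q : ℝ) - ((q : ℝ) - 1 / s) = 1 / s := by ring
    have e' : Hp (pt z) = Height.logHeight (vz z) := Hp_mk _
    rw [e, counting_eq, height_eq, ← e']
    have h4 : NTc T (fun l => pr (a l)) z < 1 / s * Hp (pt z) + 1 := (D.low z h1).trans_lt h3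
    have h5 := div_lt_div_of_pos_right h4 hd
    refine h5.trans_le (le_of_eq ?_)
    ring

theorem ncard_A (D : Data S a T c₀) {s B : ℝ} (hB : 0 < B)
    (hf : (exceptional T (fun l => pr (a l)) ((q : ℝ) - 1 / s) (1 / (Module.finrank ℚ K : ℝ))
      (B ^ (1 / (Module.finrank ℚ K : ℝ)))).Finite) :
    (A (Off a) Hp (Np S a) s B).Finite ∧ ((A (Off a) Hp (Np S a) s B).ncard : ℝ) ≤
      ((exceptional T (fun l => pr (a l)) ((q : ℝ) - 1 / s) (1 / (Module.finrank ℚ K : ℝ))
      (B ^ (1 / (Module.finrank ℚ K : ℝ)))).ncard : ℝ) + 1 := by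
  have hf2 := (hf.image (pt (K := K))).insert inf
  refine ⟨hf2.subset (A_sub D hB), ?_⟩
  have h1 := Set.ncard_le_ncard (A_sub D hB) hf2
  have h2 := Set.ncard_insert_le (inf : PP K) (pt '' exceptional T (fun l => pr (a l))
      ((q : ℝ) - 1 / s) (1 / (Module.finrank ℚ K : ℝ))
      (B ^ (1 / (Module.finrank ℚ K : ℝ))))
  have h3 := Set.ncard_image_le (f := pt (K := K)) hf
  exact_mod_cast (h1.trans h2).trans (Nat.add_le_add_right h3 1)

/-- from the field to the line -/
theorem transfer (D : Data S a T c₀) {s g : ℝ} (hg : 0 ≤ g)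
    (h : ∀ δ : ℝ, 0 < δ → ∃ C : ℝ, ∀ B : ℝ, 1 ≤ B →
      (exceptional T (fun l => pr (a l)) ((q : ℝ) - 1 / s) (1 / (Module.finrank ℚ K : ℝ)) B).Finite ∧
      ((exceptional T (fun l => pr (a l)) ((q : ℝ) - 1 / s)
        (1 / (Module.finrank ℚ K : ℝ)) B).ncard : ℝ) ≤
          C * B ^ ((Module.finrank ℚ K : ℝ) * g + δ)) (δ : ℝ) (hδ : 0 < δ) :
    ∃ C : ℝ, ∀ B : ℝ, 1 ≤ B → (A (Off a) Hp (Np S a) s B).Finite ∧
      ((A (Off a) Hp (Np S a) s B).ncard : ℝ) ≤ C * B ^ (g + δ) := by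
  have hd := d_pos (K := K)
  obtain ⟨d, hdd⟩ : ∃ d : ℝ, d = (Module.finrank ℚ K : ℝ) := ⟨_, rfl⟩
  obtain ⟨C, hC⟩ := h (d * δ) (by rw [hdd]; positivity)
  refine ⟨C + 1, fun B hB => ?_⟩
  have hB0 : 0 < B := by linarith
  obtain ⟨k1, k2⟩ := hC (B ^ (1 / (Module.finrank ℚ K : ℝ)))
    (Real.one_le_rpow hB (by positivity))
  obtain ⟨m1, m2⟩ := ncard_A D hB0 k1
  refine ⟨m1, m2.trans ?_⟩
  rw [← Real.rpow_mul hB0.le] at k2
  have e : 1 / (Module.finrank ℚ K : ℝ) * ((Module.finrank ℚ K : ℝ) * g + d * δ) = g + δ := by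
    rw [hdd]
    field_simp
  rw [e] at k2
  have h1 : (1 : ℝ) ≤ B ^ (g + δ) := Real.one_le_rpow hB (by linarith)
  linarith

/-- the exact range -/
theorem low_exc (D : Data S a T c₀) (hq : 3 ≤ q) {s : ℝ} (h0 : 1 / (q : ℝ) ≤ s)
    (hs : s ≤ 7 / (7 * (q : ℝ) - 6) ∨ (q = 3 ∧ s ≤ 1 / 2)) (δ : ℝ) (hδ : 0 < δ) :
    ∃ C : ℝ, ∀ B : ℝ, 1 ≤ B → (A (Off a) Hp (Np S a) s B).Finite ∧
      ((A (Off a) Hp (Np S a) s B).ncard : ℝ) ≤ C * B ^ (2 - ((q : ℝ) - 1 / s) + δ) := by
  have hq' : (3 : ℝ) ≤ q := by exact_mod_cast hq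
  have hq0 : (0 : ℝ) < q := by linarith
  have h76 : 0 < 7 * (q : ℝ) - 6 := by linarith
  have hs0 : 0 < s := lt_of_lt_of_le (by positivity) h0
  have hκ0 : 0 ≤ (q : ℝ) - 1 / s := by
    rw [sub_nonneg, div_le_iff₀ hs0]
    rw [div_le_iff₀ hq0] at h0
    linarith
  have hκ1 : (q : ℝ) - 1 / s ≤ 6 / 7 ∨ (q = 3 ∧ (q : ℝ) - 1 / s ≤ 1) := by
    rcases hs with hs | ⟨hs1, hs2⟩
    · left
      have h1 : (q : ℝ) - 6 / 7 ≤ 1 / s := by
        rw [le_div_iff₀ hs0]
        rw [le_div_iff₀ h76] at hs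
        linarith
      linarith
    · right
      refine ⟨hs1, ?_⟩
      have h1 : 2 ≤ 1 / s := by
        rw [le_div_iff₀ hs0]
        linarith
      rw [hs1]
      push_cast
      linarith
  have hκ2 : (q : ℝ) - 1 / s < 2 := by
    rcases hκ1 with h | h <;> linarith
  obtain ⟨hfin, -, hex⟩ := (result K T D.fin q (by omega) (fun l => pr (a l)) D.ne D.dist
    ((q : ℝ) - 1 / s) (1 / (Module.finrank ℚ K : ℝ)) hκ0).1 hκ2
  have hκ3 : (q : ℝ) - 1 / s ≤ 6 / 7 ∨ (q = 3 ∧ (q : ℝ) - 1 / s ≤ 1) ∨ q = 2 := by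
    rcases hκ1 with h | h
    · exact Or.inl h
    · exact Or.inr (Or.inl h)
  obtain ⟨hC, -⟩ := hex hκ3
  refine transfer D (by linarith) (fun δ hδ => ?_) δ hδ
  obtain ⟨C, hC⟩ := hC δ hδ
  exact ⟨C, fun B hB => ⟨hfin B hB, hC B hB⟩⟩

theorem high_exc (D : Data S a T c₀) (hq : 3 ≤ q) {s : ℝ} (h1 : 7 / (7 * (q : ℝ) - 6) ≤ s)
    (h2 : s ≤ 3 / q) (δ : ℝ) (hδ : 0 < δ) :
    ∃ C : ℝ, ∀ B : ℝ, 1 ≤ B → (A (Off a) Hp (Np S a) s B).Finite ∧
      ((A (Off a) Hp (Np S a) s B).ncard : ℝ) ≤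
        C * B ^ (expoThree (3 * ((q : ℝ) - 1 / s) / q) + δ) := by
  have hq' : (3 : ℝ) ≤ q := by exact_mod_cast hq
  have hq0 : (0 : ℝ) < q := by linarith
  have h76 : 0 < 7 * (q : ℝ) - 6 := by linarith
  have hs0 : 0 < s := lt_of_lt_of_le (by positivity) h1
  obtain ⟨a1, b2, b3, -⟩ := slice_top hq h1 h2
  have a2 : (q : ℝ) - 1 / s ≤ q := by
    have : 0 < 1 / s := by positivity
    linarith
  refine transfer D (e_mid0 b2 b3) (fun δ hδ => ?_) δ hδ
  exact (result K T D.fin q (by omega) (fun l => pr (a l)) D.ne D.dist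
    ((q : ℝ) - 1 / s) (1 / (Module.finrank ℚ K : ℝ)) a1).2 hq a2 δ hδ

/-- **The upper bound.** -/
theorem upperL (D : Data S a T c₀) (hq : 3 ≤ q) {M L ε : ℝ} (hM : 1 / (q : ℝ) < M) (hML : M < L)
    (hL : L ≤ 7 / (7 * (q : ℝ) - 6) ∨ (q = 3 ∧ L ≤ 1 / 2) ∨
      (L ≤ 3 / q ∧ ((q : ℝ) - 2) * M ≤ 1 - top q)) (hε : 0 < ε) :
    ∃ C : ℝ, 0 < C ∧ ∀ X : ℝ, 1 ≤ X → (E (Off a) Hp (Np S a) M L X).Finite ∧
      ((E (Off a) Hp (Np S a) M L X).ncard : ℝ) ≤ C * X ^ (1 - ((q : ℝ) - 2) * M + ε) := by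
  have hq' : (3 : ℝ) ≤ q := by exact_mod_cast hq
  have hq0 : (0 : ℝ) < q := by linarith
  have h76 : 0 < 7 * (q : ℝ) - 6 := by linarith
  have hM0 : 0 < M := lt_trans (by positivity) hM
  refine cover (G := 2) hM0 hML.le (by positivity) (fun s h1 h2 => ?_) hε
  have hs0 : 0 < s := by linarith
  have hsq : 1 / (q : ℝ) ≤ s := by linarith
  have hκ0 : 0 ≤ (q : ℝ) - 1 / s := by
    rw [sub_nonneg, div_le_iff₀ hs0]
    rw [div_le_iff₀ hq0] at hsq
    linarith
  by_cases hcase : s ≤ 7 / (7 * (q : ℝ) - 6) ∨ (q = 3 ∧ s ≤ 1 / 2)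
  · refine ⟨2 - ((q : ℝ) - 1 / s), ?_, by linarith, ?_, ?_⟩
    · rcases hcase with h | ⟨h, h'⟩
      · have : (q : ℝ) - 6 / 7 ≤ 1 / s := by
          rw [le_div_iff₀ hs0]
          rw [le_div_iff₀ h76] at h
          linarith
        linarith
      · have h3 : 2 ≤ 1 / s := by
          rw [le_div_iff₀ hs0]
          linarith
        rw [h]
        push_cast
        linarith
    · have e1 : s * (2 - ((q : ℝ) - 1 / s)) = 1 - ((q : ℝ) - 2) * s := by
        field_simp
        ring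
      rw [e1]
      have : ((q : ℝ) - 2) * M ≤ ((q : ℝ) - 2) * s := mul_le_mul_of_nonneg_left h1 (by linarith)
      linarith
    · exact low_exc D hq hsq hcase
  · push Not at hcase
    obtain ⟨c1, c2⟩ := hcase
    have hL3 : L ≤ 3 / q ∧ ((q : ℝ) - 2) * M ≤ 1 - top q := by
      rcases hL with h | h | h
      · exfalso
        linarith
      · exfalso
        have := c2 h.1
        linarith
      · exact h
    obtain ⟨b1, b2, b3, b4⟩ := slice_top hq c1.le (h2.trans hL3.1)
    refine ⟨expoThree (3 * ((q : ℝ) - 1 / s) / q), e_mid0 b2 b3, e_le_two b2 b3, by linarith, ?_⟩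
    exact high_exc D hq c1.le (h2.trans hL3.1)

/-- **The lower bound.** -/
theorem lowerL (D : Data S a T c₀) (hq : 3 ≤ q) {M L ε : ℝ} (hM : 1 / (q : ℝ) < M) (hML : M < L)
    (hL : L ≤ 7 / (7 * (q : ℝ) - 6) ∨ (q = 3 ∧ L ≤ 1 / 2) ∨
      (L ≤ 3 / q ∧ ((q : ℝ) - 2) * M ≤ 1 - top q)) (hε : 0 < ε) :
    ∃ X₀ : ℝ, ∀ X : ℝ, X₀ ≤ X →
      X ^ (1 - ((q : ℝ) - 2) * M - ε) ≤ ((F (Off a) Hp (Np S a) M L X).ncard : ℝ) := by
  have hq' : (3 : ℝ) ≤ q := by exact_mod_cast hq
  have hq0 : (0 : ℝ) < q := by linarith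
  have h76 : 0 < 7 * (q : ℝ) - 6 := by linarith
  have hM0 : 0 < M := lt_trans (by positivity) hM
  have hd := d_pos (K := K)
  -- the auxiliary exponent
  obtain ⟨L', hL1, hL2, hL3⟩ : ∃ L' : ℝ, M < L' ∧ L' ≤ L ∧
      (L' ≤ 7 / (7 * (q : ℝ) - 6) ∨ (q = 3 ∧ L' ≤ 1 / 2)) := by
    rcases hL with h | h | h
    · exact ⟨L, hML, le_rfl, Or.inl h⟩
    · exact ⟨L, hML, le_rfl, Or.inr h⟩
    · exact ⟨min L (7 / (7 * (q : ℝ) - 6)), lt_min hML (M_lt hq h.2), min_le_left _ _,
        Or.inl (min_le_right _ _)⟩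
  have hL'0 : 0 < L' := by linarith
  have hκ0 : 0 ≤ (q : ℝ) - 1 / M := by
    rw [sub_nonneg, div_le_iff₀ hM0]
    rw [div_lt_iff₀ hq0] at hM
    linarith
  have hinv : 1 / L' < 1 / M := one_div_lt_one_div_of_lt hM0 hL1
  have hκL : (q : ℝ) - 1 / L' < 2 := by
    rcases hL3 with h | ⟨h, h'⟩
    · have : (q : ℝ) - 6 / 7 ≤ 1 / L' := by
        rw [le_div_iff₀ hL'0]
        rw [le_div_iff₀ h76] at h
        linarith
      linarith
    · have h3 : 2 ≤ 1 / L' := by
        rw [le_div_iff₀ hL'0]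
        linarith
      rw [h]
      push_cast
      linarith
  have hκ2 : (q : ℝ) - 1 / M < 2 := by linarith
  obtain ⟨-, hlow, -⟩ := (result K T D.fin q (by omega) (fun l => pr (a l)) D.ne D.dist
    ((q : ℝ) - 1 / M) (-(c₀ / (Module.finrank ℚ K : ℝ))) hκ0).1 hκ2
  have hMslice : M ≤ 7 / (7 * (q : ℝ) - 6) ∨ (q = 3 ∧ M ≤ 1 / 2) := by
    rcases hL3 with h | ⟨h, h'⟩
    · left; linarith
    · right; exact ⟨h, by linarith⟩
  have hZ : ∃ C : ℝ, 0 < C ∧ ∀ᶠ B : ℝ in atTop,
      C * B ^ (2 - ((q : ℝ) - 1 / M)) ≤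
        (({P | Off a P ∧ Real.exp (Hp P) ≤ B ∧ Np S a P < 1 / M * Hp P} : Set (PP K)).ncard :
          ℝ) := by
    obtain ⟨C, hC, h⟩ := hlow
    refine ⟨C, hC, ?_⟩
    have tB : Tendsto (fun B : ℝ => B ^ (1 / (Module.finrank ℚ K : ℝ))) atTop atTop :=
      tendsto_rpow_atTop (by positivity)
    filter_upwards [tB.eventually h, eventually_ge_atTop 1] with B hB hB1
    have hB0 : 0 < B := by linarith
    rw [← Real.rpow_mul hB0.le] at hB
    have e : 1 / (Module.finrank ℚ K : ℝ) *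
        ((Module.finrank ℚ K : ℝ) * (2 - ((q : ℝ) - 1 / M))) = 2 - ((q : ℝ) - 1 / M) := by
      field_simp
    rw [e] at hB
    refine hB.trans ?_
    have hfin : ({P | Off a P ∧ Real.exp (Hp P) ≤ B ∧ Np S a P < 1 / M * Hp P} :
        Set (PP K)).Finite := by
      obtain ⟨C', hC'⟩ := low_exc D hq hM.le hMslice 1 one_pos
      refine (hC' B hB1).1.subset ?_
      rintro z ⟨k1, k2, k3⟩
      exact ⟨k1, k2, k3.trans (lt_add_one _)⟩
    have hmaps : ∀ z ∈ exceptional T (fun l => pr (a l)) ((q : ℝ) - 1 / M)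
        (-(c₀ / (Module.finrank ℚ K : ℝ))) (B ^ (1 / (Module.finrank ℚ K : ℝ))),
        pt z ∈ ({P | Off a P ∧ Real.exp (Hp P) ≤ B ∧ Np S a P < 1 / M * Hp P} : Set (PP K)) := by
      rintro z ⟨k1, k2, k3⟩
      have hz := (D.off z).1 k1
      have e' : Hp (pt z) = Height.logHeight (vz z) := Hp_mk _
      rw [height_eq, ← e'] at k2 k3
      rw [← Real.le_log_iff_exp_le (by positivity), Real.log_rpow hB0, div_mul_eq_mul_div,
        one_mul] at k2
      have e : (q : ℝ) - ((q : ℝ) - 1 / M) = 1 / M := by ring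
      rw [e, counting_eq] at k3
      refine ⟨hz, ?_, ?_⟩
      · rw [← Real.le_log_iff_exp_le hB0]
        exact (div_le_div_iff_of_pos_right hd).1 k2
      · have k4 := D.up z hz
        have k5 : NTc T (fun l => pr (a l)) z + c₀ < 1 / M * Hp (pt z) := by
          have k6 : (NTc T (fun l => pr (a l)) z + c₀) / (Module.finrank ℚ K : ℝ) <
              (1 / M * Hp (pt z)) / (Module.finrank ℚ K : ℝ) := by
            have e3 : (1 / M * Hp (pt z)) / (Module.finrank ℚ K : ℝ) =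
              1 / M * (Hp (pt z) / (Module.finrank ℚ K : ℝ)) := by ring
            rw [add_div, e3]
            linarith
          exact (div_lt_div_iff_of_pos_right hd).1 k6
        linarith
    exact_mod_cast Set.ncard_le_ncard_of_injOn pt hmaps pt_inj.injOn hfin
  have h1 := lower (L := L) (g := 2 - ((q : ℝ) - 1 / M)) (g' := 2 - ((q : ℝ) - 1 / L')) hM0 hL1 hL2
    (fun P _ => ?_) hZ ?_ (low_exc D hq (by linarith) hL3) ?_ hε
  · obtain ⟨X₀, hX₀⟩ := h1
    refine ⟨X₀, fun X hX => ?_⟩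
    have h2 := hX₀ X hX
    have e1 : M * (2 - ((q : ℝ) - 1 / M)) = 1 - ((q : ℝ) - 2) * M := by
      field_simp
      ring
    rw [e1] at h2
    exact h2
  · exact Height.logHeight_nonneg _
  · obtain ⟨C, -, hC⟩ := upperL D hq hM hML hL one_pos
    exact fun X hX => (hC X hX).1
  · linarith

end count

end Pool.Agent.Q38.AE.Line
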