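import Pool.Agent.Q38.AE.Upper
import Pool.Agent.H170R2.PC.Primes

/-! The lower bound: triples with `a` and `b` divisible by squares of primes. -/

set_option autoImplicit false

namespace Pool.Agent.Q38.AE

open Finset Filter Topology Pool.Agent.W221.ABC7

/-- the triples of radical at most `X` which violate the inequality with the exponent `M` and
satisfy it with the exponent `K` -/
def btw (M K X : ℝ) : Set (ℕ × ℕ) :=
  {p | (0 < p.1 ∧ p.1 ≤ p.2 ∧ Nat.Coprime p.1 p.2 ∧ (rad3 p : ℝ) ≤ X) ∧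
    (rad3 p : ℝ) ^ M ≤ ((p.1 + p.2 : ℕ) : ℝ) ∧
    ((p.1 + p.2 : ℕ) : ℝ) < (rad3 p : ℝ) ^ K}

theorem btw_sub {M K X : ℝ} (hK : 0 ≤ K) : btw M K X ⊆ exc M K X := by
  rintro p ⟨h1, h2, h3⟩
  refine ⟨h1, h2, h3.le.trans ?_⟩
  exact Real.rpow_le_rpow (Nat.cast_nonneg _) h1.2.2.2 hK

theorem btw_fin {M K X : ℝ} (hK : 0 ≤ K) : (btw M K X).Finite :=
  (exc_fin M K X).subset (btw_sub hK)

/-- the primes in `[x, 2 x)` -/
noncomputable def DP (x : ℝ) : Finset ℕ :=
  (range (⌈2 * x⌉₊ + 1)).filter (fun p => p.Prime ∧ x ≤ p ∧ (p : ℝ) < 2 * x)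

theorem mem_DP {x : ℝ} {p : ℕ} : p ∈ DP x ↔ p.Prime ∧ x ≤ p ∧ (p : ℝ) < 2 * x := by
  rw [DP, mem_filter, mem_range]
  refine ⟨fun h => h.2, fun h => ⟨?_, h⟩⟩
  have : p < ⌈2 * x⌉₊ := Nat.lt_ceil.2 h.2.2
  omega

theorem card_DP {η : ℝ} (hη : 0 < η) (hη1 : η ≤ 1) :
    ∀ᶠ x : ℝ in atTop, x ^ (1 - η) ≤ ((DP x).card : ℝ) := by
  filter_upwards [Pool.Agent.H170R2.PC.dyadic_primes hη hη1] with x hx
  exact hx _ fun p h1 h2 h3 => mem_DP.2 ⟨h1, h2, h3⟩

theorem rad_le {m k n l : ℕ} (hm : m.Prime) (hk : k.Prime) (hn : n.Prime) (hl : l.Prime) :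
    m * n * radical (m ^ 2 * k * (n ^ 2 * l) * (m ^ 2 * k + n ^ 2 * l)) ≤
      m ^ 2 * k * (n ^ 2 * l) * (m ^ 2 * k + n ^ 2 * l) := by
  have hm0 := hm.pos
  have hk0 := hk.pos
  have hn0 := hn.pos
  have hl0 := hl.pos
  obtain ⟨c, hc⟩ : ∃ c, c = m ^ 2 * k + n ^ 2 * l := ⟨_, rfl⟩
  have hc0 : 0 < c := by rw [hc]; positivity
  rw [← hc]
  have h1 : radical (m ^ 2 * k * (n ^ 2 * l) * c) ∣ m * k * (n * l) * c := by
    have h2 : (m ^ 2 * k * (n ^ 2 * l) * c).primeFactors = (m * k * (n * l) * c).primeFactors := by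
      rw [Nat.primeFactors_mul (by positivity) (by positivity),
        Nat.primeFactors_mul (by positivity) (by positivity),
        Nat.primeFactors_mul (by positivity) (by positivity),
        Nat.primeFactors_mul (a := n ^ 2) (by positivity) (by positivity),
        Nat.primeFactors_mul (a := m * k * (n * l)) (by positivity) (by positivity),
        Nat.primeFactors_mul (a := m * k) (by positivity) (by positivity),
        Nat.primeFactors_mul (a := m) (by positivity) (by positivity),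
        Nat.primeFactors_mul (a := n) (by positivity) (by positivity),
        Nat.primeFactors_pow _ (by norm_num), Nat.primeFactors_pow _ (by norm_num)]
    unfold radical
    rw [h2]
    exact Nat.prod_primeFactors_dvd _
  calc m * n * radical (m ^ 2 * k * (n ^ 2 * l) * c) ≤ m * n * (m * k * (n * l) * c) :=
        Nat.mul_le_mul_left _ (Nat.le_of_dvd (by positivity) h1)
    _ = _ := by ring

theorem sq_inj {m k m' k' : ℕ} (hm : m.Prime) (hm' : m'.Prime) (hk' : k'.Prime)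
    (hne : m ≠ k') (h : m ^ 2 * k = m' ^ 2 * k') : m = m' ∧ k = k' := by
  have h1 : m ∣ m' ^ 2 * k' := by
    rw [← h]
    exact Dvd.dvd.mul_right (dvd_pow_self m two_ne_zero) k
  rcases (hm.dvd_mul).1 h1 with h2 | h2
  · have h3 : m = m' := (Nat.prime_dvd_prime_iff_eq hm hm').1 (hm.dvd_of_dvd_pow h2)
    subst h3
    exact ⟨rfl, Nat.eq_of_mul_eq_mul_left (pow_pos hm.pos 2) h⟩
  · exact absurd ((Nat.prime_dvd_prime_iff_eq hm hk').1 h2) hne

/-- **Many triples** with `c ≤ X ^ M` and `rad (abc) ≤ c ^ (1 / M)`. -/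
theorem many {M ε : ℝ} (hM : 1 / 3 < M) (hM1 : M < 1 / 2) (hε : 0 < ε) :
    ∀ᶠ X : ℝ in atTop, ∃ G : Finset (ℕ × ℕ), X ^ (1 - M - ε) ≤ (G.card : ℝ) ∧
      ∀ p ∈ G, 0 < p.1 ∧ p.1 ≤ p.2 ∧ Nat.Coprime p.1 p.2 ∧ ((p.1 + p.2 : ℕ) : ℝ) ≤ X ^ M ∧
        (rad3 p : ℝ) ≤ ((p.1 + p.2 : ℕ) : ℝ) ^ (1 / M) := by
  classical
  have hM0 : 0 < M := by linarith
  obtain ⟨η, hη⟩ : ∃ η : ℝ, η = min 1 (ε / 2) := ⟨_, rfl⟩
  have hη0 : 0 < η := by rw [hη]; exact lt_min one_pos (by positivity)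
  have hη1 : η ≤ 1 := by rw [hη]; exact min_le_left _ _
  have hηε : η ≤ ε / 2 := by rw [hη]; exact min_le_right _ _
  have hprime := card_DP hη0 hη1
  have t1 : Tendsto (fun X : ℝ => X ^ ((3 * M - 1) / 2)) atTop atTop :=
    tendsto_rpow_atTop (by linarith)
  have t1' : Tendsto (fun X : ℝ => 2 * X ^ ((3 * M - 1) / 2)) atTop atTop :=
    t1.const_mul_atTop (by norm_num)
  have t2 : Tendsto (fun X : ℝ => 1 / 72 * X ^ (1 - 2 * M)) atTop atTop :=
    (tendsto_rpow_atTop (by linarith)).const_mul_atTop (by norm_num)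
  have t2' : Tendsto (fun X : ℝ => 2 * (1 / 72 * X ^ (1 - 2 * M))) atTop atTop :=
    t2.const_mul_atTop (by norm_num)
  have t5 : Tendsto (fun X : ℝ => X ^ (ε / 2)) atTop atTop :=
    tendsto_rpow_atTop (by linarith)
  -- the ranges are disjoint
  have hdis : ∀ᶠ X : ℝ in atTop,
      4 * (1 / 72 * X ^ (1 - 2 * M)) ≤ X ^ ((3 * M - 1) / 2) ∨
      4 * X ^ ((3 * M - 1) / 2) ≤ 1 / 72 * X ^ (1 - 2 * M) := by
    rcases le_or_gt (3 / 7) M with h | h
    · filter_upwards [eventually_ge_atTop 1] with X hX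
      left
      have h1 : X ^ (1 - 2 * M) ≤ X ^ ((3 * M - 1) / 2) :=
        Real.rpow_le_rpow_of_exponent_le hX (by linarith)
      have h2 : (0 : ℝ) ≤ X ^ (1 - 2 * M) := by positivity
      linarith
    · have t6 : Tendsto (fun X : ℝ => X ^ ((3 - 7 * M) / 2)) atTop atTop :=
        tendsto_rpow_atTop (by linarith)
      filter_upwards [t6.eventually (eventually_ge_atTop 288), eventually_ge_atTop 1]
        with X hX hX1
      right
      have hX0 : 0 < X := by linarith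
      have e : X ^ (1 - 2 * M) = X ^ ((3 - 7 * M) / 2) * X ^ ((3 * M - 1) / 2) := by
        rw [← Real.rpow_add hX0]
        congr 1
        ring
      rw [e]
      have h2 : (0 : ℝ) ≤ X ^ ((3 * M - 1) / 2) := by positivity
      nlinarith
  filter_upwards [t1.eventually hprime, t1'.eventually hprime, t2.eventually hprime,
    t2'.eventually hprime, hdis, t5.eventually (eventually_ge_atTop 5184),
    eventually_ge_atTop 1] with X h1 h2 h3 h4 hd h5 hX
  have hX0 : 0 < X := by linarith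
  obtain ⟨P, hP⟩ : ∃ P : ℝ, P = X ^ ((3 * M - 1) / 2) := ⟨_, rfl⟩
  obtain ⟨Y, hY⟩ : ∃ Y : ℝ, Y = 1 / 72 * X ^ (1 - 2 * M) := ⟨_, rfl⟩
  obtain ⟨Z, hZ⟩ : ∃ Z : ℝ, Z = X ^ M := ⟨_, rfl⟩
  rw [← hP] at h1 h2 hd
  rw [← hY] at h3 h4 hd
  have hP0 : 0 < P := by rw [hP]; positivity
  have hY0 : 0 < Y := by rw [hY]; positivity
  have hZ0 : 0 < Z := by rw [hZ]; positivity
  have hPP : P ^ 2 = X ^ (3 * M - 1) := by
    rw [hP, ← Real.rpow_natCast, ← Real.rpow_mul hX0.le]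
    congr 1
    push_cast
    ring
  have hPY : 72 * (P ^ 2 * Y) = Z := by
    rw [hPP, hY, hZ]
    calc 72 * (X ^ (3 * M - 1) * (1 / 72 * X ^ (1 - 2 * M))) =
          X ^ (3 * M - 1) * X ^ (1 - 2 * M) := by ring
      _ = _ := by
          rw [← Real.rpow_add hX0]
          congr 1
          ring
  refine ⟨(DP P ×ˢ (DP Y ×ˢ (DP (2 * P) ×ˢ DP (2 * Y)))).image
    (fun x => (x.1 ^ 2 * x.2.1, x.2.2.1 ^ 2 * x.2.2.2)), ?_, ?_⟩
  · rw [card_image_of_injOn]
    · rw [card_product, card_product, card_product]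
      push_cast
      have hp2 : (0 : ℝ) ≤ P ^ (1 - η) := by positivity
      have hy2 : (0 : ℝ) ≤ Y ^ (1 - η) := by positivity
      have h2' : P ^ (1 - η) ≤ ((DP (2 * P)).card : ℝ) :=
        (Real.rpow_le_rpow hP0.le (by linarith) (by linarith)).trans h2
      have h4' : Y ^ (1 - η) ≤ ((DP (2 * Y)).card : ℝ) :=
        (Real.rpow_le_rpow hY0.le (by linarith) (by linarith)).trans h4
      have hprod : P ^ (1 - η) * (Y ^ (1 - η) * (P ^ (1 - η) * Y ^ (1 - η))) ≤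
          ((DP P).card : ℝ) * (((DP Y).card : ℝ) * (((DP (2 * P)).card : ℝ) *
            ((DP (2 * Y)).card : ℝ))) := by
        gcongr
      refine le_trans ?_ hprod
      have e1 : P ^ (1 - η) * (Y ^ (1 - η) * (P ^ (1 - η) * Y ^ (1 - η))) =
          ((P * Y) ^ 2) ^ (1 - η) := by
        rw [← Real.rpow_natCast, ← Real.rpow_mul (by positivity), mul_comm ((2 : ℕ) : ℝ),
          Real.rpow_mul (by positivity), Real.rpow_natCast, Real.mul_rpow hP0.le hY0.le]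
        ring
      have e2 : (P * Y) ^ 2 = X ^ (1 - M) / 5184 := by
        rw [mul_pow, hPP, hY]
        have e3 : (X ^ (1 - 2 * M)) ^ 2 = X ^ (2 - 4 * M) := by
          rw [← Real.rpow_natCast, ← Real.rpow_mul hX0.le]
          congr 1
          push_cast
          ring
        rw [mul_pow, e3]
        calc X ^ (3 * M - 1) * ((1 / 72) ^ 2 * X ^ (2 - 4 * M)) =
              X ^ (3 * M - 1) * X ^ (2 - 4 * M) / 5184 := by ring
          _ = _ := by
              rw [← Real.rpow_add hX0]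
              congr 2
              ring
      rw [e1, e2, Real.div_rpow (by positivity) (by norm_num), ← Real.rpow_mul hX0.le,
        le_div_iff₀ (by positivity)]
      have e4 : (5184 : ℝ) ^ (1 - η) ≤ 5184 := by
        calc (5184 : ℝ) ^ (1 - η) ≤ 5184 ^ (1 : ℝ) :=
              Real.rpow_le_rpow_of_exponent_le (by norm_num) (by linarith)
          _ = 5184 := Real.rpow_one _
      calc X ^ (1 - M - ε) * (5184 : ℝ) ^ (1 - η) ≤ X ^ (1 - M - ε) * X ^ (ε / 2) :=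
            mul_le_mul_of_nonneg_left (e4.trans h5) (by positivity)
        _ = X ^ (1 - M - ε / 2) := by
            rw [← Real.rpow_add hX0]
            congr 1
            ring
        _ ≤ X ^ ((1 - M) * (1 - η)) := by
            apply Real.rpow_le_rpow_of_exponent_le hX
            nlinarith
    · rintro ⟨m, k, n, l⟩ hx ⟨m', k', n', l'⟩ hx' he
      rw [mem_coe, mem_product, mem_product, mem_product, mem_DP, mem_DP, mem_DP, mem_DP] at hx hx'
      obtain ⟨⟨m1, m2, m3⟩, ⟨k1, k2, k3⟩, ⟨n1, n2, n3⟩, l1, l2, l3⟩ := hx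
      obtain ⟨⟨m1', m2', m3'⟩, ⟨k1', k2', k3'⟩, ⟨n1', n2', n3'⟩, l1', l2', l3'⟩ := hx'
      simp only at m1 m2 m3 k1 k2 k3 n1 n2 n3 l1 l2 l3 m1' m2' m3' k1' k2' k3' n1' n2' n3' l1' l2' l3'
      simp only [Prod.mk.injEq] at he ⊢
      obtain ⟨e1, e2⟩ := he
      have hmk : m ≠ k' := by
        rintro rfl
        rcases hd with hd | hd <;> linarith
      have hnl : n ≠ l' := by
        rintro rfl
        rcases hd with hd | hd <;> linarith
      obtain ⟨a1, a2⟩ := sq_inj m1 m1' k1' hmk e1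
      obtain ⟨a3, a4⟩ := sq_inj n1 n1' l1' hnl e2
      exact ⟨a1, a2, a3, a4⟩
  · intro p hp
    obtain ⟨⟨m, k, n, l⟩, hx, rfl⟩ := mem_image.1 hp
    rw [mem_product, mem_product, mem_product, mem_DP, mem_DP, mem_DP, mem_DP] at hx
    obtain ⟨⟨m1, m2, m3⟩, ⟨k1, k2, k3⟩, ⟨n1, n2, n3⟩, l1, l2, l3⟩ := hx
    simp only at m1 m2 m3 k1 k2 k3 n1 n2 n3 l1 l2 l3
    simp only
    have hm0 : (0 : ℝ) < m := hP0.trans_le m2
    have hk0 : (0 : ℝ) < k := hY0.trans_le k2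
    have hn0 : (0 : ℝ) < n := by linarith
    have hl0 : (0 : ℝ) < l := by linarith
    have ha : ((m ^ 2 * k : ℕ) : ℝ) ≤ 8 * (P ^ 2 * Y) := by
      push_cast
      calc (m : ℝ) ^ 2 * k ≤ (2 * P) ^ 2 * (2 * Y) := by
            apply mul_le_mul (pow_le_pow_left₀ hm0.le m3.le 2) k3.le hk0.le (by positivity)
        _ = 8 * (P ^ 2 * Y) := by ring
    have hb : ((n ^ 2 * l : ℕ) : ℝ) ≤ 64 * (P ^ 2 * Y) := by
      push_cast
      calc (n : ℝ) ^ 2 * l ≤ (2 * (2 * P)) ^ 2 * (2 * (2 * Y)) := by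
            apply mul_le_mul (pow_le_pow_left₀ hn0.le n3.le 2) l3.le hl0.le (by positivity)
        _ = 64 * (P ^ 2 * Y) := by ring
    have hb2 : 8 * (P ^ 2 * Y) ≤ ((n ^ 2 * l : ℕ) : ℝ) := by
      push_cast
      calc 8 * (P ^ 2 * Y) = (2 * P) ^ 2 * (2 * Y) := by ring
        _ ≤ (n : ℝ) ^ 2 * l := by
            apply mul_le_mul (pow_le_pow_left₀ (by positivity) n2 2) l2 (by positivity)
              (by positivity)
    have hab : m ^ 2 * k ≤ n ^ 2 * l := by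
      have : ((m ^ 2 * k : ℕ) : ℝ) ≤ ((n ^ 2 * l : ℕ) : ℝ) := ha.trans hb2
      exact_mod_cast this
    have ha0 : 0 < m ^ 2 * k := Nat.mul_pos (pow_pos m1.pos 2) k1.pos
    have hb0 : 0 < n ^ 2 * l := Nat.mul_pos (pow_pos n1.pos 2) l1.pos
    have hc : ((m ^ 2 * k + n ^ 2 * l : ℕ) : ℝ) ≤ Z := by
      rw [Nat.cast_add]
      linarith
    have hc0 : (0 : ℝ) < ((m ^ 2 * k + n ^ 2 * l : ℕ) : ℝ) := by exact_mod_cast (by omega)
    have hmn : m ≠ n := by
      rintro rfl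
      linarith
    have hkl : k ≠ l := by
      rintro rfl
      linarith
    have hml : m ≠ l := by
      rintro rfl
      rcases hd with hd | hd <;> linarith
    have hkn : k ≠ n := by
      rintro rfl
      rcases hd with hd | hd <;> linarith
    have hcop : Nat.Coprime (m ^ 2 * k) (n ^ 2 * l) := by
      have c1 := (Nat.coprime_primes m1 n1).2 hmn
      have c2 := (Nat.coprime_primes m1 l1).2 hml
      have c3 := (Nat.coprime_primes k1 n1).2 hkn
      have c4 := (Nat.coprime_primes k1 l1).2 hkl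
      exact Nat.Coprime.mul_left
        (Nat.Coprime.mul_right (Nat.Coprime.pow 2 2 c1) (Nat.Coprime.pow_left 2 c2))
        (Nat.Coprime.mul_right (Nat.Coprime.pow_right 2 c3) c4)
    refine ⟨ha0, hab, hcop, hc.trans_eq hZ, ?_⟩
    obtain ⟨c, hcc⟩ : ∃ c : ℝ, c = ((m ^ 2 * k + n ^ 2 * l : ℕ) : ℝ) := ⟨_, rfl⟩
    have hrad : P ^ 2 * (rad3 (m ^ 2 * k, n ^ 2 * l) : ℝ) ≤ c ^ 3 := by
      have e1 := rad_le m1 k1 n1 l1
      have e2 : (m : ℝ) * n * rad3 (m ^ 2 * k, n ^ 2 * l) ≤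
          ((m ^ 2 * k * (n ^ 2 * l) * (m ^ 2 * k + n ^ 2 * l) : ℕ) : ℝ) := by
        exact_mod_cast e1
      have e3 : m ^ 2 * k * (n ^ 2 * l) * (m ^ 2 * k + n ^ 2 * l) ≤
          (m ^ 2 * k + n ^ 2 * l) ^ 3 := by
        calc m ^ 2 * k * (n ^ 2 * l) * (m ^ 2 * k + n ^ 2 * l) ≤
            (m ^ 2 * k + n ^ 2 * l) * (m ^ 2 * k + n ^ 2 * l) * (m ^ 2 * k + n ^ 2 * l) :=
              Nat.mul_le_mul_right _ (Nat.mul_le_mul (by omega) (by omega))
          _ = _ := by ring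
      have e4 : ((m ^ 2 * k * (n ^ 2 * l) * (m ^ 2 * k + n ^ 2 * l) : ℕ) : ℝ) ≤ c ^ 3 := by
        rw [hcc]
        exact_mod_cast e3
      have e5 : P ^ 2 ≤ (m : ℝ) * n := by nlinarith
      have e6 : (0 : ℝ) ≤ rad3 (m ^ 2 * k, n ^ 2 * l) := Nat.cast_nonneg _
      exact (mul_le_mul_of_nonneg_right e5 e6).trans (e2.trans e4)
    rw [← hcc] at hc hc0 ⊢
    -- `c ^ (3 - 1 / M) ≤ P ^ 2`
    have h6 : c ^ (3 - 1 / M) ≤ P ^ 2 := by
      have e7 : 0 ≤ 3 - 1 / M := by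
        rw [sub_nonneg, div_le_iff₀ hM0]
        linarith
      calc c ^ (3 - 1 / M) ≤ Z ^ (3 - 1 / M) := Real.rpow_le_rpow hc0.le hc e7
        _ = P ^ 2 := by
            rw [hZ, hPP, ← Real.rpow_mul hX0.le]
            congr 1
            field_simp
    have h7 : c ^ (3 - 1 / M) * c ^ (1 / M) = c ^ 3 := by
      rw [← Real.rpow_add hc0, sub_add_cancel, show (3 : ℝ) = ((3 : ℕ) : ℝ) by norm_num,
        Real.rpow_natCast]
    have h8 : P ^ 2 * (rad3 (m ^ 2 * k, n ^ 2 * l) : ℝ) ≤ P ^ 2 * c ^ (1 / M) := by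
      calc P ^ 2 * (rad3 (m ^ 2 * k, n ^ 2 * l) : ℝ) ≤ c ^ 3 := hrad
        _ = c ^ (3 - 1 / M) * c ^ (1 / M) := h7.symm
        _ ≤ P ^ 2 * c ^ (1 / M) := mul_le_mul_of_nonneg_right h6 (by positivity)
    exact le_of_mul_le_mul_left h8 (by positivity)

/-- `1 / M - 1` is larger than the exponent at `1 / K` -/
theorem Fx_lt {M K : ℝ} (hM : 0 < M) (hM1 : M < 1 / 2) (hMK : M < K) :
    M * Fx (1 / K) < 1 - M := by
  have hK : 0 < K := by linarith
  rcases le_or_gt K (1 / 2) with h | h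
  · rw [Fx_two _ (by rw [le_div_iff₀ hK]; linarith)]
    have : M * (1 / K) < 1 := by
      rw [mul_one_div, div_lt_one hK]
      exact hMK
    linarith
  · have h1 : Fx (1 / K) ≤ Fx 2 := (ml_Fx (1 / K) 2 (by
      rw [div_le_iff₀ hK]; linarith)).1
    rw [Fx_two 2 le_rfl] at h1
    nlinarith

/-- **The lower bound.** -/
theorem lower {M K ε : ℝ} (hM : 1 / 3 < M) (hM1 : M < 1 / 2) (hMK : M < K) (hε : 0 < ε) :
    ∃ X₀ : ℝ, ∀ X : ℝ, X₀ ≤ X → X ^ (1 - M - ε) ≤ ((btw M K X).ncard : ℝ) := by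
  have hM0 : 0 < M := by linarith
  have hK0 : 0 < K := by linarith
  have hgap := Fx_lt hM0 hM1 hMK
  obtain ⟨δ, hδ⟩ : ∃ δ : ℝ, δ = min ε ((1 - M - M * Fx (1 / K)) / 3) := ⟨_, rfl⟩
  have hδ0 : 0 < δ := by rw [hδ]; exact lt_min hε (by linarith)
  have hδε : δ ≤ ε := by rw [hδ]; exact min_le_left _ _
  have hδg : δ ≤ (1 - M - M * Fx (1 / K)) / 3 := by rw [hδ]; exact min_le_right _ _
  obtain ⟨C, hC0, hC⟩ := S_card (s := K) (T := M) (ε := δ) hK0 hM0.le hδ0
  have t5 : Tendsto (fun X : ℝ => X ^ (δ / 2)) atTop atTop :=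
    tendsto_rpow_atTop (by linarith)
  have t6 : Tendsto (fun X : ℝ => X ^ (δ / 4)) atTop atTop :=
    tendsto_rpow_atTop (by linarith)
  have key : ∀ᶠ X : ℝ in atTop, X ^ (1 - M - ε) ≤ ((btw M K X).ncard : ℝ) := by
    filter_upwards [many (ε := δ / 2) hM hM1 (by positivity),
      t5.eventually (eventually_ge_atTop (C + 1)), eventually_ge_atTop 1] with X hG h5 hX
    have hX0 : 0 < X := by linarith
    obtain ⟨G, hG1, hG2⟩ := hG
    have hsub : (G : Set (ℕ × ℕ)) ⊆ btw M K X ∪ S K M X := by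
      intro p hp
      obtain ⟨h1, h2, h3, h4, h6⟩ := hG2 p (mem_coe.1 hp)
      have hr0 : (0 : ℝ) ≤ rad3 p := Nat.cast_nonneg _
      have hc0 : (0 : ℝ) ≤ ((p.1 + p.2 : ℕ) : ℝ) := Nat.cast_nonneg _
      rcases lt_or_ge ((p.1 + p.2 : ℕ) : ℝ) ((rad3 p : ℝ) ^ K) with h7 | h7
      · refine Or.inl ⟨⟨h1, h2, h3, ?_⟩, ?_, h7⟩
        · calc (rad3 p : ℝ) ≤ ((p.1 + p.2 : ℕ) : ℝ) ^ (1 / M) := h6
            _ ≤ (X ^ M) ^ (1 / M) := Real.rpow_le_rpow hc0 h4 (by positivity)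
            _ = X := by rw [← Real.rpow_mul hX0.le, mul_one_div_cancel hM0.ne', Real.rpow_one]
        · calc (rad3 p : ℝ) ^ M ≤ (((p.1 + p.2 : ℕ) : ℝ) ^ (1 / M)) ^ M :=
                Real.rpow_le_rpow hr0 h6 hM0.le
            _ = _ := by
                rw [← Real.rpow_mul hc0, one_div_mul_cancel hM0.ne', Real.rpow_one]
      · refine Or.inr ⟨h1, by omega, h3, h4, ?_⟩
        calc (rad3 p : ℝ) = ((rad3 p : ℝ) ^ K) ^ (1 / K) := by
              rw [← Real.rpow_mul hr0, mul_one_div_cancel hK0.ne', Real.rpow_one]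
          _ ≤ _ := Real.rpow_le_rpow (by positivity) h7 (by positivity)
    have h8 := Set.ncard_le_ncard hsub ((btw_fin hK0.le).union (S_fin _ _ _))
    rw [Set.ncard_coe_finset] at h8
    have h9 : (G.card : ℝ) ≤ ((btw M K X).ncard : ℝ) + ((S K M X).ncard : ℝ) := by
      exact_mod_cast h8.trans (Set.ncard_union_le _ _)
    have h10 : ((S K M X).ncard : ℝ) ≤ C * X ^ (1 - M - δ) := by
      refine (hC X hX).trans (mul_le_mul_of_nonneg_left
        (Real.rpow_le_rpow_of_exponent_le hX ?_) hC0)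
      have : M * δ ≤ δ := by nlinarith
      linarith
    have h11 : (C + 1) * X ^ (1 - M - δ) ≤ X ^ (1 - M - δ / 2) := by
      calc (C + 1) * X ^ (1 - M - δ) ≤ X ^ (δ / 2) * X ^ (1 - M - δ) :=
            mul_le_mul_of_nonneg_right h5 (by positivity)
        _ = X ^ (1 - M - δ / 2) := by
            rw [← Real.rpow_add hX0]
            congr 1
            ring
    have h12 : X ^ (1 - M - ε) ≤ X ^ (1 - M - δ) :=
      Real.rpow_le_rpow_of_exponent_le hX (by linarith)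
    linarith
  obtain ⟨X₀, hX₀⟩ := eventually_atTop.1 key
  exact ⟨X₀, hX₀⟩

/-- an exponent from upper and lower bounds -/
theorem tendsto_exponent {f : ℝ → ℝ} {L : ℝ}
    (h1 : ∀ ε : ℝ, 0 < ε → ∃ C : ℝ, 0 < C ∧ ∀ X : ℝ, 1 ≤ X → f X ≤ C * X ^ (L + ε))
    (h2 : ∀ ε : ℝ, 0 < ε → ∃ X₀ : ℝ, ∀ X : ℝ, X₀ ≤ X → X ^ (L - ε) ≤ f X) :
    Tendsto (fun X : ℝ => Real.log (f X) / Real.log X) atTop (𝓝 L) := by
  rw [Metric.tendsto_atTop]
  intro ε hε
  obtain ⟨C, hC, hup⟩ := h1 (ε / 3) (by positivity)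
  obtain ⟨X₀, hlo⟩ := h2 (ε / 3) (by positivity)
  have ht : Tendsto (fun X : ℝ => ε / 3 * Real.log X) atTop atTop :=
    Real.tendsto_log_atTop.const_mul_atTop (by positivity)
  obtain ⟨X₁, hX₁⟩ := eventually_atTop.1 (ht.eventually (eventually_ge_atTop (Real.log C)))
  refine ⟨max (max X₀ X₁) 2, fun X hX => ?_⟩
  have hX0 : X₀ ≤ X := (le_max_left _ _).trans ((le_max_left _ _).trans hX)
  have hX1 : X₁ ≤ X := (le_max_right _ _).trans ((le_max_left _ _).trans hX)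
  have hX2 : 2 ≤ X := (le_max_right _ _).trans hX
  have hXp : 0 < X := by linarith
  have hl : 0 < Real.log X := Real.log_pos (by linarith)
  have hf0 : 0 < f X := lt_of_lt_of_le (by positivity) (hlo X hX0)
  have e1 : Real.log (f X) ≤ Real.log C + (L + ε / 3) * Real.log X := by
    rw [← Real.log_rpow hXp, ← Real.log_mul hC.ne' (by positivity)]
    exact Real.log_le_log hf0 (hup X (by linarith))
  have e2 : (L - ε / 3) * Real.log X ≤ Real.log (f X) := by
    rw [← Real.log_rpow hXp]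
    exact Real.log_le_log (by positivity) (hlo X hX0)
  have e3 := hX₁ X hX1
  rw [Real.dist_eq, abs_lt]
  have hεl : 0 < ε * Real.log X := by positivity
  constructor
  · rw [neg_lt_sub_iff_lt_add, ← sub_lt_iff_lt_add', lt_div_iff₀ hl]
    linarith
  · rw [sub_lt_iff_lt_add', div_lt_iff₀ hl]
    linarith

end Pool.Agent.Q38.AE
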