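import Pool.Agent.Q38.AE.Cover
import Pool.Agent.Results.MP_4d5ce1_nt.ExceptionalSetExponents

/-! The exceptional set of the abc inequality relative to `q` points of the line over a number field,
ordered by the truncated counting function. -/

set_option autoImplicit false

namespace Pool.Agent.Q38.AE.Many

open Filter Topology NumberField IsDedekindDomain
open Pool.Agent.Results.MP_4d5ce1_nt.ExceptionalSetExponents
open Pool.Agent.Q38.AE.Cov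

/-! ### the exponent function -/

theorem e_cases {t : ℝ} (ht : t ≤ 2) :
    (t ≤ 1 ∧ expoThree t = 2 - t) ∨ (1 < t ∧ t ≤ 4 / 3 ∧ expoThree t = 1) ∨
    (4 / 3 < t ∧ t ≤ 17 / 12 ∧ expoThree t = 7 / 3 - t) ∨
    (17 / 12 < t ∧ t ≤ 3 / 2 ∧ expoThree t = 13 / 8 - t / 2) ∨
    (3 / 2 < t ∧ t ≤ 17 / 10 ∧ expoThree t = 29 / 16 - 5 * t / 8) ∨
    (17 / 10 < t ∧ t ≤ 7 / 4 ∧ expoThree t = 3 / 4) ∨
    (7 / 4 < t ∧ t ≤ 9 / 5 ∧ expoThree t = 5 / 2 - t) ∨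
    (9 / 5 < t ∧ t ≤ 13 / 7 ∧ expoThree t = 8 / 5 - t / 2) ∨
    (13 / 7 < t ∧ t ≤ 19 / 10 ∧ expoThree t = 47 / 70) ∨
    (19 / 10 < t ∧ expoThree t = 2 - 93 * t / 133) := by
  unfold expoThree
  by_cases h1 : t ≤ 1
  · exact Or.inl ⟨h1, if_pos h1⟩
  rw [if_neg h1]
  refine Or.inr ?_
  by_cases h2 : t ≤ 4 / 3
  · exact Or.inl ⟨not_le.1 h1, h2, if_pos h2⟩
  rw [if_neg h2]
  refine Or.inr ?_
  by_cases h3 : t ≤ 17 / 12
  · exact Or.inl ⟨not_le.1 h2, h3, if_pos h3⟩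
  rw [if_neg h3]
  refine Or.inr ?_
  by_cases h4 : t ≤ 3 / 2
  · exact Or.inl ⟨not_le.1 h3, h4, if_pos h4⟩
  rw [if_neg h4]
  refine Or.inr ?_
  by_cases h5 : t ≤ 17 / 10
  · exact Or.inl ⟨not_le.1 h4, h5, if_pos h5⟩
  rw [if_neg h5]
  refine Or.inr ?_
  by_cases h6 : t ≤ 7 / 4
  · exact Or.inl ⟨not_le.1 h5, h6, if_pos h6⟩
  rw [if_neg h6]
  refine Or.inr ?_
  by_cases h7 : t ≤ 9 / 5
  · exact Or.inl ⟨not_le.1 h6, h7, if_pos h7⟩
  rw [if_neg h7]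
  refine Or.inr ?_
  by_cases h8 : t ≤ 13 / 7
  · exact Or.inl ⟨not_le.1 h7, h8, if_pos h8⟩
  rw [if_neg h8]
  refine Or.inr ?_
  by_cases h9 : t ≤ 19 / 10
  · exact Or.inl ⟨not_le.1 h8, h9, if_pos h9⟩
  rw [if_neg h9]
  exact Or.inr ⟨not_le.1 h9, if_pos (by linarith)⟩

theorem e_le_one {t : ℝ} (h : t ≤ 1) : expoThree t = 2 - t := by
  unfold expoThree
  rw [if_pos h]

theorem e_mid {t : ℝ} (h1 : 1 ≤ t) (h2 : t ≤ 2) : expoThree t ≤ 47 / 77 * (3 - t) := by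
  rcases e_cases h2 with ⟨h, e⟩ | ⟨h, h', e⟩ | ⟨h, h', e⟩ | ⟨h, h', e⟩ | ⟨h, h', e⟩ |
    ⟨h, h', e⟩ | ⟨h, h', e⟩ | ⟨h, h', e⟩ | ⟨h, h', e⟩ | ⟨h, e⟩ <;> rw [e] <;> linarith

theorem e_mid0 {t : ℝ} (_h1 : 0 ≤ t) (h2 : t ≤ 2) : 0 ≤ expoThree t := by
  rcases e_cases h2 with ⟨h, e⟩ | ⟨h, h', e⟩ | ⟨h, h', e⟩ | ⟨h, h', e⟩ | ⟨h, h', e⟩ |
    ⟨h, h', e⟩ | ⟨h, h', e⟩ | ⟨h, h', e⟩ | ⟨h, h', e⟩ | ⟨h, e⟩ <;> rw [e] <;> linarith

theorem e_le_two {t : ℝ} (h1 : 0 ≤ t) (h2 : t ≤ 2) : expoThree t ≤ 2 := by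
  rcases e_cases h2 with ⟨h, e⟩ | ⟨h, h', e⟩ | ⟨h, h', e⟩ | ⟨h, h', e⟩ | ⟨h, h', e⟩ |
    ⟨h, h', e⟩ | ⟨h, h', e⟩ | ⟨h, h', e⟩ | ⟨h, h', e⟩ | ⟨h, e⟩ <;> rw [e] <;> linarith

/-- the bound for the exponents of the heights at most `(3 / q) log X` -/
noncomputable def top (q : ℕ) : ℝ :=
  3 / (q : ℝ) * max (47 / 77) ((14 * (q : ℝ) - 18) / (21 * q - 18))

theorem top_eq {q : ℕ} (hq : 3 ≤ q) :
    3 / (q : ℝ) * ((14 * (q : ℝ) - 18) / (21 * q - 18)) = 3 / q - 7 / (7 * q - 6) := by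
  have hq' : (3 : ℝ) ≤ q := by exact_mod_cast hq
  have h3 : (q : ℝ) ≠ 0 := by linarith
  obtain ⟨w, hw⟩ : ∃ w : ℝ, w = 7 * (q : ℝ) - 6 := ⟨_, rfl⟩
  have hw0 : w ≠ 0 := by
    have : 0 < w := by rw [hw]; linarith
    exact this.ne'
  have e1 : 14 * (q : ℝ) - 18 = 2 * w - 6 := by rw [hw]; ring
  have e2 : 21 * (q : ℝ) - 18 = 3 * w := by rw [hw]; ring
  rw [e1, e2, ← hw]
  field_simp
  rw [hw]
  ring

/-- the slice of the height `s log X`, `7 / (7 q - 6) ≤ s ≤ 3 / q` -/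
theorem slice_top {q : ℕ} (hq : 3 ≤ q) {s : ℝ} (h1 : 7 / (7 * (q : ℝ) - 6) ≤ s)
    (h2 : s ≤ 3 / q) :
    0 ≤ (q : ℝ) - 1 / s ∧ 0 ≤ 3 * ((q : ℝ) - 1 / s) / q ∧ 3 * ((q : ℝ) - 1 / s) / q ≤ 2 ∧
    s * expoThree (3 * ((q : ℝ) - 1 / s) / q) ≤ top q := by
  have hq' : (3 : ℝ) ≤ q := by exact_mod_cast hq
  have hq0 : (0 : ℝ) < q := by linarith
  have h76 : 0 < 7 * (q : ℝ) - 6 := by linarith
  have hs0 : 0 < s := lt_of_lt_of_le (by positivity) h1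
  have hsq : 1 / s ≤ q := by
    rw [div_le_iff₀ hs0]
    rw [div_le_iff₀ h76] at h1
    nlinarith
  have e1 : 3 * ((q : ℝ) - 1 / s) / q = 3 - 3 / (q * s) := by
    field_simp
  have e2 : s * (3 / (q * s)) = 3 / q := by field_simp
  have h3 : 1 ≤ 3 / (q * s) := by
    rw [le_div_iff₀ (by positivity)]
    rw [le_div_iff₀ hq0] at h2
    linarith
  have h4 : 0 ≤ 3 * ((q : ℝ) - 1 / s) / q := by
    have : 0 ≤ (q : ℝ) - 1 / s := by linarith
    positivity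
  refine ⟨by linarith, h4, by rw [e1]; linarith, ?_⟩
  rw [e1]
  rw [e1] at h4
  rcases le_or_gt (3 - 3 / (q * s)) 1 with h | h
  · rw [e_le_one h]
    have e3 : s * (2 - (3 - 3 / (q * s))) = 3 / q - s := by
      rw [← e2]
      ring
    rw [e3]
    have h5 : 3 / (q : ℝ) - s ≤ 3 / q - 7 / (7 * q - 6) := by linarith
    rw [← top_eq hq] at h5
    exact h5.trans (mul_le_mul_of_nonneg_left (le_max_right _ _) (by positivity))
  · have h5 := mul_le_mul_of_nonneg_left (e_mid h.le (by linarith)) hs0.le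
    refine h5.trans ?_
    have e3 : s * (47 / 77 * (3 - (3 - 3 / (q * s)))) = 3 / q * (47 / 77) := by
      rw [← e2]
      ring
    rw [e3]
    exact mul_le_mul_of_nonneg_left (le_max_left _ _) (by positivity)

/-- the constant `M` is below the range of `slice_top` -/
theorem M_lt {q : ℕ} (hq : 3 ≤ q) {M : ℝ} (h : ((q : ℝ) - 2) * M ≤ 1 - top q) :
    M < 7 / (7 * (q : ℝ) - 6) := by
  have hq' : (3 : ℝ) ≤ q := by exact_mod_cast hq
  have hq0 : (0 : ℝ) < q := by linarith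
  have h76 : 0 < 7 * (q : ℝ) - 6 := by linarith
  by_contra hcon
  push Not at hcon
  have h1 : 3 / (q : ℝ) * (47 / 77) ≤ top q :=
    mul_le_mul_of_nonneg_left (le_max_left _ _) (by positivity)
  have h2 : 3 / (q : ℝ) * ((14 * (q : ℝ) - 18) / (21 * q - 18)) ≤ top q :=
    mul_le_mul_of_nonneg_left (le_max_right _ _) (by positivity)
  rw [top_eq hq] at h2
  obtain ⟨z, hz⟩ : ∃ z : ℝ, z = 7 / (7 * (q : ℝ) - 6) := ⟨_, rfl⟩
  have hz1 : z * (7 * q - 6) = 7 := by rw [hz]; field_simp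
  rw [← hz] at hcon h2
  obtain ⟨y, hy⟩ : ∃ y : ℝ, y = 1 / (q : ℝ) := ⟨_, rfl⟩
  have hy1 : y * q = 1 := by rw [hy]; field_simp
  have e3 : 3 / (q : ℝ) = 3 * y := by rw [hy]; ring
  rw [e3] at h1 h2
  have hz0 : 0 < z := by rw [hz]; positivity
  have hy0 : 0 < y := by rw [hy]; positivity
  have h3 : ((q : ℝ) - 2) * z ≤ ((q : ℝ) - 2) * M :=
    mul_le_mul_of_nonneg_left hcon (by linarith)
  -- `(q - 3) z ≤ 1 - 3 y`
  have h4 : ((q : ℝ) - 3) * z ≤ 1 - 3 * y := by linarith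
  rcases hq'.eq_or_lt with h5 | h5
  · -- `q = 3`
    rw [← h5] at hz1 hy1 h3 h
    norm_num at hz1
    have hz2 : z = 7 / 15 := by linarith
    have hy2 : y = 1 / 3 := by linarith
    rw [hy2] at h1
    rw [hz2] at h3
    linarith
  · have h6 : 1 - 3 * y = (q - 3) * y := by linarith
    rw [h6] at h4
    have h7 : z ≤ y := le_of_mul_le_mul_left h4 (by linarith)
    nlinarith

section main

variable (K : Type) [Field K] [NumberField K]
    (T : Set (HeightOneSpectrum (RingOfIntegers K))) (hT : T.Finite)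
    (q : ℕ) (hq : 3 ≤ q) (α : Fin q → K × K) (hα0 : ∀ i, α i ≠ 0)
    (hα : ∀ i j, i ≠ j → (α i).1 * (α j).2 - (α i).2 * (α j).1 ≠ 0)

theorem height_nonneg (x : K) : 0 ≤ height x := by
  unfold height
  refine div_nonneg (add_nonneg ?_ ?_) (Nat.cast_nonneg _)
  · refine Finset.sum_nonneg fun w _ => mul_nonneg (Nat.cast_nonneg _) (Real.log_nonneg ?_)
    rw [map_one]
    exact le_max_right _ _
  · refine finsum_nonneg fun v => Real.log_nonneg ?_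
    rw [map_one]
    exact le_max_right _ _

/-- `x` is none of the points -/
def Off (x : K) : Prop := ∀ l, x * (α l).2 - 1 * (α l).1 ≠ 0

theorem exc_eq (s B : ℝ) :
    A (Off K q α) height (counting T α) s B = exceptional T α ((q : ℝ) - 1 / s) 1 B := by
  unfold A exceptional Off
  ext x
  have e : (q : ℝ) - ((q : ℝ) - 1 / s) = 1 / s := by ring
  rw [Set.mem_ofPred_eq, Set.mem_ofPred_eq, e]

include hT hq hα0 hα

/-- the exact range -/
theorem low_slice {s : ℝ} (h0 : 1 / (q : ℝ) ≤ s)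
    (hs : s ≤ 7 / (7 * (q : ℝ) - 6) ∨ (q = 3 ∧ s ≤ 1 / 2)) (δ : ℝ) (hδ : 0 < δ) :
    ∃ C : ℝ, ∀ B : ℝ, 1 ≤ B → (A (Off K q α) height (counting T α) s B).Finite ∧
      ((A (Off K q α) height (counting T α) s B).ncard : ℝ) ≤
        C * B ^ ((Module.finrank ℚ K : ℝ) * (2 - ((q : ℝ) - 1 / s)) + δ) := by
  have hq' : (3 : ℝ) ≤ q := by exact_mod_cast hq
  have hq0 : (0 : ℝ) < q := by linarith
  have h76 : 0 < 7 * (q : ℝ) - 6 := by linarith
  have hs0 : 0 < s := lt_of_lt_of_le (by positivity) h0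
  have hκ0 : 0 ≤ (q : ℝ) - 1 / s := by
    rw [sub_nonneg, div_le_iff₀ hs0]
    rw [div_le_iff₀ hq0] at h0
    linarith
  have hκ1 : (q : ℝ) - 1 / s ≤ 6 / 7 ∨ (q = 3 ∧ (q : ℝ) - 1 / s ≤ 1) := by
    rcases hs with hs | ⟨hs1, hs2⟩
    · left
      have h1 : (q : ℝ) - 6 / 7 ≤ 1 / s := by
        rw [le_div_iff₀ hs0]
        rw [le_div_iff₀ h76] at hs
        linarith
      linarith
    · right
      refine ⟨hs1, ?_⟩
      have h1 : 2 ≤ 1 / s := by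
        rw [le_div_iff₀ hs0]
        linarith
      rw [hs1]
      push_cast
      linarith
  have hκ2 : (q : ℝ) - 1 / s < 2 := by
    rcases hκ1 with h | h <;> linarith
  obtain ⟨hfin, -, hex⟩ := (result K T hT q (by omega) α hα0 hα ((q : ℝ) - 1 / s) 1 hκ0).1 hκ2
  have hκ3 : (q : ℝ) - 1 / s ≤ 6 / 7 ∨ (q = 3 ∧ (q : ℝ) - 1 / s ≤ 1) ∨ q = 2 := by
    rcases hκ1 with h | h
    · exact Or.inl h
    · exact Or.inr (Or.inl h)
  obtain ⟨hC, -⟩ := hex hκ3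
  obtain ⟨C, hC⟩ := hC δ hδ
  refine ⟨C, fun B hB => ?_⟩
  rw [exc_eq]
  exact ⟨hfin B hB, hC B hB⟩

theorem high_slice {s : ℝ} (h1 : 7 / (7 * (q : ℝ) - 6) ≤ s) (h2 : s ≤ 3 / q) (δ : ℝ)
    (hδ : 0 < δ) :
    ∃ C : ℝ, ∀ B : ℝ, 1 ≤ B → (A (Off K q α) height (counting T α) s B).Finite ∧
      ((A (Off K q α) height (counting T α) s B).ncard : ℝ) ≤
        C * B ^ ((Module.finrank ℚ K : ℝ) * expoThree (3 * ((q : ℝ) - 1 / s) / q) + δ) := by
  have hq' : (3 : ℝ) ≤ q := by exact_mod_cast hq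
  have hq0 : (0 : ℝ) < q := by linarith
  have h76 : 0 < 7 * (q : ℝ) - 6 := by linarith
  have hs0 : 0 < s := lt_of_lt_of_le (by positivity) h1
  obtain ⟨a1, -, -, -⟩ := slice_top hq h1 h2
  have a2 : (q : ℝ) - 1 / s ≤ q := by
    have : 0 < 1 / s := by positivity
    linarith
  obtain ⟨C, hC⟩ := (result K T hT q (by omega) α hα0 hα ((q : ℝ) - 1 / s) 1 a1).2 hq a2 δ hδ
  refine ⟨C, fun B hB => ?_⟩
  rw [exc_eq]
  exact hC B hB

/-- **The upper bound.** -/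
theorem upperQ {M L ε : ℝ} (hM : 1 / (q : ℝ) < M) (hML : M < L)
    (hL : L ≤ 7 / (7 * (q : ℝ) - 6) ∨ (q = 3 ∧ L ≤ 1 / 2) ∨
      (L ≤ 3 / q ∧ ((q : ℝ) - 2) * M ≤ 1 - top q)) (hε : 0 < ε) :
    ∃ C : ℝ, 0 < C ∧ ∀ X : ℝ, 1 ≤ X → (E (Off K q α) height (counting T α) M L X).Finite ∧
      ((E (Off K q α) height (counting T α) M L X).ncard : ℝ) ≤
        C * X ^ ((Module.finrank ℚ K : ℝ) * (1 - ((q : ℝ) - 2) * M) + ε) := by
  have hq' : (3 : ℝ) ≤ q := by exact_mod_cast hq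
  have hq0 : (0 : ℝ) < q := by linarith
  have h76 : 0 < 7 * (q : ℝ) - 6 := by linarith
  have hM0 : 0 < M := lt_trans (by positivity) hM
  obtain ⟨d, hd⟩ : ∃ d : ℝ, d = (Module.finrank ℚ K : ℝ) := ⟨_, rfl⟩
  have hd0 : 0 ≤ d := by rw [hd]; exact Nat.cast_nonneg _
  refine cover (G := 2 * d) hM0 hML.le (by positivity) (fun s h1 h2 => ?_) hε
  have hs0 : 0 < s := by linarith
  have hsq : 1 / (q : ℝ) ≤ s := by linarith
  have hκ0 : 0 ≤ (q : ℝ) - 1 / s := by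
    rw [sub_nonneg, div_le_iff₀ hs0]
    rw [div_le_iff₀ hq0] at hsq
    linarith
  by_cases hcase : s ≤ 7 / (7 * (q : ℝ) - 6) ∨ (q = 3 ∧ s ≤ 1 / 2)
  · refine ⟨d * (2 - ((q : ℝ) - 1 / s)), ?_, ?_, ?_, ?_⟩
    · refine mul_nonneg hd0 ?_
      rcases hcase with h | ⟨h, h'⟩
      · have : (q : ℝ) - 6 / 7 ≤ 1 / s := by
          rw [le_div_iff₀ hs0]
          rw [le_div_iff₀ h76] at h
          linarith
        linarith
      · have h3 : 2 ≤ 1 / s := by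
          rw [le_div_iff₀ hs0]
          linarith
        rw [h]
        push_cast
        linarith
    · nlinarith
    · have e1 : s * (d * (2 - ((q : ℝ) - 1 / s))) = d * (1 - ((q : ℝ) - 2) * s) := by
        field_simp
        ring
      rw [e1, ← hd]
      refine mul_le_mul_of_nonneg_left ?_ hd0
      have : ((q : ℝ) - 2) * M ≤ ((q : ℝ) - 2) * s := mul_le_mul_of_nonneg_left h1 (by linarith)
      linarith
    · rw [hd]
      exact low_slice K T hT q hq α hα0 hα hsq hcase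
  · push Not at hcase
    obtain ⟨c1, c2⟩ := hcase
    have hL3 : L ≤ 3 / q ∧ ((q : ℝ) - 2) * M ≤ 1 - top q := by
      rcases hL with h | h | h
      · exfalso
        linarith
      · exfalso
        have := c2 h.1
        linarith
      · exact h
    obtain ⟨b1, b2, b3, b4⟩ := slice_top hq c1.le (h2.trans hL3.1)
    refine ⟨d * expoThree (3 * ((q : ℝ) - 1 / s) / q), mul_nonneg hd0 (e_mid0 b2 b3), ?_, ?_, ?_⟩
    · have := e_le_two b2 b3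
      nlinarith
    · calc s * (d * expoThree (3 * ((q : ℝ) - 1 / s) / q)) =
            d * (s * expoThree (3 * ((q : ℝ) - 1 / s) / q)) := by ring
        _ ≤ d * (1 - ((q : ℝ) - 2) * M) := mul_le_mul_of_nonneg_left (by linarith) hd0
        _ = _ := by rw [hd]
    · rw [hd]
      exact high_slice K T hT q hq α hα0 hα c1.le (h2.trans hL3.1)

/-- **The lower bound.** -/
theorem lowerQ {M L ε : ℝ} (hM : 1 / (q : ℝ) < M) (hML : M < L)
    (hL : L ≤ 7 / (7 * (q : ℝ) - 6) ∨ (q = 3 ∧ L ≤ 1 / 2) ∨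
      (L ≤ 3 / q ∧ ((q : ℝ) - 2) * M ≤ 1 - top q)) (hε : 0 < ε) :
    ∃ X₀ : ℝ, ∀ X : ℝ, X₀ ≤ X →
      X ^ ((Module.finrank ℚ K : ℝ) * (1 - ((q : ℝ) - 2) * M) - ε) ≤
        ((F (Off K q α) height (counting T α) M L X).ncard : ℝ) := by
  have hq' : (3 : ℝ) ≤ q := by exact_mod_cast hq
  have hq0 : (0 : ℝ) < q := by linarith
  have h76 : 0 < 7 * (q : ℝ) - 6 := by linarith
  have hM0 : 0 < M := lt_trans (by positivity) hM
  have hdpos : 0 < (Module.finrank ℚ K : ℝ) := by exact_mod_cast Module.finrank_pos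
  -- the auxiliary exponent
  obtain ⟨L', hL1, hL2, hL3⟩ : ∃ L' : ℝ, M < L' ∧ L' ≤ L ∧
      (L' ≤ 7 / (7 * (q : ℝ) - 6) ∨ (q = 3 ∧ L' ≤ 1 / 2)) := by
    rcases hL with h | h | h
    · exact ⟨L, hML, le_rfl, Or.inl h⟩
    · exact ⟨L, hML, le_rfl, Or.inr h⟩
    · exact ⟨min L (7 / (7 * (q : ℝ) - 6)), lt_min hML (M_lt hq h.2), min_le_left _ _,
        Or.inl (min_le_right _ _)⟩
  have hL'0 : 0 < L' := by linarith
  have hκ0 : 0 ≤ (q : ℝ) - 1 / M := by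
    rw [sub_nonneg, div_le_iff₀ hM0]
    rw [div_lt_iff₀ hq0] at hM
    linarith
  have hinv : 1 / L' < 1 / M := one_div_lt_one_div_of_lt hM0 hL1
  have hκL : (q : ℝ) - 1 / L' < 2 := by
    rcases hL3 with h | ⟨h, h'⟩
    · have : (q : ℝ) - 6 / 7 ≤ 1 / L' := by
        rw [le_div_iff₀ hL'0]
        rw [le_div_iff₀ h76] at h
        linarith
      linarith
    · have h3 : 2 ≤ 1 / L' := by
        rw [le_div_iff₀ hL'0]
        linarith
      rw [h]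
      push_cast
      linarith
  have hκ2 : (q : ℝ) - 1 / M < 2 := by linarith
  obtain ⟨-, hlow, -⟩ := (result K T hT q (by omega) α hα0 hα ((q : ℝ) - 1 / M) 0 hκ0).1 hκ2
  have hZ : ∃ C : ℝ, 0 < C ∧ ∀ᶠ B : ℝ in atTop,
      C * B ^ ((Module.finrank ℚ K : ℝ) * (2 - ((q : ℝ) - 1 / M))) ≤
        (({x | Off K q α x ∧ Real.exp (height x) ≤ B ∧
          counting T α x < 1 / M * height x} : Set K).ncard : ℝ) := by
    obtain ⟨C, hC, h⟩ := hlow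
    refine ⟨C, hC, ?_⟩
    filter_upwards [h] with B hB
    refine hB.trans (le_of_eq ?_)
    congr 2
    unfold exceptional Off
    ext x
    have e : (q : ℝ) - ((q : ℝ) - 1 / M) = 1 / M := by ring
    rw [Set.mem_ofPred_eq, Set.mem_ofPred_eq, e, add_zero]
  have h1 := lower (L := L) (g := (Module.finrank ℚ K : ℝ) * (2 - ((q : ℝ) - 1 / M)))
    (g' := (Module.finrank ℚ K : ℝ) * (2 - ((q : ℝ) - 1 / L'))) hM0 hL1 hL2
    (fun x _ => height_nonneg K x) hZ ?_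
    (low_slice K T hT q hq α hα0 hα (by linarith) hL3) ?_ hε
  · obtain ⟨X₀, hX₀⟩ := h1
    refine ⟨X₀, fun X hX => ?_⟩
    have h2 := hX₀ X hX
    have e1 : M * ((Module.finrank ℚ K : ℝ) * (2 - ((q : ℝ) - 1 / M))) =
        (Module.finrank ℚ K : ℝ) * (1 - ((q : ℝ) - 2) * M) := by
      field_simp
      ring
    rw [e1] at h2
    exact h2
  · obtain ⟨C, -, hC⟩ := upperQ K T hT q hq α hα0 hα hM hML hL one_pos
    exact fun X hX => (hC X hX).1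
  · exact mul_lt_mul_of_pos_left (by linarith) hdpos

end main

end Pool.Agent.Q38.AE.Many
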