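import Pool.Agent.Q38.AE.Many
import Pool.Agent.W223.AK.Final
import Pool.Agent.W108.AK.MB

/-! The points `(a : b : c)`, `a + b + c = 0`, over a number field, ordered by radical. -/

set_option autoImplicit false
set_option linter.unusedSectionVars false

namespace Pool.Agent.Q38.AE.NF

open Filter Topology NumberField IsDedekindDomain
open Pool.Agent.H691R3 Pool.Agent.W223.AK Pool.Agent.W108.AK
open Pool.Agent.Q38.AE.Cov
open Pool.Agent.Results.MP_4d5ce1_nt.ExceptionalSetExponents (height counting exceptional)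

variable {K : Type} [Field K] [NumberField K]

/-- the triple of `z` -/
def vec (z : K) : Fin 3 → K := ![z, 1, -z - 1]

theorem vec0 (z : K) : vec z 0 = z := rfl
theorem vec1 (z : K) : vec z 1 = 1 := rfl
theorem vec2 (z : K) : vec z 2 = -z - 1 := rfl

theorem vec_ne (z : K) : vec z ≠ 0 := by
  intro h
  have := congrFun h 1
  rw [vec1] at this
  exact one_ne_zero this

theorem vec_sum (z : K) : vec z 0 + vec z 1 + vec z 2 = 0 := by
  rw [vec0, vec1, vec2]
  ring

theorem vec_prod {z : K} (hz : Pt z) : vec z 0 * vec z 1 * vec z 2 ≠ 0 := by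
  rw [vec0, vec1, vec2]
  refine mul_ne_zero (mul_ne_zero hz.1 one_ne_zero) ?_
  intro h
  apply hz.2
  linear_combination -h

theorem vec_div (z : K) : vec z 0 / vec z 1 = z := by
  rw [vec0, vec1, div_one]

/-- the height does not depend on the coordinates -/
theorem H3_inv {x : Fin 3 → K} (h1 : x 1 ≠ 0) (hs : x 0 + x 1 + x 2 = 0) :
    H3 x = H3 (vec (x 0 / x 1)) := by
  have hp := log_product_formula (K := K) h1
  obtain ⟨t, ht⟩ : ∃ t : K, t = x 0 / x 1 := ⟨_, rfl⟩
  rw [← ht]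
  have e0 : x 0 = x 1 * t := by rw [ht, mul_div_cancel₀ _ h1]
  have e2 : x 2 = x 1 * (-t - 1) := by
    have : x 2 = -(x 0) - x 1 := by linear_combination hs
    rw [this, e0]
    ring
  have hfin : (Function.support fun v : HeightOneSpectrum (𝓞 K) =>
      Real.log (max (fv v t) 1)).Finite := by
    have := log_max_support_finite (K := K) (aff_ne_zero t)
    refine this.subset ?_
    intro v hv
    simp only [Function.mem_support] at hv ⊢
    intro h
    apply hv
    have h2 : max (fv v (aff t).1) (fv v (aff t).2) = max (fv v t) 1 := by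
      show max (fv v t) (fv v 1) = _
      rw [map_one]
    rw [h2] at h
    exact h
  have hF : ∑ᶠ v : HeightOneSpectrum (𝓞 K), Real.log (max (FinitePlace.mk v (x 0))
      (max (FinitePlace.mk v (x 1)) (FinitePlace.mk v (x 2)))) =
      ∑ᶠ v : HeightOneSpectrum (𝓞 K), Real.log (fv v (x 1)) +
      ∑ᶠ v : HeightOneSpectrum (𝓞 K), Real.log (max (fv v t) 1) := by
    rw [← finsum_add_distrib (log_fv_support_finite h1) hfin]
    refine finsum_congr fun v => ?_
    have hm : (0 : ℝ) < max (fv v t) 1 := lt_max_of_lt_right one_pos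
    rw [max_fv_eq v h1 hs, Real.log_mul ((fv v).pos h1).ne' (by rw [← ht]; exact hm.ne'), ← ht]
  have hG : ∑ᶠ v : HeightOneSpectrum (𝓞 K), Real.log (max (FinitePlace.mk v (vec t 0))
      (max (FinitePlace.mk v (vec t 1)) (FinitePlace.mk v (vec t 2)))) =
      ∑ᶠ v : HeightOneSpectrum (𝓞 K), Real.log (max (fv v t) 1) := by
    refine finsum_congr fun v => ?_
    rw [max_fv_eq v (by rw [vec1]; exact one_ne_zero) (vec_sum t), vec_div, vec1, map_one, one_mul]
  have hA : ∑ w : InfinitePlace K, (w.mult : ℝ) *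
      Real.log (max (w (x 0)) (max (w (x 1)) (w (x 2)))) =
      ∑ w : InfinitePlace K, (w.mult : ℝ) * Real.log (w (x 1)) +
      ∑ w : InfinitePlace K, (w.mult : ℝ) *
        Real.log (max (w (vec t 0)) (max (w (vec t 1)) (w (vec t 2)))) := by
    rw [← Finset.sum_add_distrib]
    refine Finset.sum_congr rfl fun w _ => ?_
    rw [← mul_add]
    congr 1
    have hw1 : 0 < w (x 1) := w.pos_iff.mpr h1
    have hm : (0 : ℝ) < max (w (vec t 0)) (max (w (vec t 1)) (w (vec t 2))) := by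
      refine lt_max_of_lt_right (lt_max_of_lt_left ?_)
      rw [vec1, map_one]
      exact one_pos
    rw [← Real.log_mul hw1.ne' hm.ne', mul_max_of_nonneg _ _ hw1.le, mul_max_of_nonneg _ _ hw1.le,
      ← map_mul, ← map_mul, ← map_mul, vec0, vec1, vec2, ← e0, ← e2, mul_one]
  unfold H3
  rw [hF, hG, hA]
  have hp' : ∑ w : InfinitePlace K, (w.mult : ℝ) * Real.log (w (x 1)) +
      ∑ᶠ v : HeightOneSpectrum (𝓞 K), Real.log (fv v (x 1)) = 0 := hp
  linarith

/-- the radical does not depend on the coordinates -/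
theorem R3_inv {T : Set (Pr K)} (hT : T.Finite) {x : Fin 3 → K}
    (hs : x 0 + x 1 + x 2 = 0) (hne : x 0 * x 1 * x 2 ≠ 0) :
    R3 T x = R3 T (vec (x 0 / x 1)) := by
  classical
  have h0 : x 0 ≠ 0 := fun h => hne (by rw [h]; ring)
  have h1 : x 1 ≠ 0 := fun h => hne (by rw [h]; ring)
  have h2 : x 2 ≠ 0 := fun h => hne (by rw [h]; ring)
  have hz : Pt (x 0 / x 1) := by
    refine ⟨div_ne_zero h0 h1, ?_⟩
    have : x 0 / x 1 + 1 = -(x 2 / x 1) := by
      field_simp
      linear_combination hs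
    rw [this]
    exact neg_ne_zero.2 (div_ne_zero h2 h1)
  obtain ⟨P, hP⟩ := exists_isP hT.toFinset hz
  rw [R3_eq (fun v => by simp) h1 hs hP,
    R3_eq (T' := hT.toFinset) (fun v => by simp) (by rw [vec1]; exact one_ne_zero)
      (vec_sum (x 0 / x 1)) (by rw [vec_div]; exact hP)]

/-- the radical is the counting function of the three points -/
theorem R3_counting {T : Set (Pr K)} (hT : T.Finite) {z : K} (hz : Pt z) :
    R3 T (vec z) = NTc T (al : Fin 3 → K × K) z := by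
  classical
  obtain ⟨P, hP⟩ := exists_isP hT.toFinset hz
  rw [R3_eq (T' := hT.toFinset) (fun v => by simp) (by rw [vec1]; exact one_ne_zero)
      (vec_sum z) (by rw [vec_div]; exact hP)]
  unfold NTc
  have h1 : ∀ v : HeightOneSpectrum (𝓞 K), (∑ᶠ (_ : v ∉ T),
      ∑ l : Fin 3, min (lamA (fv v) (aff z) (al l)) (Real.log (Nv v))) =
      ∑ l : Fin 3, if v ∈ (P l).support then Real.log (Nv v) else 0 := by
    intro v
    have hN : 0 < Real.log (Nv v) := log_Nv_pos v
    rw [finsum_eq_if]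
    by_cases hv : v ∈ T
    · rw [if_neg (not_not.2 hv)]
      symm
      refine Finset.sum_eq_zero fun l _ => ?_
      rw [if_neg]
      rw [Finsupp.mem_support_iff, not_not]
      exact hP.off l v (by simpa using hv)
    · rw [if_pos hv]
      refine Finset.sum_congr rfl fun l _ => ?_
      rw [lamA_P hP l (by simpa using hv)]
      by_cases h : P l v = 0
      · rw [if_neg (by rw [Finsupp.mem_support_iff, not_not]; exact h), h, Nat.cast_zero, zero_mul,
          min_eq_left hN.le]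
      · rw [if_pos (by rw [Finsupp.mem_support_iff]; exact h), min_eq_right]
        have h2 : (1 : ℝ) ≤ P l v := by exact_mod_cast Nat.one_le_iff_ne_zero.2 h
        nlinarith
  rw [finsum_congr h1, finsum_eq_sum_of_support_subset
    (s := ((P 0).support ∪ (P 1).support) ∪ (P 2).support)]
  · rw [Finset.sum_comm, Fin.sum_univ_three]
    unfold rl
    rw [Finset.sum_ite_mem, Finset.sum_ite_mem, Finset.sum_ite_mem,
      Finset.inter_eq_right.2 (Finset.subset_union_left.trans Finset.subset_union_left),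
      Finset.inter_eq_right.2 (Finset.subset_union_right.trans Finset.subset_union_left),
      Finset.inter_eq_right.2 Finset.subset_union_right]
  · intro v hv
    by_contra h4
    apply hv
    rw [Finset.mem_coe, Finset.mem_union, Finset.mem_union, not_or, not_or] at h4
    show (∑ l : Fin 3, if v ∈ (P l).support then Real.log (Nv v) else 0) = 0
    rw [Fin.sum_univ_three, if_neg h4.1.1, if_neg h4.1.2, if_neg h4.2]
    ring

/-- the height of the point with the coordinates `x` -/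
noncomputable def hgt3 (x : Fin 3 → K) : ℝ := H3 x / (Module.finrank ℚ K : ℝ)

/-- the radical of the point with the coordinates `x` -/
noncomputable def rad3 (T : Set (Pr K)) (x : Fin 3 → K) : ℝ := R3 T x / (Module.finrank ℚ K : ℝ)

theorem d_pos : (0 : ℝ) < (Module.finrank ℚ K : ℝ) := by exact_mod_cast Module.finrank_pos

theorem height_eq (z : K) : height z = ht z / (Module.finrank ℚ K : ℝ) := rfl

theorem counting_eq (T : Set (Pr K)) (z : K) :
    counting T (al : Fin 3 → K × K) z =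
      NTc T (al : Fin 3 → K × K) z / (Module.finrank ℚ K : ℝ) := by
  classical
  have hd := d_pos (K := K)
  rw [eq_div_iff hd.ne', mul_comm]
  unfold counting NTc
  rw [mul_finsum]
  refine finsum_congr fun v => ?_
  rw [finsum_eq_if, finsum_eq_if]
  split_ifs with hv
  · rw [mul_zero]
  rw [Finset.mul_sum]
  refine Finset.sum_congr rfl fun l _ => ?_
  rw [mul_min_of_nonneg _ _ hd.le, mul_div_cancel₀ _ hd.ne', mul_div_cancel₀ _ hd.ne']
  rfl

/-- the constant -/
noncomputable def cc (K : Type) [Field K] [NumberField K] : ℝ :=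
  lossK K / (Module.finrank ℚ K : ℝ)

theorem hgt3_bounds (z : K) : height z ≤ hgt3 (vec z) ∧ hgt3 (vec z) ≤ height z + cc K := by
  have hd := d_pos (K := K)
  obtain ⟨h1, h2⟩ := H3_bounds (K := K) (x := vec z) (by rw [vec1]; exact one_ne_zero) (vec_sum z)
  rw [vec_div] at h1 h2
  rw [height_eq]
  unfold hgt3 cc
  rw [← add_div]
  exact ⟨div_le_div_of_nonneg_right h1 hd.le, div_le_div_of_nonneg_right h2 hd.le⟩

theorem rad3_eq {T : Set (Pr K)} (hT : T.Finite) {z : K} (hz : Pt z) :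
    rad3 T (vec z) = counting T (al : Fin 3 → K × K) z := by
  rw [counting_eq]
  unfold rad3
  rw [R3_counting hT hz]

theorem off_iff (z : K) : Pool.Agent.Q38.AE.Many.Off K 3 al z ↔ Pt z := by
  constructor
  · intro h
    have h0 := h 0
    have h2 := h 2
    have e0 : z * (al (0 : Fin 3) : K × K).2 - 1 * (al (0 : Fin 3) : K × K).1 = z := by
      show z * 1 - 1 * 0 = z
      ring
    have e2 : z * (al (2 : Fin 3) : K × K).2 - 1 * (al (2 : Fin 3) : K × K).1 = z + 1 := by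
      show z * 1 - 1 * (-1) = z + 1
      ring
    rw [e0] at h0
    rw [e2] at h2
    exact ⟨h0, h2⟩
  · intro h l
    fin_cases l
    · show z * 1 - 1 * 0 ≠ 0
      rw [mul_one, one_mul, sub_zero]
      exact h.1
    · show z * 0 - 1 * 1 ≠ 0
      rw [mul_zero, mul_one, zero_sub]
      exact neg_ne_zero.2 one_ne_zero
    · show z * 1 - 1 * (-1) ≠ 0
      have : z * 1 - 1 * (-1) = z + 1 := by ring
      rw [this]
      exact h.2

theorem al_ne' : ∀ i : Fin 3, (al i : K × K) ≠ 0 := al_ne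

theorem al_wg : ∀ i j : Fin 3, i ≠ j →
    (al i : K × K).1 * (al j : K × K).2 - (al i : K × K).2 * (al j : K × K).1 ≠ 0 :=
  fun i j h => wg_al_ne i j h

/-- the points over `K` -/
noncomputable def Hh (z : K) : ℝ := hgt3 (vec z)

/-- the radical of the point of `z` -/
noncomputable def Nn (T : Set (Pr K)) (z : K) : ℝ := rad3 T (vec z)

theorem A_sub {T : Set (Pr K)} (hT : T.Finite) {s B : ℝ} (hs : 0 < s) :
    A Pt (Hh (K := K)) (Nn T) s B ⊆
      exceptional T (al : Fin 3 → K × K) (((3 : ℕ) : ℝ) - 1 / s) (1 / s * cc K + 1) B := by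
  rintro z ⟨h1, h2, h3⟩
  obtain ⟨b1, b2⟩ := hgt3_bounds z
  refine ⟨(off_iff z).2 h1, (Real.exp_le_exp.2 b1).trans h2, ?_⟩
  have e : (((3 : ℕ) : ℝ)) - (((3 : ℕ) : ℝ) - 1 / s) = 1 / s := by ring
  rw [e, ← rad3_eq hT h1]
  have h4 : 1 / s * Hh z ≤ 1 / s * (height z + cc K) :=
    mul_le_mul_of_nonneg_left b2 (by positivity)
  have h5 : rad3 T (vec z) < 1 / s * Hh z + 1 := h3
  linarith

section count

open Pool.Agent.Q38.AE.Many Pool.Agent.Results.MP_4d5ce1_nt.ExceptionalSetExponents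

theorem top_three : top 3 = 47 / 77 := by
  unfold top
  norm_num

theorem lowA {T : Set (Pr K)} (hT : T.Finite) {s : ℝ} (h0 : 1 / 3 ≤ s) (hs : s ≤ 1 / 2)
    (δ : ℝ) (hδ : 0 < δ) :
    ∃ C : ℝ, ∀ B : ℝ, 1 ≤ B → (A Pt (Hh (K := K)) (Nn T) s B).Finite ∧
      ((A Pt (Hh (K := K)) (Nn T) s B).ncard : ℝ) ≤
        C * B ^ ((Module.finrank ℚ K : ℝ) * (2 - (3 - 1 / s)) + δ) := by
  have hs0 : 0 < s := by linarith
  have hκ0 : 0 ≤ ((3 : ℕ) : ℝ) - 1 / s := by
    rw [sub_nonneg, div_le_iff₀ hs0]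
    push_cast
    linarith
  have hκ1 : ((3 : ℕ) : ℝ) - 1 / s ≤ 1 := by
    have h1 : 2 ≤ 1 / s := by
      rw [le_div_iff₀ hs0]
      linarith
    push_cast
    linarith
  obtain ⟨hfin, -, hex⟩ := (result K T hT 3 (by norm_num) al al_ne' al_wg
    (((3 : ℕ) : ℝ) - 1 / s) (1 / s * cc K + 1) hκ0).1 (by linarith)
  obtain ⟨hC, -⟩ := hex (Or.inr (Or.inl ⟨rfl, hκ1⟩))
  obtain ⟨C, hC⟩ := hC δ hδ
  refine ⟨C, fun B hB => ⟨(hfin B hB).subset (A_sub hT hs0), ?_⟩⟩
  have h1 : ((A Pt (Hh (K := K)) (Nn T) s B).ncard : ℝ) ≤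
      ((exceptional T (al : Fin 3 → K × K) (((3 : ℕ) : ℝ) - 1 / s) (1 / s * cc K + 1) B).ncard : ℝ) := by
    exact_mod_cast Set.ncard_le_ncard (A_sub hT hs0) (hfin B hB)
  refine (h1.trans (hC B hB)).trans (le_of_eq ?_)
  push_cast
  rfl

theorem highA {T : Set (Pr K)} (hT : T.Finite) {s : ℝ} (h1 : 7 / 15 ≤ s) (h2 : s ≤ 1) (δ : ℝ)
    (hδ : 0 < δ) :
    ∃ C : ℝ, ∀ B : ℝ, 1 ≤ B → (A Pt (Hh (K := K)) (Nn T) s B).Finite ∧
      ((A Pt (Hh (K := K)) (Nn T) s B).ncard : ℝ) ≤
        C * B ^ ((Module.finrank ℚ K : ℝ) *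
          expoThree (3 * (((3 : ℕ) : ℝ) - 1 / s) / ((3 : ℕ) : ℝ)) + δ) := by
  have hs0 : 0 < s := by linarith
  obtain ⟨a1, -, -, -⟩ := slice_top (q := 3) le_rfl (s := s) (by norm_num; linarith)
    (by norm_num; linarith)
  have a2 : ((3 : ℕ) : ℝ) - 1 / s ≤ ((3 : ℕ) : ℝ) := by
    have : 0 < 1 / s := by positivity
    linarith
  obtain ⟨C, hC⟩ := (result K T hT 3 (by norm_num) al al_ne' al_wg
    (((3 : ℕ) : ℝ) - 1 / s) (1 / s * cc K + 1) a1).2 le_rfl a2 δ hδ
  refine ⟨C, fun B hB => ?_⟩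
  obtain ⟨hf, hc⟩ := hC B hB
  refine ⟨hf.subset (A_sub hT hs0), ?_⟩
  have h3 : ((A Pt (Hh (K := K)) (Nn T) s B).ncard : ℝ) ≤
      ((exceptional T (al : Fin 3 → K × K) (((3 : ℕ) : ℝ) - 1 / s) (1 / s * cc K + 1) B).ncard : ℝ) := by
    exact_mod_cast Set.ncard_le_ncard (A_sub hT hs0) hf
  exact h3.trans hc

/-- **The upper bound.** -/
theorem upperN (K : Type) [Field K] [NumberField K] {T : Set (Pr K)} (hT : T.Finite) {M L ε : ℝ}
    (hM : 1 / 3 < M) (hML : M < L) (hL : L ≤ 1 / 2 ∨ (L ≤ 1 ∧ M ≤ 30 / 77)) (hε : 0 < ε) :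
    ∃ C : ℝ, 0 < C ∧ ∀ X : ℝ, 1 ≤ X → (E Pt (Hh (K := K)) (Nn T) M L X).Finite ∧
      ((E Pt (Hh (K := K)) (Nn T) M L X).ncard : ℝ) ≤
        C * X ^ ((Module.finrank ℚ K : ℝ) * (1 - M) + ε) := by
  have hM0 : 0 < M := by linarith
  obtain ⟨d, hd⟩ : ∃ d : ℝ, d = (Module.finrank ℚ K : ℝ) := ⟨_, rfl⟩
  have hd0 : 0 ≤ d := by rw [hd]; exact Nat.cast_nonneg _
  refine cover (G := 2 * d) hM0 hML.le (by positivity) (fun s h1 h2 => ?_) hε
  have hs0 : 0 < s := by linarith
  rcases le_or_gt s (1 / 2) with hcase | hcase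
  · have h3 : 2 ≤ 1 / s := by
      rw [le_div_iff₀ hs0]
      linarith
    have h4 : 1 / s ≤ 3 := by
      rw [div_le_iff₀ hs0]
      linarith
    refine ⟨d * (2 - (3 - 1 / s)), mul_nonneg hd0 (by linarith), ?_, ?_, ?_⟩
    · nlinarith
    · have e1 : s * (d * (2 - (3 - 1 / s))) = d * (1 - s) := by
        field_simp
        ring
      rw [e1, ← hd]
      exact mul_le_mul_of_nonneg_left (by linarith) hd0
    · rw [hd]
      exact lowA hT (by linarith) hcase
  · have hL3 : L ≤ 1 ∧ M ≤ 30 / 77 := by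
      rcases hL with h | h
      · exfalso
        linarith
      · exact h
    obtain ⟨b1, b2, b3, b4⟩ := slice_top (q := 3) le_rfl (s := s) (by norm_num; linarith)
      (by norm_num; linarith)
    rw [top_three] at b4
    refine ⟨d * expoThree (3 * (((3 : ℕ) : ℝ) - 1 / s) / ((3 : ℕ) : ℝ)),
      mul_nonneg hd0 (e_mid0 b2 b3), ?_, ?_, ?_⟩
    · have := e_le_two b2 b3
      nlinarith
    · calc s * (d * expoThree (3 * (((3 : ℕ) : ℝ) - 1 / s) / ((3 : ℕ) : ℝ))) =
            d * (s * expoThree (3 * (((3 : ℕ) : ℝ) - 1 / s) / ((3 : ℕ) : ℝ))) := by ring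
        _ ≤ d * (1 - M) := mul_le_mul_of_nonneg_left (by linarith) hd0
        _ = _ := by rw [hd]
    · rw [hd]
      exact highA hT (by linarith) (h2.trans hL3.1)

/-- **The lower bound.** -/
theorem lowerN (K : Type) [Field K] [NumberField K] {T : Set (Pr K)} (hT : T.Finite) {M L ε : ℝ}
    (hM : 1 / 3 < M) (hML : M < L) (hL : L ≤ 1 / 2 ∨ (L ≤ 1 ∧ M ≤ 30 / 77)) (hε : 0 < ε) :
    ∃ X₀ : ℝ, ∀ X : ℝ, X₀ ≤ X →
      X ^ ((Module.finrank ℚ K : ℝ) * (1 - M) - ε) ≤
        ((F Pt (Hh (K := K)) (Nn T) M L X).ncard : ℝ) := by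
  have hM0 : 0 < M := by linarith
  have hdpos := d_pos (K := K)
  obtain ⟨L', hL1, hL2, hL3⟩ : ∃ L' : ℝ, M < L' ∧ L' ≤ L ∧ L' ≤ 1 / 2 := by
    rcases hL with h | h
    · exact ⟨L, hML, le_rfl, h⟩
    · exact ⟨min L (1 / 2), lt_min hML (by linarith), min_le_left _ _, min_le_right _ _⟩
  have hL'0 : 0 < L' := by linarith
  have hκ0 : 0 ≤ ((3 : ℕ) : ℝ) - 1 / M := by
    rw [sub_nonneg, div_le_iff₀ hM0]
    push_cast
    linarith
  have hinv : 1 / L' < 1 / M := one_div_lt_one_div_of_lt hM0 hL1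
  have h3 : 2 ≤ 1 / L' := by
    rw [le_div_iff₀ hL'0]
    linarith
  have hκ2 : ((3 : ℕ) : ℝ) - 1 / M < 2 := by
    push_cast
    linarith
  obtain ⟨-, hlow, -⟩ := (result K T hT 3 (by norm_num) al al_ne' al_wg
    (((3 : ℕ) : ℝ) - 1 / M) 0 hκ0).1 hκ2
  have hfinE : ∀ X : ℝ, 1 ≤ X → (E Pt (Hh (K := K)) (Nn T) M L X).Finite := by
    obtain ⟨C, -, hC⟩ := upperN K hT hM hML hL one_pos
    exact fun X hX => (hC X hX).1
  have hZ : ∃ C : ℝ, 0 < C ∧ ∀ᶠ B : ℝ in atTop,
      C * B ^ ((Module.finrank ℚ K : ℝ) * (2 - (3 - 1 / M))) ≤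
        (({z | Pt z ∧ Real.exp (Hh z) ≤ B ∧ Nn T z < 1 / M * Hh z} : Set K).ncard : ℝ) := by
    obtain ⟨C, hC, h⟩ := hlow
    obtain ⟨g, hg⟩ : ∃ g : ℝ, g = (Module.finrank ℚ K : ℝ) * (2 - (3 - 1 / M)) := ⟨_, rfl⟩
    have hg' : (Module.finrank ℚ K : ℝ) * (2 - (((3 : ℕ) : ℝ) - 1 / M)) = g := by
      rw [hg]
      push_cast
      rfl
    rw [hg'] at h
    rw [← hg]
    refine ⟨C * (Real.exp (-cc K)) ^ g, by positivity, ?_⟩
    have tB : Tendsto (fun B : ℝ => Real.exp (-cc K) * B) atTop atTop :=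
      tendsto_id.const_mul_atTop (Real.exp_pos _)
    filter_upwards [tB.eventually h, eventually_ge_atTop 1] with B hB hB1
    have hB0 : 0 < B := by linarith
    rw [Real.mul_rpow (Real.exp_pos _).le hB0.le, ← mul_assoc] at hB
    refine hB.trans ?_
    have hsub : exceptional T (al : Fin 3 → K × K) (((3 : ℕ) : ℝ) - 1 / M) 0
        (Real.exp (-cc K) * B) ⊆ {z | Pt z ∧ Real.exp (Hh z) ≤ B ∧ Nn T z < 1 / M * Hh z} := by
      rintro z ⟨k1, k2, k3⟩
      have hz := (off_iff z).1 k1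
      obtain ⟨b1, b2⟩ := hgt3_bounds z
      have e : (((3 : ℕ) : ℝ)) - (((3 : ℕ) : ℝ) - 1 / M) = 1 / M := by ring
      rw [e, add_zero, ← rad3_eq hT hz] at k3
      refine ⟨hz, ?_, ?_⟩
      · calc Real.exp (Hh z) ≤ Real.exp (height z + cc K) := Real.exp_le_exp.2 b2
          _ = Real.exp (height z) * Real.exp (cc K) := Real.exp_add _ _
          _ ≤ Real.exp (-cc K) * B * Real.exp (cc K) :=
              mul_le_mul_of_nonneg_right k2 (Real.exp_pos _).le
          _ = B := by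
              rw [mul_right_comm, ← Real.exp_add, neg_add_cancel, Real.exp_zero, one_mul]
      · exact k3.trans_le (mul_le_mul_of_nonneg_left b1 (by positivity))
    -- finiteness
    have hfin : ({z | Pt z ∧ Real.exp (Hh z) ≤ B ∧ Nn T z < 1 / M * Hh z} : Set K).Finite := by
      obtain ⟨C', hC'⟩ := lowA (K := K) hT (s := M) (by linarith)
        (by linarith) 1 one_pos
      refine (hC' B hB1).1.subset ?_
      rintro z ⟨k1, k2, k3⟩
      exact ⟨k1, k2, k3.trans (lt_add_one _)⟩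
    exact_mod_cast Set.ncard_le_ncard hsub hfin
  have h1 := lower (L := L) (g := (Module.finrank ℚ K : ℝ) * (2 - (3 - 1 / M)))
    (g' := (Module.finrank ℚ K : ℝ) * (2 - (3 - 1 / L'))) hM0 hL1 hL2
    (fun z _ => (Pool.Agent.Q38.AE.Many.height_nonneg K z).trans (hgt3_bounds z).1) hZ hfinE
    (lowA hT (by linarith) hL3) (mul_lt_mul_of_pos_left (by linarith) hdpos) hε
  obtain ⟨X₀, hX₀⟩ := h1
  refine ⟨X₀, fun X hX => ?_⟩
  have h2 := hX₀ X hX
  have e1 : M * ((Module.finrank ℚ K : ℝ) * (2 - (3 - 1 / M))) =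
      (Module.finrank ℚ K : ℝ) * (1 - M) := by
    field_simp
    ring
  rw [e1] at h2
  exact h2

end count

/-- the point of `z` -/
def pt (z : K) : Projectivization K (Fin 3 → K) := Projectivization.mk K (vec z) (vec_ne z)

theorem pt_inj : Function.Injective (pt (K := K)) := by
  intro z z' h
  unfold pt at h
  rw [Projectivization.mk_eq_mk_iff'] at h
  obtain ⟨a, ha⟩ := h
  have h1 := congrFun ha 1
  have h0 := congrFun ha 0
  rw [Pi.smul_apply, vec1, vec1, smul_eq_mul, mul_one] at h1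
  rw [Pi.smul_apply, vec0, vec0, smul_eq_mul, h1, one_mul] at h0
  exact h0.symm

/-- the points with a property of height and radical -/
theorem image_eq {T : Set (Pr K)} (hT : T.Finite) (Q : ℝ → ℝ → Prop) :
    {P : Projectivization K (Fin 3 → K) | ∃ (x : Fin 3 → K) (hx : x ≠ 0),
      P = Projectivization.mk K x hx ∧ x 0 + x 1 + x 2 = 0 ∧ x 0 * x 1 * x 2 ≠ 0 ∧
      Q (hgt3 x) (rad3 T x)} = pt '' {z | Pt z ∧ Q (Hh z) (Nn T z)} := by
  ext P
  constructor
  · rintro ⟨x, hx, rfl, hs, hne, hQ⟩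
    have h0 : x 0 ≠ 0 := fun h => hne (by rw [h]; ring)
    have h1 : x 1 ≠ 0 := fun h => hne (by rw [h]; ring)
    have h2 : x 2 ≠ 0 := fun h => hne (by rw [h]; ring)
    have hz : Pt (x 0 / x 1) := by
      refine ⟨div_ne_zero h0 h1, ?_⟩
      have : x 0 / x 1 + 1 = -(x 2 / x 1) := by
        field_simp
        linear_combination hs
      rw [this]
      exact neg_ne_zero.2 (div_ne_zero h2 h1)
    refine ⟨x 0 / x 1, ⟨hz, ?_⟩, ?_⟩
    · have e1 : Hh (x 0 / x 1) = hgt3 x := by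
        unfold Hh hgt3
        rw [← H3_inv h1 hs]
      have e2 : Nn T (x 0 / x 1) = rad3 T x := by
        unfold Nn rad3
        rw [← R3_inv hT hs hne]
      rw [e1, e2]
      exact hQ
    · unfold pt
      rw [Projectivization.mk_eq_mk_iff']
      refine ⟨(x 1)⁻¹, ?_⟩
      funext i
      rw [Pi.smul_apply, smul_eq_mul]
      fin_cases i
      · show (x 1)⁻¹ * x 0 = x 0 / x 1
        field_simp
      · show (x 1)⁻¹ * x 1 = 1
        field_simp
      · show (x 1)⁻¹ * x 2 = -(x 0 / x 1) - 1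
        field_simp
        linear_combination hs
  · rintro ⟨z, ⟨hz, hQ⟩, rfl⟩
    exact ⟨vec z, vec_ne z, rfl, vec_sum z, vec_prod hz, hQ⟩

end Pool.Agent.Q38.AE.NF
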