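import Pool.Agent.Q38.AE.Line

/-! The elements `x ≠ 0, 1` of a number field, ordered by `cond(x) + cond(1/x) + cond(x - 1)`. -/

set_option autoImplicit false
set_option linter.unusedSectionVars false

namespace Pool.Agent.Q38.AE.Num

open Filter Topology NumberField IsDedekindDomain
open Pool.Agent.H691R3
open Pool.Agent.TH876.Loc
open Pool.Agent.TH876.KR (form localHeight m2 localHeight_nonneg log_Nv_pos' localHeight_pos_iff)
open Pool.Agent.Q38.AE.Cov
open Pool.Agent.Q38.AE.Line (pr vz lh_lam wedge_form ne_of_form vz_ne pr_ne)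
open Pool.Agent.Results.MP_4d5ce1_nt.ExceptionalSetExponents (height counting exceptional)

variable {K : Type} [Field K] [NumberField K]

/-- the three points `0`, `∞`, `1` -/
def a3 (K : Type) [Field K] : Fin 3 → Fin 2 → K := ![![0, 1], ![1, 0], ![1, 1]]

/-- the three pairs -/
def al3 (K : Type) [Field K] : Fin 3 → K × K := fun l => pr (a3 K l)

theorem al3_0 : al3 K 0 = (0, 1) := rfl
theorem al3_1 : al3 K 1 = (1, 0) := rfl
theorem al3_2 : al3 K 2 = (1, 1) := rfl

theorem al3_ne : ∀ i, al3 K i ≠ 0 := by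
  intro i h
  fin_cases i
  · exact one_ne_zero (congrArg Prod.snd h)
  · exact one_ne_zero (congrArg Prod.fst h)
  · exact one_ne_zero (congrArg Prod.fst h)

theorem al3_dist : ∀ i j, i ≠ j →
    (al3 K i).1 * (al3 K j).2 - (al3 K i).2 * (al3 K j).1 ≠ 0 := by
  intro i j hij
  fin_cases i <;> fin_cases j <;> first
    | exact absurd rfl hij
    | (simp [al3, a3, pr])

theorem off_iff (x : K) : Pool.Agent.Q38.AE.Many.Off K 3 (al3 K) x ↔ x ≠ 0 ∧ x ≠ 1 := by
  constructor
  · intro h
    have h0 := h 0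
    have h2 := h 2
    have e0 : x * (al3 K 0).2 - 1 * (al3 K 0).1 = x := by
      show x * 1 - 1 * 0 = x
      ring
    have e2 : x * (al3 K 2).2 - 1 * (al3 K 2).1 = x - 1 := by
      show x * 1 - 1 * 1 = x - 1
      ring
    rw [e0] at h0
    rw [e2, sub_ne_zero] at h2
    exact ⟨h0, h2⟩
  · intro h l
    fin_cases l
    · show x * 1 - 1 * 0 ≠ 0
      rw [mul_one, one_mul, sub_zero]
      exact h.1
    · show x * 0 - 1 * 1 ≠ 0
      rw [mul_zero, mul_one, zero_sub]
      exact neg_ne_zero.2 one_ne_zero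
    · show x * 1 - 1 * 1 ≠ 0
      rw [mul_one, one_mul, sub_ne_zero]
      exact h.2

/-- the contribution of a prime -/
noncomputable def ind (v : Pr K) (x : K) : ℝ :=
  if FinitePlace.mk v x < 1 then Real.log (Ideal.absNorm v.asIdeal : ℝ) else 0

theorem ind_eq' {v : Pr K} {x : K} {a b : ℝ} (h : a < b ↔ fv v x < 1) :
    (if a < b then Real.log (Nv v) else 0) = ind v x := by
  unfold ind
  by_cases hc : fv v x < 1
  · rw [if_pos (h.2 hc)]
    exact (if_pos hc).symm
  · rw [if_neg fun h' => hc (h.1 h')]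
    exact (if_neg hc).symm

/-- the sum over the primes at which `x` has a positive valuation -/
noncomputable def cd (x : K) : ℝ := ∑ᶠ v : HeightOneSpectrum (𝓞 K), ind v x

theorem cd_supp {x : K} (hx : x ≠ 0) :
    (Function.support fun v : HeightOneSpectrum (𝓞 K) => ind v x).Finite := by
  refine (fv_support_finite hx).subset ?_
  intro v hv
  by_contra h
  apply hv
  have h1 : FinitePlace.mk v x = 1 := by
    by_contra h2
    exact h h2
  show ind v x = 0
  unfold ind
  rw [h1, if_neg (lt_irrefl _)]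

theorem min_lam (v : Pr K) {a x : Fin 2 → K} (h : form a x ≠ 0) :
    min (lamA (fv v) (pr x) (pr a)) (Real.log (Nv v)) =
      if fv v (form a x) < m2 v a * m2 v x then Real.log (Nv v) else 0 := by
  have hN : 0 < Real.log (Nv v) := log_Nv_pos' v
  rw [← lh_lam]
  split_ifs with hc
  · refine min_eq_right ?_
    have hpos := (localHeight_pos_iff v h).2 hc
    have h1 : (pr x).1 * (pr a).2 - (pr x).2 * (pr a).1 ≠ 0 := by
      rw [wedge_form]
      exact neg_ne_zero.2 h
    obtain ⟨m, hm⟩ := lamF_discrete v (pr_ne (ne_of_form h).2) (pr_ne (ne_of_form h).1) h1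
    rw [← lh_lam] at hm
    rw [hm] at hpos ⊢
    have h2 : (1 : ℝ) ≤ m := by
      rcases Nat.eq_zero_or_pos m with h3 | h3
      · rw [h3, Nat.cast_zero, zero_mul] at hpos
        exact absurd hpos (lt_irrefl _)
      · exact_mod_cast h3
    nlinarith
  · have h1 : localHeight v a x = 0 :=
      le_antisymm (not_lt.1 fun h' => hc ((localHeight_pos_iff v h).1 h')) (localHeight_nonneg v h)
    rw [h1, min_eq_left hN.le]

theorem fv_one (v : Pr K) : fv v (1 : K) = 1 := map_one _

theorem fv_zero (v : Pr K) : fv v (0 : K) = 0 := map_zero _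

theorem c0 (v : Pr K) (x : K) :
    fv v (form (a3 K 0) (vz x)) < m2 v (a3 K 0) * m2 v (vz x) ↔ fv v x < 1 := by
  have e1 : form (a3 K 0) (vz x) = -x := by
    show (0 : K) * 1 - 1 * x = -x
    ring
  have e2 : m2 v (a3 K 0) = 1 := by
    show max (fv v 0) (fv v 1) = 1
    rw [fv_one, fv_zero]
    exact max_eq_right zero_le_one
  have e3 : m2 v (vz x) = max (fv v x) 1 := by
    show max (fv v x) (fv v 1) = _
    rw [fv_one]
  rw [e1, (fv v).map_neg, e2, e3, one_mul, lt_max_iff]
  constructor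
  · rintro (h | h)
    · exact absurd h (lt_irrefl _)
    · exact h
  · exact Or.inr

theorem c1 (v : Pr K) {x : K} (hx : x ≠ 0) :
    fv v (form (a3 K 1) (vz x)) < m2 v (a3 K 1) * m2 v (vz x) ↔ fv v x⁻¹ < 1 := by
  have e1 : form (a3 K 1) (vz x) = 1 := by
    show (1 : K) * 1 - 0 * x = 1
    ring
  have e2 : m2 v (a3 K 1) = 1 := by
    show max (fv v 1) (fv v 0) = 1
    rw [fv_one, fv_zero]
    exact max_eq_left zero_le_one
  have e3 : m2 v (vz x) = max (fv v x) 1 := by
    show max (fv v x) (fv v 1) = _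
    rw [fv_one]
  rw [e1, fv_one, e2, e3, one_mul, lt_max_iff, map_inv₀]
  have hpos : 0 < fv v x := (fv v).pos hx
  rw [inv_lt_one₀ hpos]
  constructor
  · rintro (h | h)
    · exact h
    · exact absurd h (lt_irrefl _)
  · exact Or.inl

theorem c2 (v : Pr K) (x : K) :
    fv v (form (a3 K 2) (vz x)) < m2 v (a3 K 2) * m2 v (vz x) ↔ fv v (x - 1) < 1 := by
  have e1 : form (a3 K 2) (vz x) = -(x - 1) := by
    show (1 : K) * 1 - 1 * x = -(x - 1)
    ring
  have e2 : m2 v (a3 K 2) = 1 := by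
    show max (fv v 1) (fv v 1) = 1
    rw [fv_one]
    exact max_self _
  have e3 : m2 v (vz x) = max (fv v x) 1 := by
    show max (fv v x) (fv v 1) = _
    rw [fv_one]
  rw [e1, (fv v).map_neg, e2, e3, one_mul]
  constructor
  · intro h
    by_contra hcon
    push Not at hcon
    -- `|x - 1| ≥ 1` and `|x - 1| < max |x| 1`
    have h1 : 1 < max (fv v x) 1 := lt_of_le_of_lt hcon h
    have h2 : 1 < fv v x := by
      rcases lt_max_iff.1 h1 with h3 | h3
      · exact h3
      · exact absurd h3 (lt_irrefl _)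
    rw [max_eq_left h2.le] at h
    have h3 : fv v x ≤ max (fv v (x - 1)) (fv v 1) := by
      have := fv_na v (x - 1) 1
      rwa [sub_add_cancel] at this
    rw [fv_one] at h3
    rcases le_max_iff.1 h3 with h4 | h4
    · linarith
    · linarith
  · intro h
    have h3 : fv v (x - 1) < 1 := h
    exact lt_of_lt_of_le h3 (le_max_right _ _)

theorem term_eq (v : Pr K) {x : K} (h0 : x ≠ 0)
    (hf : ∀ l, form (a3 K l) (vz x) ≠ 0) :
    ∑ l : Fin 3, min (lamA (fv v) (aff x) (al3 K l)) (Real.log (Nv v)) =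
      ind v x + ind v x⁻¹ + ind v (x - 1) := by
  have key : ∀ l, min (lamA (fv v) (aff x) (al3 K l)) (Real.log (Nv v)) =
      if fv v (form (a3 K l) (vz x)) < m2 v (a3 K l) * m2 v (vz x) then Real.log (Nv v) else 0 := by
    intro l
    show min (lamA (fv v) (pr (vz x)) (pr (a3 K l))) (Real.log (Nv v)) = _
    exact min_lam v (hf l)
  rw [Fin.sum_univ_three, key, key, key, ind_eq' (c0 v x), ind_eq' (c1 v h0), ind_eq' (c2 v x)]

theorem out_eq (v : Pr K) (y : ℝ) : ∑ᶠ (_ : v ∉ (∅ : Set (Pr K))), y = y := by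
  let _ : Decidable (v ∉ (∅ : Set (Pr K))) := Classical.dec _
  rw [finsum_eq_if, if_pos (Set.notMem_empty v)]

theorem NTc_cd {x : K} (h0 : x ≠ 0) (h1 : x ≠ 1) :
    NTc ∅ (al3 K) x = cd x + cd x⁻¹ + cd (x - 1) := by
  have hoff := (off_iff x).2 ⟨h0, h1⟩
  have hf : ∀ l, form (a3 K l) (vz x) ≠ 0 := by
    intro l h
    apply hoff l
    have e : x * (al3 K l).2 - 1 * (al3 K l).1 = -form (a3 K l) (vz x) := by
      show x * a3 K l 1 - 1 * a3 K l 0 = -(a3 K l 0 * 1 - a3 K l 1 * x)
      ring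
    rw [e, h, neg_zero]
  have s0 := cd_supp h0
  have s1 := cd_supp (inv_ne_zero h0)
  have s2 := cd_supp (sub_ne_zero.2 h1)
  have s01 : (Function.support fun v : HeightOneSpectrum (𝓞 K) => ind v x + ind v x⁻¹).Finite := by
    refine (s0.union s1).subset ?_
    intro v hv
    by_contra hcon
    rw [Set.mem_union, not_or, Function.mem_support, Function.mem_support, not_not, not_not] at hcon
    apply hv
    show ind v x + ind v x⁻¹ = 0
    rw [hcon.1, hcon.2, add_zero]
  have e1 : NTc ∅ (al3 K) x = ∑ᶠ v : HeightOneSpectrum (𝓞 K),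
      (ind v x + ind v x⁻¹ + ind v (x - 1)) := by
    unfold NTc
    refine finsum_congr fun v => ?_
    rw [out_eq, term_eq v h0 hf]
  rw [e1, finsum_add_distrib s01 s2, finsum_add_distrib s0 s1]
  rfl

theorem counting_cd {x : K} (h0 : x ≠ 0) (h1 : x ≠ 1) :
    counting ∅ (al3 K) x = (cd x + cd x⁻¹ + cd (x - 1)) / (Module.finrank ℚ K : ℝ) := by
  rw [Pool.Agent.Q38.AE.Line.counting_eq, NTc_cd h0 h1]

end Pool.Agent.Q38.AE.Num
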