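import Pool.Agent.Q38.AE.Lower
import Pool.Agent.Y680.S.Top

/-! Semistable elliptic curves with full rational 2-torsion, conductor at most `X` and discriminant
at least `N ^ κ`: the exact exponent for `κ ≤ 18 / 7` and discriminants polynomial in `X`. -/

set_option autoImplicit false

namespace Pool.Agent.Q38.AE.Semi

open Finset Filter Topology Pool.Agent.W221.ABC7 Pool.Agent.Y680.S Pool.Agent.H925R.Szpiro

/-- the curves with conductor `N ≤ X` and `N ^ κ ≤ |Δ| ≤ X ^ K` -/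
def EK (κ K X : ℝ) : Set (ℤ × ℤ) :=
  {q | ∃ W : WeierstrassCurve ℤ, W.Δ ≠ 0 ∧ IsCoprime W.c₄ W.Δ ∧ Full W ∧ q = (W.c₄, W.c₆) ∧
    (Pool.Agent.H925R.Szpiro.cond W : ℝ) ≤ X ∧
    (Pool.Agent.H925R.Szpiro.cond W : ℝ) ^ κ ≤ |(W.Δ : ℝ)| ∧ |(W.Δ : ℝ)| ≤ X ^ K}

/-- the curves with conductor `N ≤ X` and `N ^ κ ≤ |Δ| < N ^ K` -/
def EB (κ K X : ℝ) : Set (ℤ × ℤ) :=
  {q | ∃ W : WeierstrassCurve ℤ, W.Δ ≠ 0 ∧ IsCoprime W.c₄ W.Δ ∧ Full W ∧ q = (W.c₄, W.c₆) ∧
    (Pool.Agent.H925R.Szpiro.cond W : ℝ) ≤ X ∧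
    (Pool.Agent.H925R.Szpiro.cond W : ℝ) ^ κ ≤ |(W.Δ : ℝ)| ∧
    |(W.Δ : ℝ)| < (Pool.Agent.H925R.Szpiro.cond W : ℝ) ^ K}

theorem SC_fin (X : ℝ) : (SC X).Finite := by
  rw [SC_eq]
  exact (GT_finite X).image _

theorem EK_fin (κ K X : ℝ) : (EK κ K X).Finite := by
  refine (SC_fin X).subset ?_
  rintro q ⟨W, h1, h2, h3, h4, h5, -⟩
  exact ⟨W, h1, h2, h3, h4, h5⟩

theorem EB_sub {κ K X : ℝ} (hK : 0 ≤ K) : EB κ K X ⊆ EK κ K X := by
  rintro q ⟨W, h1, h2, h3, h4, h5, h6, h7⟩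
  exact ⟨W, h1, h2, h3, h4, h5, h6, h7.le.trans (Real.rpow_le_rpow (Nat.cast_nonneg _) h5 hK)⟩

/-- the upper bound -/
theorem EK_le {κ K X : ℝ} (hκ : 2 < κ) (hκ3 : κ ≤ 3) (hX : 1 ≤ X) :
    (EK κ K X).ncard ≤ (exc (κ / 6) (max K 0 / 2 + 4) (2 * X)).ncard := by
  have hX0 : 0 < X := by linarith
  have hfin : (exc (κ / 6) (max K 0 / 2 + 4) (2 * X)).Finite := exc_fin _ _ _
  have hsub : EK κ K X ⊆ ff '' exc (κ / 6) (max K 0 / 2 + 4) (2 * X) := by
    rintro q ⟨W, w1, w2, w3, rfl, w5, w6, w7⟩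
    obtain ⟨p, a1, a2, a3, a4, a5, a6⟩ := exists_pair W w1 w2 w3
    have hp : p ∈ GT th X := ⟨a1, a2, a3, (cond_iff a1 (by omega) a3 a4 a6 X).1 w5⟩
    have hp' := GT_sub hX0.le hp
    obtain ⟨c, hc⟩ : ∃ c : ℝ, c = ((p.1 + p.2 : ℕ) : ℝ) := ⟨_, rfl⟩
    have b1 : (1 : ℝ) ≤ p.1 := by exact_mod_cast a1
    have b2 : (p.1 : ℝ) ≤ p.2 := by exact_mod_cast a2
    have hc2 : 2 ≤ c := by rw [hc]; push_cast; linarith
    have hD : 256 * (W.Δ : ℝ) = ((p.1 : ℝ) * p.2 * (p.1 + p.2)) ^ 2 := by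
      have := a6
      exact_mod_cast this
    have hD0 : 0 ≤ (W.Δ : ℝ) := by
      have : 0 ≤ ((p.1 : ℝ) * p.2 * (p.1 + p.2)) ^ 2 := sq_nonneg _
      linarith
    refine ⟨p, ⟨⟨a1, a2, a3, hp'.2.2.2⟩, ?_, ?_⟩, a5.symm⟩
    · by_contra hcon
      rw [not_le] at hcon
      rw [← hc] at hcon
      have hD1 : (W.Δ : ℝ) ≤ c ^ 6 / 4096 := by
        have h2 : (p.1 : ℝ) * p.2 ≤ c ^ 2 / 4 := by
          rw [hc]
          push_cast
          nlinarith [sq_nonneg ((p.1 : ℝ) - p.2)]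
        have h3 : (p.1 : ℝ) * p.2 * (p.1 + p.2) ≤ c ^ 2 / 4 * c := by
          refine mul_le_mul h2 ?_ (by positivity) (by positivity)
          rw [hc]
          push_cast
          exact le_rfl
        have h4 : ((p.1 : ℝ) * p.2 * (p.1 + p.2)) ^ 2 ≤ (c ^ 2 / 4 * c) ^ 2 :=
          pow_le_pow_left₀ (by positivity) h3 2
        nlinarith
      have hr : (rad3 p : ℝ) ≤ 2 * Pool.Agent.H925R.Szpiro.cond W := by
        have h2 := (cond_iff a1 (by omega) a3 a4 a6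
          (Pool.Agent.H925R.Szpiro.cond W : ℝ)).1 le_rfl
        refine le_trans ?_ (mul_le_mul_of_nonneg_right
          (th_le (Pool.Agent.TH498.AR.psi3 ∅ p)) (Nat.cast_nonneg _))
        exact h2
      have hr1 : (1 : ℝ) ≤ rad3 p := rd_pos' _
      have hN1 : (1 : ℝ) ≤ Pool.Agent.H925R.Szpiro.cond W := rd_pos' _
      have h5 : c ^ 6 ≤ (rad3 p : ℝ) ^ κ := by
        have h6 : c ^ 6 ≤ ((rad3 p : ℝ) ^ (κ / 6)) ^ 6 :=
          pow_le_pow_left₀ (by linarith) hcon.le 6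
        have h7 : ((rad3 p : ℝ) ^ (κ / 6)) ^ 6 = (rad3 p : ℝ) ^ κ := by
          rw [← Real.rpow_natCast ((rad3 p : ℝ) ^ (κ / 6)) 6, ← Real.rpow_mul (by positivity)]
          congr 1
          push_cast
          ring
        rw [h7] at h6
        exact h6
      have h8 : (rad3 p : ℝ) ^ κ ≤ 8 * (Pool.Agent.H925R.Szpiro.cond W : ℝ) ^ κ := by
        calc (rad3 p : ℝ) ^ κ ≤ (2 * (Pool.Agent.H925R.Szpiro.cond W : ℝ)) ^ κ :=
              Real.rpow_le_rpow (by positivity) hr (by linarith)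
          _ = 2 ^ κ * (Pool.Agent.H925R.Szpiro.cond W : ℝ) ^ κ := Real.mul_rpow (by norm_num)
              (by positivity)
          _ ≤ 2 ^ (3 : ℝ) * (Pool.Agent.H925R.Szpiro.cond W : ℝ) ^ κ := by
              refine mul_le_mul_of_nonneg_right ?_ (by positivity)
              exact Real.rpow_le_rpow_of_exponent_le (by norm_num) (by linarith)
          _ = _ := by norm_num
      have h10 : 0 < (Pool.Agent.H925R.Szpiro.cond W : ℝ) ^ κ := by positivity
      rw [abs_of_nonneg hD0] at w6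
      linarith
    · rw [← hc]
      rw [abs_of_nonneg hD0] at w7
      have h1 : c ≤ (p.1 : ℝ) * p.2 * (p.1 + p.2) := by
        rw [hc]
        push_cast
        have h0 : (1 : ℝ) ≤ (p.1 : ℝ) * p.2 := by nlinarith
        exact le_mul_of_one_le_left (by positivity) h0
      have h2 : c ^ 2 ≤ 256 * X ^ K := by
        calc c ^ 2 ≤ ((p.1 : ℝ) * p.2 * (p.1 + p.2)) ^ 2 := pow_le_pow_left₀ (by linarith) h1 2
          _ = 256 * (W.Δ : ℝ) := hD.symm
          _ ≤ 256 * X ^ K := by linarith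
      have h3 : 256 * X ^ K ≤ ((2 * X) ^ (max K 0 / 2 + 4)) ^ 2 := by
        have e : ((2 * X) ^ (max K 0 / 2 + 4)) ^ 2 = 2 ^ (max K 0 + 8) * X ^ (max K 0 + 8) := by
          rw [← Real.rpow_natCast, ← Real.rpow_mul (by positivity), ← Real.mul_rpow
            (by norm_num) hX0.le]
          congr 1
          push_cast
          ring
        rw [e]
        have h4 : (256 : ℝ) ≤ 2 ^ (max K 0 + 8) := by
          calc (256 : ℝ) = 2 ^ (8 : ℝ) := by norm_num
            _ ≤ _ := Real.rpow_le_rpow_of_exponent_le (by norm_num)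
                (by linarith [le_max_right K 0])
        have h5 : X ^ K ≤ X ^ (max K 0 + 8) :=
          Real.rpow_le_rpow_of_exponent_le hX (by linarith [le_max_left K 0])
        exact mul_le_mul h4 h5 (by positivity) (by positivity)
      exact le_of_sq_le_sq (h2.trans h3) (by positivity)
  exact (Set.ncard_le_ncard hsub (hfin.image _)).trans (Set.ncard_image_le hfin)

theorem upperE {κ K ε : ℝ} (hκ : 2 < κ) (hκ1 : κ ≤ 18 / 7) (hε : 0 < ε) :
    ∃ C : ℝ, 0 < C ∧ ∀ X : ℝ, 1 ≤ X →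
      ((EK κ K X).ncard : ℝ) ≤ C * X ^ (1 - κ / 6 + ε) := by
  obtain ⟨C, hC, h⟩ := upper (M := κ / 6) (K := max K 0 / 2 + 4) (L := 1 - κ / 6) (ε := ε)
    (by linarith) (by linarith [le_max_right K 0])
    (fun s h1 h2 => (f_le (by linarith)).trans (max_le (by linarith) (by linarith))) hε
  refine ⟨C * 2 ^ (1 - κ / 6 + ε), by positivity, fun X hX => ?_⟩
  have hX0 : 0 < X := by linarith
  calc ((EK κ K X).ncard : ℝ) ≤ ((exc (κ / 6) (max K 0 / 2 + 4) (2 * X)).ncard : ℝ) :=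
        Nat.cast_le.2 (EK_le hκ (by linarith) hX)
    _ ≤ C * (2 * X) ^ (1 - κ / 6 + ε) := h (2 * X) (by linarith)
    _ = _ := by
        rw [Real.mul_rpow (by norm_num) hX0.le]
        ring

/-- the curve of the pair `(16 m² k, n² l)` -/
theorem prime_curve {m k n l : ℕ} (hm : m.Prime) (hk : k.Prime) (hn : n.Prime) (hl : l.Prime)
    (hab : 16 * (m ^ 2 * k) ≤ n ^ 2 * l) (hcop : Nat.Coprime (16 * (m ^ 2 * k)) (n ^ 2 * l))
    {κ X P Z : ℝ} (hκ : 2 < κ) (hP : 0 < P)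
    (hmP : P ≤ (m : ℝ) * n) (hc : ((16 * (m ^ 2 * k) + n ^ 2 * l : ℕ) : ℝ) ≤ Z)
    (hZP : Z ^ 3 = X * P) (hPX : P ^ κ = (X * P) ^ (κ - 2)) :
    (16 * (m ^ 2 * k), n ^ 2 * l) ∈ GT th X ∧ ∃ W : WeierstrassCurve ℤ, W.Δ ≠ 0 ∧
      IsCoprime W.c₄ W.Δ ∧ Full W ∧ ff (16 * (m ^ 2 * k), n ^ 2 * l) = (W.c₄, W.c₆) ∧
      256 * W.Δ = (((16 * (m ^ 2 * k) * (n ^ 2 * l) * (16 * (m ^ 2 * k) + n ^ 2 * l) : ℕ)) : ℤ) ^ 2 ∧
      (Pool.Agent.H925R.Szpiro.cond W : ℝ) ≤ X ∧
      (Pool.Agent.H925R.Szpiro.cond W : ℝ) ^ κ ≤ |(W.Δ : ℝ)| := by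
  have hm0 := hm.pos
  have hk0 := hk.pos
  have hn0 := hn.pos
  have hl0 := hl.pos
  have ha0 : 0 < 16 * (m ^ 2 * k) := by positivity
  have hb0 : 0 < n ^ 2 * l := by positivity
  obtain ⟨s, hs⟩ : ∃ s : ℕ, s = 16 * (m ^ 2 * k) + n ^ 2 * l := ⟨_, rfl⟩
  have hs0 : 0 < s := by omega
  have h16 : 16 ∣ 16 * (m ^ 2 * k) * (n ^ 2 * l) * (16 * (m ^ 2 * k) + n ^ 2 * l) :=
    ((dvd_mul_right 16 _).mul_right _).mul_right _
  obtain ⟨W, w1, w2, w3, w4, w5⟩ := curve_of (p := (16 * (m ^ 2 * k), n ^ 2 * l)) ha0 hab hcop h16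
  obtain ⟨K, hK⟩ : ∃ K : ℕ, K = m ^ 2 * k * (n ^ 2 * l) * s := ⟨_, rfl⟩
  have hK0 : 0 < K := by rw [hK]; positivity
  have hΔ : W.Δ = (K : ℤ) ^ 2 := by
    have : 256 * W.Δ = 256 * (K : ℤ) ^ 2 := by
      rw [w5, hK, hs]
      push_cast
      ring
    linarith
  have hcond : Pool.Agent.H925R.Szpiro.cond W = radical K := by
    unfold Pool.Agent.H925R.Szpiro.cond radical
    rw [hΔ, Int.natAbs_pow, Int.natAbs_natCast, Nat.primeFactors_pow _ (by norm_num)]
  -- the radical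
  have hrd : m * n * radical K ≤ K := by
    have h1 : radical K ∣ m * k * (n * l) * s := by
      have h2 : K.primeFactors = (m * k * (n * l) * s).primeFactors := by
        rw [hK, Nat.primeFactors_mul (by positivity) (by positivity),
          Nat.primeFactors_mul (by positivity) (by positivity),
          Nat.primeFactors_mul (by positivity) (by positivity),
          Nat.primeFactors_mul (a := n ^ 2) (by positivity) (by positivity),
          Nat.primeFactors_mul (a := m * k * (n * l)) (by positivity) (by positivity),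
          Nat.primeFactors_mul (a := m * k) (by positivity) (by positivity),
          Nat.primeFactors_mul (a := m) (by positivity) (by positivity),
          Nat.primeFactors_mul (a := n) (by positivity) (by positivity),
          Nat.primeFactors_pow _ (by norm_num), Nat.primeFactors_pow _ (by norm_num)]
      unfold radical
      rw [h2]
      exact Nat.prod_primeFactors_dvd _
    calc m * n * radical K ≤ m * n * (m * k * (n * l) * s) :=
          Nat.mul_le_mul_left _ (Nat.le_of_dvd (by positivity) h1)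
      _ = K := by rw [hK]; ring
  have hrd' : (radical K : ℝ) ≤ K / P := by
    rw [le_div_iff₀ hP]
    have e1 : (m : ℝ) * n * radical K ≤ K := by exact_mod_cast hrd
    calc (radical K : ℝ) * P ≤ (radical K : ℝ) * (m * n) :=
          mul_le_mul_of_nonneg_left hmP (Nat.cast_nonneg _)
      _ = m * n * radical K := mul_comm _ _
      _ ≤ K := e1
  have hKZ : (K : ℝ) ≤ Z ^ 3 := by
    have e1 : K ≤ s ^ 3 := by
      rw [hK]
      calc m ^ 2 * k * (n ^ 2 * l) * s ≤ s * s * s :=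
            Nat.mul_le_mul_right _ (Nat.mul_le_mul (by omega) (by omega))
        _ = s ^ 3 := by ring
    have e2 : (K : ℝ) ≤ (s : ℝ) ^ 3 := by exact_mod_cast e1
    rw [← hs] at hc
    exact e2.trans (pow_le_pow_left₀ (Nat.cast_nonneg _) hc 3)
  have hKr : (0 : ℝ) < K := by exact_mod_cast hK0
  have hN : (Pool.Agent.H925R.Szpiro.cond W : ℝ) ≤ X := by
    rw [hcond]
    refine hrd'.trans ?_
    rw [div_le_iff₀ hP, ← hZP]
    exact hKZ
  refine ⟨⟨ha0, hab, hcop, ?_⟩, W, w1, w2, w3, w4.symm, w5, hN, ?_⟩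
  · exact (cond_iff (p := (16 * (m ^ 2 * k), n ^ 2 * l)) ha0 hb0 hcop h16 w5 X).1 hN
  · rw [hcond, hΔ]
    push_cast
    rw [abs_of_nonneg (by positivity)]
    calc (radical K : ℝ) ^ κ ≤ ((K : ℝ) / P) ^ κ :=
          Real.rpow_le_rpow (Nat.cast_nonneg _) hrd' (by linarith)
      _ = (K : ℝ) ^ κ / P ^ κ := Real.div_rpow hKr.le hP.le _
      _ ≤ (K : ℝ) ^ 2 := by
          rw [div_le_iff₀ (by positivity)]
          have e1 : (K : ℝ) ^ κ = (K : ℝ) ^ 2 * (K : ℝ) ^ (κ - 2) := by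
            rw [← Real.rpow_natCast, ← Real.rpow_add hKr]
            congr 1
            push_cast
            ring
          rw [e1, hPX]
          refine mul_le_mul_of_nonneg_left ?_ (by positivity)
          refine Real.rpow_le_rpow hKr.le ?_ (by linarith)
          rw [← hZP]
          exact hKZ

/-- **Many curves.** -/
theorem many_semi {κ ε : ℝ} (hκ : 2 < κ) (hκ1 : κ < 3) (hε : 0 < ε) :
    ∀ᶠ X : ℝ in atTop, ∃ G : Finset (ℕ × ℕ), X ^ (1 - κ / 6 - ε) ≤ (G.card : ℝ) ∧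
      ∀ p ∈ G, p ∈ GT th X ∧ ((p.1 + p.2 : ℕ) : ℝ) ≤ X ^ (κ / 6) ∧
        ∃ W : WeierstrassCurve ℤ, W.Δ ≠ 0 ∧ IsCoprime W.c₄ W.Δ ∧ Full W ∧ ff p = (W.c₄, W.c₆) ∧
        256 * W.Δ = (((p.1 * p.2 * (p.1 + p.2) : ℕ)) : ℤ) ^ 2 ∧
        (Pool.Agent.H925R.Szpiro.cond W : ℝ) ≤ X ∧
        (Pool.Agent.H925R.Szpiro.cond W : ℝ) ^ κ ≤ |(W.Δ : ℝ)| := by
  classical
  obtain ⟨M, hMκ⟩ : ∃ M : ℝ, M = κ / 6 := ⟨_, rfl⟩
  rw [← hMκ]
  have hM : 1 / 3 < M := by rw [hMκ]; linarith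
  have hM1 : M < 1 / 2 := by rw [hMκ]; linarith
  have hM0 : 0 < M := by linarith
  obtain ⟨η, hη⟩ : ∃ η : ℝ, η = min 1 (ε / 2) := ⟨_, rfl⟩
  have hη0 : 0 < η := by rw [hη]; exact lt_min one_pos (by positivity)
  have hη1 : η ≤ 1 := by rw [hη]; exact min_le_left _ _
  have hηε : η ≤ ε / 2 := by rw [hη]; exact min_le_right _ _
  have hprime := card_DP hη0 hη1
  have t1 : Tendsto (fun X : ℝ => X ^ ((3 * M - 1) / 2)) atTop atTop :=
    tendsto_rpow_atTop (by linarith)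
  have t1' : Tendsto (fun X : ℝ => 2 * X ^ ((3 * M - 1) / 2)) atTop atTop :=
    t1.const_mul_atTop (by norm_num)
  have t2 : Tendsto (fun X : ℝ => 1 / 1152 * X ^ (1 - 2 * M)) atTop atTop :=
    (tendsto_rpow_atTop (by linarith)).const_mul_atTop (by norm_num)
  have t2' : Tendsto (fun X : ℝ => 32 * (1 / 1152 * X ^ (1 - 2 * M))) atTop atTop :=
    t2.const_mul_atTop (by norm_num)
  have t5 : Tendsto (fun X : ℝ => X ^ (ε / 2)) atTop atTop :=
    tendsto_rpow_atTop (by linarith)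
  -- the ranges are disjoint
  have hdis : ∀ᶠ X : ℝ in atTop,
      64 * (1 / 1152 * X ^ (1 - 2 * M)) ≤ X ^ ((3 * M - 1) / 2) ∨
      4 * X ^ ((3 * M - 1) / 2) ≤ 1 / 1152 * X ^ (1 - 2 * M) := by
    rcases le_or_gt (3 / 7) M with h | h
    · filter_upwards [eventually_ge_atTop 1] with X hX
      left
      have h1 : X ^ (1 - 2 * M) ≤ X ^ ((3 * M - 1) / 2) :=
        Real.rpow_le_rpow_of_exponent_le hX (by linarith)
      have h2 : (0 : ℝ) ≤ X ^ (1 - 2 * M) := by positivity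
      linarith
    · have t6 : Tendsto (fun X : ℝ => X ^ ((3 - 7 * M) / 2)) atTop atTop :=
        tendsto_rpow_atTop (by linarith)
      filter_upwards [t6.eventually (eventually_ge_atTop 4608), eventually_ge_atTop 1]
        with X hX hX1
      right
      have hX0 : 0 < X := by linarith
      have e : X ^ (1 - 2 * M) = X ^ ((3 - 7 * M) / 2) * X ^ ((3 * M - 1) / 2) := by
        rw [← Real.rpow_add hX0]
        congr 1
        ring
      rw [e]
      have h2 : (0 : ℝ) ≤ X ^ ((3 * M - 1) / 2) := by positivity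
      nlinarith
  filter_upwards [t1.eventually hprime, t1'.eventually hprime, t2.eventually hprime,
    t2'.eventually hprime, hdis, t5.eventually (eventually_ge_atTop 1327104),
    t1.eventually (eventually_gt_atTop 2), t2.eventually (eventually_gt_atTop 2),
    eventually_ge_atTop 1] with X h1 h2 h3 h4 hd h5 hPbig hYbig hX
  have hX0 : 0 < X := by linarith
  obtain ⟨P, hP⟩ : ∃ P : ℝ, P = X ^ ((3 * M - 1) / 2) := ⟨_, rfl⟩
  obtain ⟨Y, hY⟩ : ∃ Y : ℝ, Y = 1 / 1152 * X ^ (1 - 2 * M) := ⟨_, rfl⟩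
  obtain ⟨Z, hZ⟩ : ∃ Z : ℝ, Z = X ^ M := ⟨_, rfl⟩
  rw [← hP] at h1 h2 hd hPbig
  rw [← hY] at h3 h4 hd hYbig
  rw [← hZ]
  have hP0 : 0 < P := by rw [hP]; positivity
  have hY0 : 0 < Y := by rw [hY]; positivity
  have hZ0 : 0 < Z := by rw [hZ]; positivity
  have hPP : P ^ 2 = X ^ (3 * M - 1) := by
    rw [hP, ← Real.rpow_natCast, ← Real.rpow_mul hX0.le]
    congr 1
    push_cast
    ring
  have hPY : 1152 * (P ^ 2 * Y) = Z := by
    rw [hPP, hY, hZ]
    calc 1152 * (X ^ (3 * M - 1) * (1 / 1152 * X ^ (1 - 2 * M))) =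
          X ^ (3 * M - 1) * X ^ (1 - 2 * M) := by ring
      _ = _ := by
          rw [← Real.rpow_add hX0]
          congr 1
          ring
  have hZP : Z ^ 3 = X * P ^ 2 := by
    rw [hZ, hPP, ← Real.rpow_natCast, ← Real.rpow_mul hX0.le]
    conv_rhs => rw [← Real.rpow_one X, ← Real.rpow_mul hX0.le]
    rw [← Real.rpow_add hX0]
    congr 1
    push_cast
    ring
  have hPX : (P ^ 2) ^ κ = (X * P ^ 2) ^ (κ - 2) := by
    rw [← hZP, hZ, hPP, ← Real.rpow_mul hX0.le, ← Real.rpow_natCast, ← Real.rpow_mul hX0.le,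
      ← Real.rpow_mul hX0.le]
    congr 1
    rw [hMκ]
    push_cast
    ring
  refine ⟨(DP P ×ˢ (DP Y ×ˢ (DP (2 * P) ×ˢ DP (32 * Y)))).image
    (fun x => (16 * (x.1 ^ 2 * x.2.1), x.2.2.1 ^ 2 * x.2.2.2)), ?_, ?_⟩
  · rw [card_image_of_injOn]
    · rw [card_product, card_product, card_product]
      push_cast
      have hp2 : (0 : ℝ) ≤ P ^ (1 - η) := by positivity
      have hy2 : (0 : ℝ) ≤ Y ^ (1 - η) := by positivity
      have h2' : P ^ (1 - η) ≤ ((DP (2 * P)).card : ℝ) :=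
        (Real.rpow_le_rpow hP0.le (by linarith) (by linarith)).trans h2
      have h4' : Y ^ (1 - η) ≤ ((DP (32 * Y)).card : ℝ) :=
        (Real.rpow_le_rpow hY0.le (by linarith) (by linarith)).trans h4
      have hprod : P ^ (1 - η) * (Y ^ (1 - η) * (P ^ (1 - η) * Y ^ (1 - η))) ≤
          ((DP P).card : ℝ) * (((DP Y).card : ℝ) * (((DP (2 * P)).card : ℝ) *
            ((DP (32 * Y)).card : ℝ))) := by
        gcongr
      refine le_trans ?_ hprod
      have e1 : P ^ (1 - η) * (Y ^ (1 - η) * (P ^ (1 - η) * Y ^ (1 - η))) =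
          ((P * Y) ^ 2) ^ (1 - η) := by
        rw [← Real.rpow_natCast, ← Real.rpow_mul (by positivity), mul_comm ((2 : ℕ) : ℝ),
          Real.rpow_mul (by positivity), Real.rpow_natCast, Real.mul_rpow hP0.le hY0.le]
        ring
      have e2 : (P * Y) ^ 2 = X ^ (1 - M) / 1327104 := by
        rw [mul_pow, hPP, hY]
        have e3 : (X ^ (1 - 2 * M)) ^ 2 = X ^ (2 - 4 * M) := by
          rw [← Real.rpow_natCast, ← Real.rpow_mul hX0.le]
          congr 1
          push_cast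
          ring
        rw [mul_pow, e3]
        calc X ^ (3 * M - 1) * ((1 / 1152) ^ 2 * X ^ (2 - 4 * M)) =
              X ^ (3 * M - 1) * X ^ (2 - 4 * M) / 1327104 := by ring
          _ = _ := by
              rw [← Real.rpow_add hX0]
              congr 2
              ring
      rw [e1, e2, Real.div_rpow (by positivity) (by norm_num), ← Real.rpow_mul hX0.le,
        le_div_iff₀ (by positivity)]
      have e4 : (1327104 : ℝ) ^ (1 - η) ≤ 1327104 := by
        calc (1327104 : ℝ) ^ (1 - η) ≤ 1327104 ^ (1 : ℝ) :=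
              Real.rpow_le_rpow_of_exponent_le (by norm_num) (by linarith)
          _ = 1327104 := Real.rpow_one _
      calc X ^ (1 - M - ε) * (1327104 : ℝ) ^ (1 - η) ≤ X ^ (1 - M - ε) * X ^ (ε / 2) :=
            mul_le_mul_of_nonneg_left (e4.trans h5) (by positivity)
        _ = X ^ (1 - M - ε / 2) := by
            rw [← Real.rpow_add hX0]
            congr 1
            ring
        _ ≤ X ^ ((1 - M) * (1 - η)) := by
            apply Real.rpow_le_rpow_of_exponent_le hX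
            nlinarith
    · rintro ⟨m, k, n, l⟩ hx ⟨m', k', n', l'⟩ hx' he
      rw [mem_coe, mem_product, mem_product, mem_product, mem_DP, mem_DP, mem_DP, mem_DP] at hx hx'
      obtain ⟨⟨m1, m2, m3⟩, ⟨k1, k2, k3⟩, ⟨n1, n2, n3⟩, l1, l2, l3⟩ := hx
      obtain ⟨⟨m1', m2', m3'⟩, ⟨k1', k2', k3'⟩, ⟨n1', n2', n3'⟩, l1', l2', l3'⟩ := hx'
      simp only at m1 m2 m3 k1 k2 k3 n1 n2 n3 l1 l2 l3 m1' m2' m3' k1' k2' k3' n1' n2' n3' l1' l2' l3'
      simp only [Prod.mk.injEq] at he ⊢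
      obtain ⟨e1, e2⟩ := he
      have e1' : m ^ 2 * k = m' ^ 2 * k' := by omega
      have hmk : m ≠ k' := by
        rintro rfl
        rcases hd with hd | hd <;> linarith
      have hnl : n ≠ l' := by
        rintro rfl
        rcases hd with hd | hd <;> linarith
      obtain ⟨a1, a2⟩ := sq_inj m1 m1' k1' hmk e1'
      obtain ⟨a3, a4⟩ := sq_inj n1 n1' l1' hnl e2
      exact ⟨a1, a2, a3, a4⟩
  · intro p hp
    obtain ⟨⟨m, k, n, l⟩, hx, rfl⟩ := mem_image.1 hp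
    rw [mem_product, mem_product, mem_product, mem_DP, mem_DP, mem_DP, mem_DP] at hx
    obtain ⟨⟨m1, m2, m3⟩, ⟨k1, k2, k3⟩, ⟨n1, n2, n3⟩, l1, l2, l3⟩ := hx
    simp only at m1 m2 m3 k1 k2 k3 n1 n2 n3 l1 l2 l3
    simp only
    have hm0 : (0 : ℝ) < m := hP0.trans_le m2
    have hk0 : (0 : ℝ) < k := hY0.trans_le k2
    have hn0 : (0 : ℝ) < n := by linarith
    have hl0 : (0 : ℝ) < l := by linarith
    have ha : ((16 * (m ^ 2 * k) : ℕ) : ℝ) ≤ 128 * (P ^ 2 * Y) := by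
      push_cast
      have e1 : (m : ℝ) ^ 2 * k ≤ (2 * P) ^ 2 * (2 * Y) :=
        mul_le_mul (pow_le_pow_left₀ hm0.le m3.le 2) k3.le hk0.le (by positivity)
      have e2 : (2 * P) ^ 2 * (2 * Y) = 8 * (P ^ 2 * Y) := by ring
      linarith
    have hb : ((n ^ 2 * l : ℕ) : ℝ) ≤ 1024 * (P ^ 2 * Y) := by
      push_cast
      calc (n : ℝ) ^ 2 * l ≤ (2 * (2 * P)) ^ 2 * (2 * (32 * Y)) := by
            apply mul_le_mul (pow_le_pow_left₀ hn0.le n3.le 2) l3.le hl0.le (by positivity)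
        _ = 1024 * (P ^ 2 * Y) := by ring
    have hb2 : 128 * (P ^ 2 * Y) ≤ ((n ^ 2 * l : ℕ) : ℝ) := by
      push_cast
      calc 128 * (P ^ 2 * Y) = (2 * P) ^ 2 * (32 * Y) := by ring
        _ ≤ (n : ℝ) ^ 2 * l := by
            apply mul_le_mul (pow_le_pow_left₀ (by positivity) n2 2) l2 (by positivity)
              (by positivity)
    have hab : 16 * (m ^ 2 * k) ≤ n ^ 2 * l := by
      have : ((16 * (m ^ 2 * k) : ℕ) : ℝ) ≤ ((n ^ 2 * l : ℕ) : ℝ) := ha.trans hb2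
      exact_mod_cast this
    have hc : ((16 * (m ^ 2 * k) + n ^ 2 * l : ℕ) : ℝ) ≤ Z := by
      rw [Nat.cast_add]
      linarith
    have hmn : m ≠ n := by
      rintro rfl
      linarith
    have hkl : k ≠ l := by
      rintro rfl
      linarith
    have hml : m ≠ l := by
      rintro rfl
      rcases hd with hd | hd <;> linarith
    have hkn : k ≠ n := by
      rintro rfl
      rcases hd with hd | hd <;> linarith
    have hn2 : n ≠ 2 := by
      rintro rfl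
      push_cast at n2
      linarith
    have hl2 : l ≠ 2 := by
      rintro rfl
      push_cast at l2
      linarith
    have hcop : Nat.Coprime (16 * (m ^ 2 * k)) (n ^ 2 * l) := by
      have c1 := (Nat.coprime_primes m1 n1).2 hmn
      have c2 := (Nat.coprime_primes m1 l1).2 hml
      have c3 := (Nat.coprime_primes k1 n1).2 hkn
      have c4 := (Nat.coprime_primes k1 l1).2 hkl
      have c5 := (Nat.coprime_primes Nat.prime_two n1).2 hn2.symm
      have c6 := (Nat.coprime_primes Nat.prime_two l1).2 hl2.symm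
      have c7 : Nat.Coprime 16 (n ^ 2 * l) := by
        rw [show (16 : ℕ) = 2 ^ 4 by norm_num]
        exact Nat.Coprime.mul_right (Nat.Coprime.pow 4 2 c5) (Nat.Coprime.pow_left 4 c6)
      exact Nat.Coprime.mul_left c7 (Nat.Coprime.mul_left
        (Nat.Coprime.mul_right (Nat.Coprime.pow 2 2 c1) (Nat.Coprime.pow_left 2 c2))
        (Nat.Coprime.mul_right (Nat.Coprime.pow_right 2 c3) c4))
    have hmnP : P ^ 2 ≤ (m : ℝ) * n := by nlinarith
    obtain ⟨g1, W, g2⟩ := prime_curve m1 k1 n1 l1 hab hcop hκ (by positivity : 0 < P ^ 2) hmnP hc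
      hZP hPX
    exact ⟨g1, hc, W, g2⟩

/-- the triples with `c ≤ X ^ T` and `rad ≤ B c ^ (1 / s)` -/
def SB (B s T X : ℝ) : Set (ℕ × ℕ) :=
  {p | 0 < p.1 ∧ 0 < p.2 ∧ Nat.Coprime p.1 p.2 ∧ ((p.1 + p.2 : ℕ) : ℝ) ≤ X ^ T ∧
    (rad3 p : ℝ) ≤ B * ((p.1 + p.2 : ℕ) : ℝ) ^ (1 / s)}

theorem SB_fin (B s T X : ℝ) : (SB B s T X).Finite := fin_of_le fun _ hp => hp.2.2.2.1

theorem SB_card {B s T ε : ℝ} (hs : 0 < s) (hT : 0 ≤ T) (hε : 0 < ε) :
    ∃ C : ℝ, 0 ≤ C ∧ ∀ X : ℝ, 1 ≤ X →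
      ((SB B s T X).ncard : ℝ) ≤ C * X ^ (T * (Fx (1 / s) + ε)) := by
  obtain ⟨C, hC⟩ := count_FxB B (1 / s) ε (by positivity) hε
  have hF : 0 ≤ Fx (1 / s) + ε := by
    have := Fx_pos (1 / s) (by positivity)
    linarith
  refine ⟨|C|, abs_nonneg C, fun X hX => ?_⟩
  have hX0 : 0 < X := by linarith
  obtain ⟨N, hN⟩ : ∃ N : ℕ, N = ⌊X ^ T⌋₊ := ⟨_, rfl⟩
  have hXT : (1 : ℝ) ≤ X ^ T := Real.one_le_rpow hX hT
  have hN1 : 1 ≤ N := by
    rw [hN]
    exact Nat.le_floor (by rw [Nat.cast_one]; exact hXT)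
  have hNX : (N : ℝ) ≤ X ^ T := by
    rw [hN]
    exact Nat.floor_le (by positivity)
  have h1 := hC N hN1
  have h2 : (SB B s T X).ncard ≤ (ExcB B (1 / s) N).ncard := by
    refine Set.ncard_le_ncard_of_injOn (fun p : ℕ × ℕ => (p.1, p.2, p.1 + p.2)) ?_ ?_
      (excB_finite B (1 / s) N)
    · rintro ⟨a, b⟩ ⟨h1, h2, h3, h4, h5⟩
      refine ⟨h1, h2, h3, rfl, ?_, h5⟩
      rw [hN]
      exact Nat.le_floor h4
    · rintro ⟨a, b⟩ _ ⟨a', b'⟩ _ h
      simp only [Prod.mk.injEq] at h ⊢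
      exact ⟨h.1, h.2.1⟩
  calc ((SB B s T X).ncard : ℝ) ≤ ((ExcB B (1 / s) N).ncard : ℝ) := by exact_mod_cast h2
    _ ≤ C * (N : ℝ) ^ (Fx (1 / s) + ε) := h1
    _ ≤ |C| * (N : ℝ) ^ (Fx (1 / s) + ε) :=
        mul_le_mul_of_nonneg_right (le_abs_self C) (by positivity)
    _ ≤ |C| * (X ^ T) ^ (Fx (1 / s) + ε) :=
        mul_le_mul_of_nonneg_left (Real.rpow_le_rpow (by positivity) hNX hF) (abs_nonneg C)
    _ = _ := by rw [← Real.rpow_mul hX0.le]

/-- **The lower bound.** -/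
theorem lowerE {κ K ε : ℝ} (hκ : 2 < κ) (hκ1 : κ < 3) (hκK : κ < K) (hε : 0 < ε) :
    ∃ X₀ : ℝ, ∀ X : ℝ, X₀ ≤ X → X ^ (1 - κ / 6 - ε) ≤ ((EB κ K X).ncard : ℝ) := by
  classical
  have hK0 : 0 < K := by linarith
  have hgap := Fx_lt (M := κ / 6) (K := K / 6) (by linarith) (by linarith) (by linarith)
  obtain ⟨δ, hδ⟩ : ∃ δ : ℝ, δ = min ε ((1 - κ / 6 - κ / 6 * Fx (1 / (K / 6))) / 3) := ⟨_, rfl⟩
  have hδ0 : 0 < δ := by rw [hδ]; exact lt_min hε (by linarith)
  have hδε : δ ≤ ε := by rw [hδ]; exact min_le_left _ _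
  have hδg : δ ≤ (1 - κ / 6 - κ / 6 * Fx (1 / (K / 6))) / 3 := by rw [hδ]; exact min_le_right _ _
  obtain ⟨C, hC0, hC⟩ := SB_card (B := 2) (s := K / 6) (T := κ / 6) (ε := δ) (by linarith)
    (by linarith) hδ0
  have t5 : Tendsto (fun X : ℝ => X ^ (δ / 2)) atTop atTop :=
    tendsto_rpow_atTop (by linarith)
  have key : ∀ᶠ X : ℝ in atTop, X ^ (1 - κ / 6 - ε) ≤ ((EB κ K X).ncard : ℝ) := by
    filter_upwards [many_semi (ε := δ / 2) hκ hκ1 (by positivity),
      t5.eventually (eventually_ge_atTop (C + 1)), eventually_ge_atTop 1] with X hG h5 hX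
    have hX0 : 0 < X := by linarith
    obtain ⟨G, hG1, hG2⟩ := hG
    have hfinB : (EB κ K X).Finite := (EK_fin κ K X).subset (EB_sub hK0.le)
    have hsub : (G : Set (ℕ × ℕ)) ⊆ ((G : Set (ℕ × ℕ)) ∩ ff ⁻¹' EB κ K X) ∪ SB 2 (K / 6) (κ / 6) X := by
      intro p hp
      obtain ⟨g1, g2, W, w1, w2, w3, w4, w5, w6, w7⟩ := hG2 p (mem_coe.1 hp)
      have hg1 := g1
      obtain ⟨a1, a2, a3, a4⟩ := hg1
      have b1 : (1 : ℝ) ≤ p.1 := by exact_mod_cast a1
      have b2 : (p.1 : ℝ) ≤ p.2 := by exact_mod_cast a2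
      rcases lt_or_ge |(W.Δ : ℝ)| ((Pool.Agent.H925R.Szpiro.cond W : ℝ) ^ K) with h7 | h7
      · exact Or.inl ⟨hp, W, w1, w2, w3, w4, w6, w7, h7⟩
      · refine Or.inr ⟨a1, by omega, a3, g2, ?_⟩
        obtain ⟨c, hc⟩ : ∃ c : ℝ, c = ((p.1 + p.2 : ℕ) : ℝ) := ⟨_, rfl⟩
        rw [← hc]
        have hc0 : 0 ≤ c := by rw [hc]; positivity
        have hD : 256 * (W.Δ : ℝ) = ((p.1 : ℝ) * p.2 * (p.1 + p.2)) ^ 2 := by
          have := w5
          exact_mod_cast this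
        have hD0 : 0 ≤ (W.Δ : ℝ) := by
          have : 0 ≤ ((p.1 : ℝ) * p.2 * (p.1 + p.2)) ^ 2 := sq_nonneg _
          linarith
        have hD1 : (W.Δ : ℝ) ≤ c ^ 6 := by
          have h2 : (p.1 : ℝ) * p.2 ≤ c ^ 2 := by
            rw [hc]
            push_cast
            nlinarith
          have h3 : (p.1 : ℝ) * p.2 * (p.1 + p.2) ≤ c ^ 2 * c := by
            refine mul_le_mul h2 ?_ (by positivity) (by positivity)
            rw [hc]
            push_cast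
            exact le_rfl
          have h4 : ((p.1 : ℝ) * p.2 * (p.1 + p.2)) ^ 2 ≤ (c ^ 2 * c) ^ 2 :=
            pow_le_pow_left₀ (by positivity) h3 2
          have h6 : (c ^ 2 * c) ^ 2 = c ^ 6 := by ring
          linarith
        have hr : (rad3 p : ℝ) ≤ 2 * Pool.Agent.H925R.Szpiro.cond W := by
          have h2 := (cond_iff a1 (by omega) a3
            (dvd_of_th a3 (theta_pos th_nonneg g1)) w5
            (Pool.Agent.H925R.Szpiro.cond W : ℝ)).1 le_rfl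
          refine le_trans ?_ (mul_le_mul_of_nonneg_right
            (th_le (Pool.Agent.TH498.AR.psi3 ∅ p)) (Nat.cast_nonneg _))
          exact h2
        rw [abs_of_nonneg hD0] at h7
        have hN0 : (0 : ℝ) ≤ Pool.Agent.H925R.Szpiro.cond W := Nat.cast_nonneg _
        refine hr.trans (mul_le_mul_of_nonneg_left ?_ (by norm_num))
        calc (Pool.Agent.H925R.Szpiro.cond W : ℝ) =
              ((Pool.Agent.H925R.Szpiro.cond W : ℝ) ^ K) ^ (1 / K) := by
              rw [← Real.rpow_mul hN0, mul_one_div_cancel hK0.ne', Real.rpow_one]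
          _ ≤ (c ^ 6) ^ (1 / K) :=
              Real.rpow_le_rpow (by positivity) (h7.trans hD1) (by positivity)
          _ = c ^ (1 / (K / 6)) := by
              rw [← Real.rpow_natCast, ← Real.rpow_mul hc0]
              congr 1
              push_cast
              field_simp
    have h8 := Set.ncard_le_ncard hsub
      (((finite_toSet G).subset Set.inter_subset_left).union (SB_fin _ _ _ _))
    rw [Set.ncard_coe_finset] at h8
    have h9 : (G.card : ℝ) ≤ (((G : Set (ℕ × ℕ)) ∩ ff ⁻¹' EB κ K X).ncard : ℝ) +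
        ((SB 2 (K / 6) (κ / 6) X).ncard : ℝ) := by
      exact_mod_cast h8.trans (Set.ncard_union_le _ _)
    have h9' : (((G : Set (ℕ × ℕ)) ∩ ff ⁻¹' EB κ K X).ncard : ℝ) ≤ ((EB κ K X).ncard : ℝ) := by
      have : ((G : Set (ℕ × ℕ)) ∩ ff ⁻¹' EB κ K X).ncard ≤ (EB κ K X).ncard := by
        refine Set.ncard_le_ncard_of_injOn ff (fun p hp => hp.2) ?_ hfinB
        intro p hp p' hp' he
        exact ff_injOn X (hG2 p hp.1).1 (hG2 p' hp'.1).1 he
      exact_mod_cast this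
    have h10 : ((SB 2 (K / 6) (κ / 6) X).ncard : ℝ) ≤ C * X ^ (1 - κ / 6 - δ) := by
      refine (hC X hX).trans (mul_le_mul_of_nonneg_left
        (Real.rpow_le_rpow_of_exponent_le hX ?_) hC0)
      have : κ / 6 * δ ≤ δ := by nlinarith
      linarith
    have h11 : (C + 1) * X ^ (1 - κ / 6 - δ) ≤ X ^ (1 - κ / 6 - δ / 2) := by
      calc (C + 1) * X ^ (1 - κ / 6 - δ) ≤ X ^ (δ / 2) * X ^ (1 - κ / 6 - δ) :=
            mul_le_mul_of_nonneg_right h5 (by positivity)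
        _ = X ^ (1 - κ / 6 - δ / 2) := by
            rw [← Real.rpow_add hX0]
            congr 1
            ring
    have h12 : X ^ (1 - κ / 6 - ε) ≤ X ^ (1 - κ / 6 - δ) :=
      Real.rpow_le_rpow_of_exponent_le hX (by linarith)
    linarith
  obtain ⟨X₀, hX₀⟩ := eventually_atTop.1 key
  exact ⟨X₀, hX₀⟩

end Pool.Agent.Q38.AE.Semi
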