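import Pool.Agent.W221.ABC.Main7

/-! The number of abc triples of radical at most `X`, height at most `X ^ K`, which violate
Oesterlé's inequality with the exponent `M`: upper bounds. -/

set_option autoImplicit false

namespace Pool.Agent.Q38.AE

open Finset Filter Topology Pool.Agent.W221.ABC7

/-- the product of the primes dividing `n` -/
def radical (n : ℕ) : ℕ := ∏ p ∈ n.primeFactors, p

/-- the radical of `abc` for the triple `(a, b, a + b)` written `(a, b)` -/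
def rad3 (p : ℕ × ℕ) : ℕ := radical (p.1 * p.2 * (p.1 + p.2))

/-- the triples with `c ≤ X ^ T` and `rad ≤ c ^ (1 / s)` -/
def S (s T X : ℝ) : Set (ℕ × ℕ) :=
  {p | 0 < p.1 ∧ 0 < p.2 ∧ Nat.Coprime p.1 p.2 ∧ ((p.1 + p.2 : ℕ) : ℝ) ≤ X ^ T ∧
    (rad3 p : ℝ) ≤ ((p.1 + p.2 : ℕ) : ℝ) ^ (1 / s)}

/-- the exceptions to the exponent `M` of height at most `X ^ K` -/
def exc (M K X : ℝ) : Set (ℕ × ℕ) :=
  {p | (0 < p.1 ∧ p.1 ≤ p.2 ∧ Nat.Coprime p.1 p.2 ∧ (rad3 p : ℝ) ≤ X) ∧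
    (rad3 p : ℝ) ^ M ≤ ((p.1 + p.2 : ℕ) : ℝ) ∧ ((p.1 + p.2 : ℕ) : ℝ) ≤ X ^ K}

theorem radical_pos (n : ℕ) : 0 < radical n :=
  Finset.prod_pos fun _ hq => (Nat.prime_of_mem_primeFactors hq).pos

theorem rad3_pos (p : ℕ × ℕ) : 0 < rad3 p := radical_pos _

theorem fin_of_le {Z : Set (ℕ × ℕ)} {B : ℝ} (h : ∀ p ∈ Z, ((p.1 + p.2 : ℕ) : ℝ) ≤ B) :
    Z.Finite := by
  refine Set.Finite.subset (Finset.finite_toSet
      ((range (⌊B⌋₊ + 1)) ×ˢ (range (⌊B⌋₊ + 1)))) ?_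
  rintro ⟨a, b⟩ hp
  have h1 : a + b ≤ ⌊B⌋₊ := Nat.le_floor (h _ hp)
  simp only [coe_product, Set.mem_prod, coe_range, Set.mem_Iio]
  omega

theorem S_fin (s T X : ℝ) : (S s T X).Finite := fin_of_le fun p hp => hp.2.2.2.1

theorem exc_fin (M K X : ℝ) : (exc M K X).Finite := fin_of_le fun p hp => hp.2.2

/-- the count of the triples of bounded height -/
theorem S_card {s T ε : ℝ} (hs : 0 < s) (hT : 0 ≤ T) (hε : 0 < ε) :
    ∃ C : ℝ, 0 ≤ C ∧ ∀ X : ℝ, 1 ≤ X →
      ((S s T X).ncard : ℝ) ≤ C * X ^ (T * (Fx (1 / s) + ε)) := by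
  obtain ⟨C, hC⟩ := count_FxB 1 (1 / s) ε (by positivity) hε
  have hF : 0 ≤ Fx (1 / s) + ε := by
    have := Fx_pos (1 / s) (by positivity)
    linarith
  refine ⟨|C|, abs_nonneg C, fun X hX => ?_⟩
  have hX0 : 0 < X := by linarith
  obtain ⟨N, hN⟩ : ∃ N : ℕ, N = ⌊X ^ T⌋₊ := ⟨_, rfl⟩
  have hXT : (1 : ℝ) ≤ X ^ T := Real.one_le_rpow hX hT
  have hN1 : 1 ≤ N := by
    rw [hN]
    exact Nat.le_floor (by rw [Nat.cast_one]; exact hXT)
  have hNX : (N : ℝ) ≤ X ^ T := by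
    rw [hN]
    exact Nat.floor_le (by positivity)
  have h1 := hC N hN1
  have h2 : (S s T X).ncard ≤ (ExcB 1 (1 / s) N).ncard := by
    refine Set.ncard_le_ncard_of_injOn (fun p : ℕ × ℕ => (p.1, p.2, p.1 + p.2)) ?_ ?_
      (excB_finite 1 (1 / s) N)
    · rintro ⟨a, b⟩ ⟨h1, h2, h3, h4, h5⟩
      refine ⟨h1, h2, h3, rfl, ?_, ?_⟩
      · rw [hN]
        exact Nat.le_floor h4
      · rw [one_mul]
        exact h5
    · rintro ⟨a, b⟩ _ ⟨a', b'⟩ _ h
      simp only [Prod.mk.injEq] at h ⊢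
      exact ⟨h.1, h.2.1⟩
  calc ((S s T X).ncard : ℝ) ≤ ((ExcB 1 (1 / s) N).ncard : ℝ) := by exact_mod_cast h2
    _ ≤ C * (N : ℝ) ^ (Fx (1 / s) + ε) := h1
    _ ≤ |C| * (N : ℝ) ^ (Fx (1 / s) + ε) :=
        mul_le_mul_of_nonneg_right (le_abs_self C) (by positivity)
    _ ≤ |C| * (X ^ T) ^ (Fx (1 / s) + ε) :=
        mul_le_mul_of_nonneg_left (Real.rpow_le_rpow (by positivity) hNX hF) (abs_nonneg C)
    _ = _ := by rw [← Real.rpow_mul hX0.le]

/-- **The general upper bound.** -/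
theorem upper {M K L ε : ℝ} (hM : 0 < M) (hMK : M ≤ K)
    (hL : ∀ s : ℝ, M ≤ s → s ≤ K → s * Fx (1 / s) ≤ L) (hε : 0 < ε) :
    ∃ C : ℝ, 0 < C ∧ ∀ X : ℝ, 1 ≤ X → ((exc M K X).ncard : ℝ) ≤ C * X ^ (L + ε) := by
  have hFM : 0 < Fx (1 / M) := Fx_pos _ (by positivity)
  obtain ⟨η, hη⟩ : ∃ η : ℝ, η = min 1 (ε / (2 * (Fx (1 / M) + 1))) := ⟨_, rfl⟩
  obtain ⟨ε', hε'⟩ : ∃ ε' : ℝ, ε' = ε / (2 * (K + 1)) := ⟨_, rfl⟩
  have hη0 : 0 < η := by rw [hη]; exact lt_min one_pos (by positivity)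
  have hη1 : η ≤ 1 := by rw [hη]; exact min_le_left _ _
  have hη2 : η * Fx (1 / M) ≤ ε / 2 := by
    have h1 : η ≤ ε / (2 * (Fx (1 / M) + 1)) := by rw [hη]; exact min_le_right _ _
    calc η * Fx (1 / M) ≤ ε / (2 * (Fx (1 / M) + 1)) * (Fx (1 / M) + 1) :=
          mul_le_mul h1 (by linarith) hFM.le (by positivity)
      _ = ε / 2 := by field_simp
  have hK0 : 0 < K := by linarith
  have hε'0 : 0 < ε' := by rw [hε']; positivity
  have hε'2 : (K + 1) * ε' = ε / 2 := by rw [hε']; field_simp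
  -- the exponents
  have hexp : ∀ s : ℝ, M ≤ s → s ≤ K → (s + η) * (Fx (1 / s) + ε') ≤ L + ε := by
    intro s h1 h2
    have h3 := hL s h1 h2
    have h4 : Fx (1 / s) ≤ Fx (1 / M) :=
      (ml_Fx (1 / s) (1 / M) (one_div_le_one_div_of_le hM h1)).1
    have h5 : (s + η) * ε' ≤ (K + 1) * ε' := mul_le_mul_of_nonneg_right (by linarith) hε'0.le
    have h6 : η * Fx (1 / s) ≤ η * Fx (1 / M) := mul_le_mul_of_nonneg_left h4 hη0.le
    calc (s + η) * (Fx (1 / s) + ε') = s * Fx (1 / s) + η * Fx (1 / s) + (s + η) * ε' := by ring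
      _ ≤ L + ε := by linarith
  -- induction
  have hind : ∀ j : ℕ, M + ((j : ℝ) - 1) * η ≤ K → ∃ C : ℝ, 0 ≤ C ∧ ∀ X : ℝ, 1 ≤ X →
      ((exc M (M + j * η) X).ncard : ℝ) ≤ C * X ^ (L + ε) := by
    intro j
    induction j with
    | zero =>
      intro _
      obtain ⟨C, hC0, hC⟩ := S_card hM hM.le hε'0
      refine ⟨C, hC0, fun X hX => ?_⟩
      have hX0 : 0 < X := by linarith
      have hsub : exc M (M + (0 : ℕ) * η) X ⊆ S M M X := by
        rintro p ⟨⟨h1, h2, h3, h4⟩, h5, h6⟩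
        rw [Nat.cast_zero, zero_mul, add_zero] at h6
        refine ⟨h1, by omega, h3, h6, ?_⟩
        have h7 : (0 : ℝ) ≤ rad3 p := Nat.cast_nonneg _
        calc (rad3 p : ℝ) = ((rad3 p : ℝ) ^ M) ^ (1 / M) := by
              rw [← Real.rpow_mul h7, mul_one_div_cancel hM.ne', Real.rpow_one]
          _ ≤ _ := Real.rpow_le_rpow (by positivity) h5 (by positivity)
      have h1 : ((exc M (M + (0 : ℕ) * η) X).ncard : ℝ) ≤ ((S M M X).ncard : ℝ) := by
        exact_mod_cast Set.ncard_le_ncard hsub (S_fin _ _ _)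
      refine h1.trans ((hC X hX).trans ?_)
      refine mul_le_mul_of_nonneg_left (Real.rpow_le_rpow_of_exponent_le hX ?_) hC0
      refine le_trans ?_ (hexp M le_rfl hMK)
      exact mul_le_mul_of_nonneg_right (by linarith) (by linarith)
    | succ j ih =>
      intro hj
      have hj' : M + (j : ℝ) * η ≤ K := by
        push_cast at hj
        linarith
      obtain ⟨C, hC0, hC⟩ := ih (by nlinarith)
      have hs : 0 < M + (j : ℝ) * η := by positivity
      obtain ⟨C', hC'0, hC'⟩ := S_card (s := M + (j : ℝ) * η) (T := M + (j : ℝ) * η + η)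
        (ε := ε') hs (by positivity) hε'0
      refine ⟨C + C', by positivity, fun X hX => ?_⟩
      have hX0 : 0 < X := by linarith
      have hsub : exc M (M + ((j + 1 : ℕ) : ℝ) * η) X ⊆
          exc M (M + j * η) X ∪ S (M + j * η) (M + j * η + η) X := by
        rintro p ⟨⟨h1, h2, h3, h4⟩, h5, h6⟩
        by_cases hc : ((p.1 + p.2 : ℕ) : ℝ) ≤ X ^ (M + (j : ℝ) * η)
        · exact Or.inl ⟨⟨h1, h2, h3, h4⟩, h5, hc⟩
        · push Not at hc
          refine Or.inr ⟨h1, by omega, h3, ?_, ?_⟩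
          · refine h6.trans (le_of_eq ?_)
            congr 1
            push_cast
            ring
          · calc (rad3 p : ℝ) ≤ X := h4
              _ = (X ^ (M + (j : ℝ) * η)) ^ (1 / (M + (j : ℝ) * η)) := by
                  rw [← Real.rpow_mul hX0.le, mul_one_div_cancel hs.ne', Real.rpow_one]
              _ ≤ _ := Real.rpow_le_rpow (by positivity) hc.le (by positivity)
      have h1 := Set.ncard_le_ncard hsub ((exc_fin _ _ _).union (S_fin _ _ _))
      have h2 := Set.ncard_union_le (exc M (M + j * η) X) (S (M + j * η) (M + j * η + η) X)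
      have h3 : ((exc M (M + ((j + 1 : ℕ) : ℝ) * η) X).ncard : ℝ) ≤
          ((exc M (M + j * η) X).ncard : ℝ) +
            ((S (M + j * η) (M + j * η + η) X).ncard : ℝ) := by
        exact_mod_cast h1.trans h2
      have h4 := hC X hX
      have h5 := (hC' X hX).trans (mul_le_mul_of_nonneg_left (Real.rpow_le_rpow_of_exponent_le hX
        (hexp _ (by nlinarith [mul_nonneg (Nat.cast_nonneg j : (0 : ℝ) ≤ j) hη0.le]) hj')) hC'0)
      linarith
  -- the first `j` with `M + j η ≥ K`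
  obtain ⟨j, hj1, hj2⟩ : ∃ j : ℕ, M + ((j : ℝ) - 1) * η ≤ K ∧ K ≤ M + j * η := by
    refine ⟨⌈(K - M) / η⌉₊, ?_, ?_⟩
    · have h1 := Nat.ceil_lt_add_one (show 0 ≤ (K - M) / η from div_nonneg (by linarith) hη0.le)
      have h2 : ((⌈(K - M) / η⌉₊ : ℝ) - 1) * η ≤ (K - M) / η * η :=
        mul_le_mul_of_nonneg_right (by linarith) hη0.le
      rw [div_mul_cancel₀ _ hη0.ne'] at h2
      linarith
    · have h1 := Nat.le_ceil ((K - M) / η)
      have h2 := mul_le_mul_of_nonneg_right h1 hη0.le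
      rw [div_mul_cancel₀ _ hη0.ne'] at h2
      linarith
  obtain ⟨C, hC0, hC⟩ := hind j hj1
  refine ⟨C + 1, by positivity, fun X hX => ?_⟩
  have hsub : exc M K X ⊆ exc M (M + j * η) X := by
    rintro p ⟨h1, h2, h3⟩
    exact ⟨h1, h2, h3.trans (Real.rpow_le_rpow_of_exponent_le hX hj2)⟩
  have h1 : ((exc M K X).ncard : ℝ) ≤ ((exc M (M + j * η) X).ncard : ℝ) := by
    exact_mod_cast Set.ncard_le_ncard hsub (exc_fin _ _ _)
  have h2 : (0 : ℝ) ≤ X ^ (L + ε) := by positivity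
  have h3 := hC X hX
  nlinarith

/-- the exponent for the height `X ^ s` -/
theorem f_le {s : ℝ} (hs : 0 < s) : s * Fx (1 / s) ≤ max (1 - s) (4 / 7) := by
  have e : s * (1 / s) = 1 := mul_one_div_cancel hs.ne'
  unfold Fx
  split_ifs with h1 h2 h3 h4 h5
  · refine le_max_of_le_right (le_of_eq ?_)
    field_simp
  · refine le_max_of_le_right ?_
    have h6 : s * (1 / s) > s * (2 / 3) := mul_lt_mul_of_pos_left (not_le.1 h1) hs
    have e2 : s * ((13 * (1 / s) + 2) / 28) = (13 * (s * (1 / s)) + 2 * s) / 28 := by ring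
    rw [e2, e]
    rw [e] at h6
    linarith
  · refine le_max_of_le_right ?_
    have h6 : s * (1 / s) ≤ s * (3 / 2) := mul_le_mul_of_nonneg_left h3 hs.le
    have e2 : s * (5 * (10 * (1 / s) - 1) / 84) = 5 * (10 * (s * (1 / s)) - s) / 84 := by ring
    rw [e2, e]
    rw [e] at h6
    linarith
  · refine le_max_of_le_right ?_
    have h6 : s * (1 / s) ≤ s * (16 / 9) := mul_le_mul_of_nonneg_left h4 hs.le
    have e2 : s * ((9 * (1 / s) - 1) / 15) = (9 * (s * (1 / s)) - s) / 15 := by ring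
    rw [e2, e]
    rw [e] at h6
    linarith
  · refine le_max_of_le_right ?_
    have h6 : s * (1 / s) > s * (16 / 9) := mul_lt_mul_of_pos_left (not_le.1 h4) hs
    rw [e] at h6
    linarith
  · refine le_max_of_le_left (le_of_eq ?_)
    rw [mul_sub, e, mul_one]

/-- the exponent for the height `X ^ s` with `s ≤ 1 / 2` -/
theorem f_half {s : ℝ} (hs : 0 < s) (h : s ≤ 1 / 2) : s * Fx (1 / s) = 1 - s := by
  rw [Fx_two _ (by rw [le_div_iff₀ hs]; linarith), mul_sub, mul_one_div_cancel hs.ne', mul_one]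

end Pool.Agent.Q38.AE
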